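import Pool.Agent.K9h7.SH.Lead

/-!
# Integrality of the leading coefficients
-/

set_option autoImplicit false

open Finset Polynomial

namespace Pool.Agent.K9h7.SH

variable {R : ℕ} {ν : ℝ} {δ : ℕ} {M : ℕ → ℕ → ℕ} {V : ℚ[X]}

theorem lat2 {V : ℚ[X]} (hn : V.natDegree = 2) (h0 : V.eval 0 = 0)
    (hz : ∀ t : ℕ, t ≤ 3 → ∃ z : ℤ, ((t : ℚ) + 1) ^ 2 * V.eval (t : ℚ) = z)
    (hz2 : ∀ t : ℕ, t ≤ 3 → Even t → ∃ z : ℤ, ((t : ℚ) + 1) ^ 2 * V.eval (t : ℚ) = 2 * z) :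
    ∃ m : ℤ, V.coeff 2 * 12 = m := by
  have e : ∀ x : ℚ, V.eval x = ∑ i ∈ range (2 + 1), V.coeff i * x ^ i := fun x =>
    eval_eq_sum_range' (by omega) x
  have c0 : V.coeff 0 = 0 := by rw [coeff_zero_eq_eval_zero, h0]
  obtain ⟨z1, h1⟩ := hz 1 (by norm_num)
  obtain ⟨z2, h2⟩ := hz2 2 (by norm_num) (by decide)
  obtain ⟨z3, h3⟩ := hz 3 (by norm_num)
  rw [e] at h1 h2 h3
  simp only [sum_range_succ, sum_range_zero, c0] at h1 h2 h3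
  push_cast at h1 h2 h3
  refine ⟨(-15) * z1 + (12) * z2 + (-1) * z3, ?_⟩
  push_cast
  linarith

theorem lat3 {V : ℚ[X]} (hn : V.natDegree = 3) (h0 : V.eval 0 = 0)
    (hz : ∀ t : ℕ, t ≤ 4 → ∃ z : ℤ, ((t : ℚ) + 1) ^ 2 * V.eval (t : ℚ) = z)
    (hz2 : ∀ t : ℕ, t ≤ 4 → Even t → ∃ z : ℤ, ((t : ℚ) + 1) ^ 2 * V.eval (t : ℚ) = 2 * z) :
    ∃ m : ℤ, V.coeff 3 * 12 = m := by
  have e : ∀ x : ℚ, V.eval x = ∑ i ∈ range (3 + 1), V.coeff i * x ^ i := fun x =>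
    eval_eq_sum_range' (by omega) x
  have c0 : V.coeff 0 = 0 := by rw [coeff_zero_eq_eval_zero, h0]
  obtain ⟨z1, h1⟩ := hz 1 (by norm_num)
  obtain ⟨z2, h2⟩ := hz2 2 (by norm_num) (by decide)
  obtain ⟨z3, h3⟩ := hz 3 (by norm_num)
  obtain ⟨z4, h4⟩ := hz2 4 (by norm_num) (by decide)
  rw [e] at h1 h2 h3 h4
  simp only [sum_range_succ, sum_range_zero, c0] at h1 h2 h3 h4
  push_cast at h1 h2 h3 h4
  refine ⟨(89) * z1 + (-118) * z2 + (22) * z3 + (-7) * z4, ?_⟩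
  push_cast
  linarith

theorem lat4 {V : ℚ[X]} (hn : V.natDegree = 4) (h0 : V.eval 0 = 0)
    (hz : ∀ t : ℕ, t ≤ 6 → ∃ z : ℤ, ((t : ℚ) + 1) ^ 2 * V.eval (t : ℚ) = z)
    (hz2 : ∀ t : ℕ, t ≤ 6 → Even t → ∃ z : ℤ, ((t : ℚ) + 1) ^ 2 * V.eval (t : ℚ) = 2 * z) :
    ∃ m : ℤ, V.coeff 4 * 360 = m := by
  have e : ∀ x : ℚ, V.eval x = ∑ i ∈ range (4 + 1), V.coeff i * x ^ i := fun x =>
    eval_eq_sum_range' (by omega) x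
  have c0 : V.coeff 0 = 0 := by rw [coeff_zero_eq_eval_zero, h0]
  obtain ⟨z1, h1⟩ := hz 1 (by norm_num)
  obtain ⟨z2, h2⟩ := hz2 2 (by norm_num) (by decide)
  obtain ⟨z3, h3⟩ := hz 3 (by norm_num)
  obtain ⟨z4, h4⟩ := hz2 4 (by norm_num) (by decide)
  obtain ⟨z5, h5⟩ := hz 5 (by norm_num)
  obtain ⟨z6, h6⟩ := hz2 6 (by norm_num) (by decide)
  rw [e] at h1 h2 h3 h4 h5 h6
  simp only [sum_range_succ, sum_range_zero, c0] at h1 h2 h3 h4 h5 h6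
  push_cast at h1 h2 h3 h4 h5 h6
  refine ⟨(18) * z1 + (-55) * z2 + (25) * z3 + (-27) * z4 + (4) * z5 + (-1) * z6, ?_⟩
  push_cast
  linarith

theorem lat5 {V : ℚ[X]} (hn : V.natDegree = 5) (h0 : V.eval 0 = 0)
    (hz : ∀ t : ℕ, t ≤ 6 → ∃ z : ℤ, ((t : ℚ) + 1) ^ 2 * V.eval (t : ℚ) = z)
    (hz2 : ∀ t : ℕ, t ≤ 6 → Even t → ∃ z : ℤ, ((t : ℚ) + 1) ^ 2 * V.eval (t : ℚ) = 2 * z) :
    ∃ m : ℤ, V.coeff 5 * 720 = m := by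
  have e : ∀ x : ℚ, V.eval x = ∑ i ∈ range (5 + 1), V.coeff i * x ^ i := fun x =>
    eval_eq_sum_range' (by omega) x
  have c0 : V.coeff 0 = 0 := by rw [coeff_zero_eq_eval_zero, h0]
  obtain ⟨z1, h1⟩ := hz 1 (by norm_num)
  obtain ⟨z2, h2⟩ := hz2 2 (by norm_num) (by decide)
  obtain ⟨z3, h3⟩ := hz 3 (by norm_num)
  obtain ⟨z4, h4⟩ := hz2 4 (by norm_num) (by decide)
  obtain ⟨z5, h5⟩ := hz 5 (by norm_num)
  obtain ⟨z6, h6⟩ := hz2 6 (by norm_num) (by decide)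
  rw [e] at h1 h2 h3 h4 h5 h6
  simp only [sum_range_succ, sum_range_zero, c0] at h1 h2 h3 h4 h5 h6
  push_cast at h1 h2 h3 h4 h5 h6
  refine ⟨(1257) * z1 + (-2790) * z2 + (1045) * z3 + (-1002) * z4 + (139) * z5 + (-34) * z6, ?_⟩
  push_cast
  linarith

theorem lat6 {V : ℚ[X]} (hn : V.natDegree = 6) (h0 : V.eval 0 = 0)
    (hz : ∀ t : ℕ, t ≤ 7 → ∃ z : ℤ, ((t : ℚ) + 1) ^ 2 * V.eval (t : ℚ) = z)
    (hz2 : ∀ t : ℕ, t ≤ 7 → Even t → ∃ z : ℤ, ((t : ℚ) + 1) ^ 2 * V.eval (t : ℚ) = 2 * z) :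
    ∃ m : ℤ, V.coeff 6 * 20160 = m := by
  have e : ∀ x : ℚ, V.eval x = ∑ i ∈ range (6 + 1), V.coeff i * x ^ i := fun x =>
    eval_eq_sum_range' (by omega) x
  have c0 : V.coeff 0 = 0 := by rw [coeff_zero_eq_eval_zero, h0]
  obtain ⟨z1, h1⟩ := hz 1 (by norm_num)
  obtain ⟨z2, h2⟩ := hz2 2 (by norm_num) (by decide)
  obtain ⟨z3, h3⟩ := hz 3 (by norm_num)
  obtain ⟨z4, h4⟩ := hz2 4 (by norm_num) (by decide)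
  obtain ⟨z5, h5⟩ := hz 5 (by norm_num)
  obtain ⟨z6, h6⟩ := hz2 6 (by norm_num) (by decide)
  obtain ⟨z7, h7⟩ := hz 7 (by norm_num)
  rw [e] at h1 h2 h3 h4 h5 h6 h7
  simp only [sum_range_succ, sum_range_zero, c0] at h1 h2 h3 h4 h5 h6 h7
  push_cast at h1 h2 h3 h4 h5 h6 h7
  refine ⟨(-5866) * z1 + (15624) * z2 + (-7315) * z3 + (9352) * z4 + (-1946) * z5 + (952) * z6 + (-52) * z7, ?_⟩
  push_cast
  linarith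

theorem lat7 {V : ℚ[X]} (hn : V.natDegree = 7) (h0 : V.eval 0 = 0)
    (hz : ∀ t : ℕ, t ≤ 8 → ∃ z : ℤ, ((t : ℚ) + 1) ^ 2 * V.eval (t : ℚ) = z)
    (hz2 : ∀ t : ℕ, t ≤ 8 → Even t → ∃ z : ℤ, ((t : ℚ) + 1) ^ 2 * V.eval (t : ℚ) = 2 * z) :
    ∃ m : ℤ, V.coeff 7 * 60480 = m := by
  have e : ∀ x : ℚ, V.eval x = ∑ i ∈ range (7 + 1), V.coeff i * x ^ i := fun x =>
    eval_eq_sum_range' (by omega) x
  have c0 : V.coeff 0 = 0 := by rw [coeff_zero_eq_eval_zero, h0]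
  obtain ⟨z1, h1⟩ := hz 1 (by norm_num)
  obtain ⟨z2, h2⟩ := hz2 2 (by norm_num) (by decide)
  obtain ⟨z3, h3⟩ := hz 3 (by norm_num)
  obtain ⟨z4, h4⟩ := hz2 4 (by norm_num) (by decide)
  obtain ⟨z5, h5⟩ := hz 5 (by norm_num)
  obtain ⟨z6, h6⟩ := hz2 6 (by norm_num) (by decide)
  obtain ⟨z7, h7⟩ := hz 7 (by norm_num)
  obtain ⟨z8, h8⟩ := hz2 8 (by norm_num) (by decide)
  rw [e] at h1 h2 h3 h4 h5 h6 h7 h8
  simp only [sum_range_succ, sum_range_zero, c0] at h1 h2 h3 h4 h5 h6 h7 h8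
  push_cast at h1 h2 h3 h4 h5 h6 h7 h8
  refine ⟨(7554) * z1 + (-23492) * z2 + (13209) * z3 + (-21126) * z4 + (5866) * z5 + (-4308) * z6 + (471) * z7 + (-93) * z8, ?_⟩
  push_cast
  linarith

theorem lat4b {V : ℚ[X]} (hn : V.natDegree = 4) (h0 : V.eval 0 = 0)
    (hz : ∀ t : ℕ, t ≤ 5 → ∃ z : ℤ, ((t : ℚ) + 1) ^ 2 * V.eval (t : ℚ) = z)
    (hz2 : ∀ t : ℕ, t ≤ 5 → Even t → ∃ z : ℤ, ((t : ℚ) + 1) ^ 2 * V.eval (t : ℚ) = 2 * z) :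
    ∃ m : ℤ, (V.coeff 3 + 11 * V.coeff 4) * 12 = m := by
  have e : ∀ x : ℚ, V.eval x = ∑ i ∈ range (4 + 1), V.coeff i * x ^ i := fun x =>
    eval_eq_sum_range' (by omega) x
  have c0 : V.coeff 0 = 0 := by rw [coeff_zero_eq_eval_zero, h0]
  obtain ⟨z1, h1⟩ := hz 1 (by norm_num)
  obtain ⟨z2, h2⟩ := hz2 2 (by norm_num) (by decide)
  obtain ⟨z3, h3⟩ := hz 3 (by norm_num)
  obtain ⟨z4, h4⟩ := hz2 4 (by norm_num) (by decide)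
  obtain ⟨z5, h5⟩ := hz 5 (by norm_num)
  rw [e] at h1 h2 h3 h4 h5
  simp only [sum_range_succ, sum_range_zero, c0] at h1 h2 h3 h4 h5
  push_cast at h1 h2 h3 h4 h5
  refine ⟨(134) * z1 + (-238) * z2 + (67) * z3 + (-43) * z4 + (3) * z5, ?_⟩
  push_cast
  linarith

theorem lat6b {V : ℚ[X]} (hn : V.natDegree = 6) (h0 : V.eval 0 = 0)
    (hz : ∀ t : ℕ, t ≤ 7 → ∃ z : ℤ, ((t : ℚ) + 1) ^ 2 * V.eval (t : ℚ) = z)
    (hz2 : ∀ t : ℕ, t ≤ 7 → Even t → ∃ z : ℤ, ((t : ℚ) + 1) ^ 2 * V.eval (t : ℚ) = 2 * z) :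
    ∃ m : ℤ, (V.coeff 5 + 22 * V.coeff 6) * 720 = m := by
  have e : ∀ x : ℚ, V.eval x = ∑ i ∈ range (6 + 1), V.coeff i * x ^ i := fun x =>
    eval_eq_sum_range' (by omega) x
  have c0 : V.coeff 0 = 0 := by rw [coeff_zero_eq_eval_zero, h0]
  obtain ⟨z1, h1⟩ := hz 1 (by norm_num)
  obtain ⟨z2, h2⟩ := hz2 2 (by norm_num) (by decide)
  obtain ⟨z3, h3⟩ := hz 3 (by norm_num)
  obtain ⟨z4, h4⟩ := hz2 4 (by norm_num) (by decide)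
  obtain ⟨z5, h5⟩ := hz 5 (by norm_num)
  obtain ⟨z6, h6⟩ := hz2 6 (by norm_num) (by decide)
  obtain ⟨z7, h7⟩ := hz 7 (by norm_num)
  rw [e] at h1 h2 h3 h4 h5 h6 h7
  simp only [sum_range_succ, sum_range_zero, c0] at h1 h2 h3 h4 h5 h6 h7
  push_cast at h1 h2 h3 h4 h5 h6 h7
  refine ⟨(1677) * z1 + (-4470) * z2 + (2095) * z3 + (-2682) * z4 + (559) * z5 + (-274) * z6 + (15) * z7, ?_⟩
  push_cast
  linarith

end Pool.Agent.K9h7.SH
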