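import Pool.Agent.K9h7.SH.Small

/-!
# There is no extremal curve
-/

set_option autoImplicit false

open Finset Polynomial

namespace Pool.Agent.K9h7.SH

open Pool.Agent.K9h7.SG

theorem exp_large (n : ℕ) (hn : 10 ≤ n) : (n : ℝ) ^ 2 + 1 < Real.exp (n / 2) := by
  obtain ⟨m, rfl⟩ : ∃ m, n = m + 10 := ⟨n - 10, by omega⟩
  have h1 : (148 : ℝ) < Real.exp 5 := by
    have h2 := Real.exp_one_gt_d9
    have h3 : Real.exp 5 = Real.exp 1 ^ 5 := by
      rw [← Real.exp_nat_mul]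
      norm_num
    rw [h3]
    have h4 : (2.7182818283 : ℝ) ^ 5 ≤ Real.exp 1 ^ 5 := pow_le_pow_left₀ (by norm_num) h2.le 5
    have h5 : (148 : ℝ) < (2.7182818283 : ℝ) ^ 5 := by norm_num
    linarith
  have h2 := Real.quadratic_le_exp_of_nonneg (x := (m : ℝ) / 2) (by positivity)
  have h3 : Real.exp (((m + 10 : ℕ) : ℝ) / 2) = Real.exp 5 * Real.exp ((m : ℝ) / 2) := by
    rw [← Real.exp_add]
    congr 1
    push_cast
    ring
  rw [h3]
  have hm : (0 : ℝ) ≤ m := Nat.cast_nonneg _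
  have h4 : (148 : ℝ) * (1 + m / 2 + (m / 2) ^ 2 / 2) ≤ Real.exp 5 * Real.exp ((m : ℝ) / 2) :=
    mul_le_mul h1.le h2 (by positivity) (by positivity)
  push_cast
  nlinarith

variable {R : ℕ} {ν : ℝ} {δ : ℕ} {M : ℕ → ℕ → ℕ} {V : ℚ[X]}

theorem Tab.noBig (h : Tab R ν δ M V) (hR : 30 ≤ R) (hc : Cond R ν)
    (hδ : 30 * (δ : ℝ) ≤ R * (R - ν)) : V.natDegree < 10 := by
  by_contra hcon
  push Not at hcon
  obtain ⟨n, hn⟩ : ∃ n, V.natDegree = n := ⟨_, rfl⟩
  rw [hn] at hcon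
  have hdeg := h.deg
  rw [hn] at hdeg
  have hRr : (30 : ℝ) ≤ R := by exact_mod_cast hR
  have hn10 : (10 : ℝ) ≤ n := by exact_mod_cast hcon
  have hlog : ν ≤ 1 + Real.log R := hc.le.trans (harmonic_le_one_add_log R)
  have hRn : n ^ 2 + 2 ≤ R := by
    by_contra hlt
    have h1 : (R : ℝ) ≤ (n : ℝ) ^ 2 + 1 := by exact_mod_cast (by omega : R ≤ n ^ 2 + 1)
    have h2 := exp_large n hcon
    have h3 : Real.log R < n / 2 := by
      rw [Real.log_lt_iff_lt_exp (by linarith)]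
      linarith
    linarith
  set s := (R - 2) / n ^ 2 with hs
  have hn2 : 0 < n ^ 2 := by positivity
  have hs1 : 1 ≤ s := by
    rw [hs, Nat.le_div_iff_mul_le hn2]
    omega
  have hsR : s * n ^ 2 ≤ R - 2 := Nat.div_mul_le_self _ _
  have hsR' : R - 2 < n ^ 2 * (s + 1) := Nat.lt_mul_div_succ _ hn2
  have hnn : n + 4 ≤ n ^ 2 + 2 := by nlinarith
  have hk := kill_big (V := V) (δ := δ) hn (by omega) hs1 h.zero (h.bd (T := s * n ^ 2) (by omega))
    (h.int (T := n + 2) (by omega))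
  have hk' : 2 * (s : ℝ) ^ n * (n.factorial : ℝ) ≤ n * (n + 1) * (n + 2) * δ := by
    have h1 := (Rat.cast_le (K := ℝ)).2 hk
    push_cast at h1
    exact h1
  have hsr : (1 : ℝ) ≤ s := by exact_mod_cast hs1
  have h1 : (R : ℝ) - 2 ≤ 2 * n ^ 2 * s := by
    have h2 : ((R - 2 : ℕ) : ℝ) ≤ ((n ^ 2 * (s + 1) : ℕ) : ℝ) := by exact_mod_cast hsR'.le
    rw [Nat.cast_sub (by omega)] at h2
    push_cast at h2
    have h3 : (0 : ℝ) ≤ (n : ℝ) ^ 2 := by positivity
    nlinarith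
  have h2 : 30 * (δ : ℝ) ≤ 4 * (n : ℝ) ^ 4 * s ^ 2 := by
    have h3 : (R : ℝ) * (R - ν) ≤ ((R : ℝ) - 2) ^ 2 := by nlinarith
    have h4 : ((R : ℝ) - 2) ^ 2 ≤ (2 * n ^ 2 * s) ^ 2 := pow_le_pow_left₀ (by linarith) h1 2
    calc 30 * (δ : ℝ) ≤ (2 * n ^ 2 * s) ^ 2 := by linarith
      _ = _ := by ring
  have h3 : 15 * (s : ℝ) ^ n * (n.factorial : ℝ) ≤ ((n : ℝ) ^ 5 * (n + 1) * (n + 2)) * s ^ 2 := by
    have h4 : (n : ℝ) * (n + 1) * (n + 2) * (30 * δ) ≤
        n * (n + 1) * (n + 2) * (4 * (n : ℝ) ^ 4 * s ^ 2) :=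
      mul_le_mul_of_nonneg_left h2 (by positivity)
    nlinarith
  have h4 : ((n : ℝ) ^ 5 * (n + 1) * (n + 2)) < 15 * n.factorial := by
    exact_mod_cast fact_large n hcon
  have h5 : ((n : ℝ) ^ 5 * (n + 1) * (n + 2)) * s ^ 2 < (15 * n.factorial) * s ^ 2 :=
    mul_lt_mul_of_pos_right h4 (by positivity)
  have h6 : (s : ℝ) ^ 2 ≤ s ^ n := pow_le_pow_right₀ hsr (by omega)
  have h7 : (15 * (n.factorial : ℝ)) * s ^ 2 ≤ (15 * n.factorial) * s ^ n :=
    mul_le_mul_of_nonneg_left h6 (by positivity)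
  linarith

/-- The inequality for the lines if `V` is linear. -/
theorem Tab.low (h : Tab R ν δ M V) (hV : V.natDegree ≤ 1) (hR : 3 ≤ R) {m : ℕ} (hm : m + 1 ≤ R) :
    (2 + (m : ℝ)) * (24 * (R - 2)) - m * (m + 1) * (2 * m + 1) ≤ 48 * (R - 2) * ν := by
  have hδ : (0 : ℝ) < δ := by exact_mod_cast h.pos
  have e : ∀ x : ℚ, V.eval x = V.coeff 1 * x := by
    intro x
    have c0 : V.coeff 0 = 0 := by rw [coeff_zero_eq_eval_zero, h.zero]
    rw [eval_eq_sum_range' (by omega : V.natDegree < 2) x, sum_range_succ, sum_range_succ,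
      sum_range_zero, c0]
    ring
  set c := V.coeff 1 with hc
  have hc0 : 0 ≤ c := by
    have h1 := h.nonneg (t := 1) (by omega)
    rw [e] at h1
    simpa using h1
  have hcR : c * (R - 2) ≤ δ / 4 := by
    have h1 := h.le (t := R - 2) (by omega)
    rw [e, Nat.cast_sub (by omega)] at h1
    simpa using h1
  have hend : ∀ k, 2 ≤ k → k ≤ R → (δ : ℚ) - ((k : ℚ) - 1) ^ 2 * c ≤ (M k 0 : ℚ) + M k (k - 1) := by
    intro k hk hkR
    obtain ⟨t, rfl⟩ : ∃ t, k = t + 2 := ⟨k - 2, by omega⟩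
    rcases Nat.eq_zero_or_pos t with rfl | ht
    · have h1 := h.sum 2 (by omega) hkR
      rw [sum_range_succ, sum_range_succ, sum_range_zero, zero_add] at h1
      have h2 : (M 2 0 : ℚ) + M 2 1 = δ := by exact_mod_cast h1
      show (δ : ℚ) - (((0 + 2 : ℕ) : ℚ) - 1) ^ 2 * c ≤ (M 2 0 : ℚ) + M 2 1
      rw [h2]
      push_cast
      linarith
    · have h1 := h.ends hkR
      have h2 := h.val t hkR
      rw [e] at h2
      have ht0 : (0 : ℚ) < t := by exact_mod_cast ht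
      rw [← h2] at h1
      have h3 : (t : ℚ) * (δ - (t + 1) ^ 2 * c) ≤ t * ((M (t + 2) 0 : ℚ) + M (t + 2) (t + 1)) := by
        linarith
      have h4 := le_of_mul_le_mul_left h3 ht0
      show (δ : ℚ) - (((t + 2 : ℕ) : ℚ) - 1) ^ 2 * c ≤ (M (t + 2) 0 : ℚ) + M (t + 2) (t + 1)
      push_cast
      calc (δ : ℚ) - ((t : ℚ) + 2 - 1) ^ 2 * c = δ - (t + 1) ^ 2 * c := by ring
        _ ≤ _ := h4
  have hcr : (0 : ℝ) ≤ (c : ℝ) := by exact_mod_cast hc0
  have hcRr : (c : ℝ) * (R - 2) ≤ δ / 4 := by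
    have := (Rat.cast_le (K := ℝ)).2 hcR
    push_cast at this
    exact this
  have hendr : ∀ k, 2 ≤ k → k ≤ R → (δ : ℝ) - ((k : ℝ) - 1) ^ 2 * c ≤ (M k 0 : ℝ) + M k (k - 1) := by
    intro k hk hkR
    have := (Rat.cast_le (K := ℝ)).2 (hend k hk hkR)
    push_cast at this
    exact this
  have hsum : ∀ m : ℕ, m + 1 ≤ R → (2 + (m : ℝ)) * δ - c * (m * (m + 1) * (2 * m + 1) / 6) ≤
      ∑ k ∈ Icc 1 (m + 1), ((M k 0 : ℝ) + M k (k - 1)) := by
    intro m
    induction m with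
    | zero =>
      intro _
      rw [Icc_self, sum_singleton]
      have h1 : (M 1 0 : ℝ) = δ := by exact_mod_cast h.mem_one (by omega)
      show (2 + ((0 : ℕ) : ℝ)) * δ - c * (((0 : ℕ) : ℝ) * (((0 : ℕ) : ℝ) + 1) *
        (2 * ((0 : ℕ) : ℝ) + 1) / 6) ≤ (M 1 0 : ℝ) + M 1 0
      rw [h1]
      push_cast
      linarith
    | succ m ih =>
      intro hm'
      rw [Finset.sum_Icc_succ_top (by omega)]
      have h1 := ih (by omega)
      have h2 := hendr (m + 1 + 1) (by omega) hm'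
      push_cast at h2 ⊢
      have e1 : (2 + ((m : ℝ) + 1)) * δ - c * (((m : ℝ) + 1) * ((m : ℝ) + 1 + 1) *
          (2 * ((m : ℝ) + 1) + 1) / 6) = ((2 + (m : ℝ)) * δ - c * (m * (m + 1) * (2 * m + 1) / 6)) +
          (δ - ((m : ℝ) + 1 + 1 - 1) ^ 2 * c) := by ring
      rw [e1]
      exact add_le_add h1 h2
  have h1 := hsum m hm
  have h2 : ∑ k ∈ Icc 1 (m + 1), ((M k 0 : ℝ) + M k (k - 1)) ≤ 2 * ν * δ := by
    refine le_trans ?_ h.lines
    refine Finset.sum_le_sum_of_subset_of_nonneg (Finset.Icc_subset_Icc_right hm) ?_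
    intro k _ _
    positivity
  have hR2 : (0 : ℝ) < (R : ℝ) - 2 := by
    have : (3 : ℝ) ≤ R := by exact_mod_cast hR
    linarith
  have h3 : (c : ℝ) * (R - 2) * (m * (m + 1) * (2 * m + 1) / 6) ≤
      δ / 4 * (m * (m + 1) * (2 * m + 1) / 6) := mul_le_mul_of_nonneg_right hcRr (by positivity)
  have h4 : ((2 + (m : ℝ)) * δ - c * (m * (m + 1) * (2 * m + 1) / 6)) * (24 * (R - 2)) ≤
      2 * ν * δ * (24 * (R - 2)) := mul_le_mul_of_nonneg_right (h1.trans h2) (by positivity)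
  have h5 : ((2 + (m : ℝ)) * (24 * (R - 2)) - m * (m + 1) * (2 * m + 1)) * δ ≤
      (48 * (R - 2) * ν) * δ := by nlinarith
  exact le_of_mul_le_mul_right h5 hδ

theorem log_le_of_lt {R t : ℕ} (hR : 1 ≤ R) (h : R ≤ 2 ^ t) : Real.log R ≤ t * Real.log 2 := by
  have h0 : (0 : ℝ) < R := by exact_mod_cast hR
  have h1 : (R : ℝ) ≤ (2 : ℝ) ^ t := by exact_mod_cast h
  have h2 := Real.log_le_log h0 h1
  rwa [Real.log_pow] at h2

theorem Tab.false_small (h : Tab R ν δ M V) (hR : 30 ≤ R) (hc : Cond R ν)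
    (hδ : 30 * (δ : ℝ) ≤ R * (R - ν)) : False := by
  have hV : V.natDegree ≤ 1 := by
    have h1 := h.noBig hR hc hδ
    have h2 := h.no2 hR hc hδ
    have h3 := h.no3 hR hc hδ
    have h4 := h.no4 hR hc hδ
    have h5 := h.no5 hR hc hδ
    have h6 := h.no6 hR hc hδ
    have h7 := h.no7 hR hc hδ
    have h8 := h.no8 hR hc hδ
    have h9 := h.no9 hR hc hδ
    omega
  have hlog2 := Real.log_two_lt_d9
  have hle := hc.le.trans (harmonic_le_one_add_log R)
  rcases Nat.lt_or_ge R 40 with h40 | h40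
  · have h1 := h.low hV (by omega) (m := 7) (by omega)
    have h2 := hc.gap (by omega) (by omega : R ≤ 39) (by norm_num)
    have h3 : ((harmonic 39 - 30 / ((39 : ℕ) : ℚ) : ℚ) : ℝ) < ((7 / 2 : ℚ) : ℝ) := by
      exact_mod_cast g39
    have h4 : (30 : ℝ) ≤ R := by exact_mod_cast hR
    push_cast at h1 h2 h3
    nlinarith
  rcases Nat.lt_or_ge R 64 with h64 | h64
  · have h1 := h.low hV (by omega) (m := 8) (by omega)
    have h2 := hc.gap (by omega) (by omega : R ≤ 63) (by norm_num)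
    have h3 : ((harmonic 63 - 30 / ((63 : ℕ) : ℚ) : ℚ) : ℝ) < ((43 / 10 : ℚ) : ℝ) := by
      exact_mod_cast g63
    have h4 : (40 : ℝ) ≤ R := by exact_mod_cast h40
    push_cast at h1 h2 h3
    nlinarith
  rcases Nat.lt_or_ge R 128 with h128 | h128
  · have h1 := h.low hV (by omega) (m := 12) (by omega)
    have h2 := hc.gap (by omega) (by omega : R ≤ 127) (by norm_num)
    have h3 : ((harmonic 127 - 30 / ((127 : ℕ) : ℚ) : ℚ) : ℝ) < ((52 / 10 : ℚ) : ℝ) := by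
      exact_mod_cast g127
    have h4 : (64 : ℝ) ≤ R := by exact_mod_cast h64
    push_cast at h1 h2 h3
    nlinarith
  rcases Nat.lt_or_ge R 512 with h512 | h512
  · have h1 := h.low hV (by omega) (m := 16) (by omega)
    have h2 := log_le_of_lt (R := R) (t := 9) (by omega) (by omega)
    have h4 : (128 : ℝ) ≤ R := by exact_mod_cast h128
    push_cast at h1 h2
    have h5 : ν ≤ 7.24 := by linarith
    nlinarith
  rcases Nat.lt_or_ge R 4096 with h4096 | h4096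
  · have h1 := h.low hV (by omega) (m := 22) (by omega)
    have h2 := log_le_of_lt (R := R) (t := 12) (by omega) (by omega)
    have h4 : (512 : ℝ) ≤ R := by exact_mod_cast h512
    push_cast at h1 h2
    have h5 : ν ≤ 9.32 := by linarith
    nlinarith
  · set m := Nat.sqrt R with hm
    have hm1 : m * m ≤ R := Nat.sqrt_le R
    have hm2 : R < (m + 1) * (m + 1) := Nat.lt_succ_sqrt R
    have hm64 : 64 ≤ m := by
      rw [hm, Nat.le_sqrt]
      omega
    have h1 := h.low hV (by omega) (m := m) (by nlinarith)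
    have hmr : (64 : ℝ) ≤ m := by exact_mod_cast hm64
    have hm1r : (m : ℝ) * m ≤ R := by exact_mod_cast hm1
    have hm2r : (R : ℝ) ≤ ((m : ℝ) + 1) * (m + 1) := by exact_mod_cast hm2.le
    have hR0 : (0 : ℝ) < R := by exact_mod_cast (by omega : 0 < R)
    have h2 : Real.log R ≤ 2 * Real.log ((m : ℝ) + 1) := by
      have h3 := Real.log_le_log hR0 hm2r
      rw [Real.log_mul (by positivity) (by positivity)] at h3
      linarith
    have h3 : Real.log ((m : ℝ) + 1) ≤ ((m : ℝ) + 1) / 8 - 1 + 2.08 := by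
      have h4 := Real.log_le_sub_one_of_pos (x := ((m : ℝ) + 1) / 8) (by positivity)
      rw [Real.log_div (by positivity) (by norm_num)] at h4
      have h5 : Real.log 8 = 3 * Real.log 2 := by
        rw [show (8 : ℝ) = 2 ^ 3 by norm_num, Real.log_pow]
        norm_num
      linarith
    have hL : (0 : ℝ) < (R : ℝ) - 2 := by nlinarith
    have h4 : (m : ℝ) * (m + 1) * (2 * m + 1) ≤ 3 * m * (R - 2) := by
      have h5 : (m + 1 : ℝ) * (2 * m + 1) ≤ 3 * (R - 2) := by nlinarith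
      calc (m : ℝ) * (m + 1) * (2 * m + 1) = m * ((m + 1) * (2 * m + 1)) := by ring
        _ ≤ m * (3 * (R - 2)) := mul_le_mul_of_nonneg_left h5 (by linarith)
        _ = _ := by ring
    have h5 : (48 + 21 * (m : ℝ)) * (R - 2) ≤ (48 * ν) * (R - 2) := by nlinarith
    have h6 := le_of_mul_le_mul_right h5 hL
    linarith

/-- In the third row less than a quarter of the mass is in the middle. -/
theorem Tab.row_three (h : Tab R ν δ M V) (hR : 4900 ≤ R) (hν : ν ≤ 1 + Real.log R) :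
    4 * (M 3 1 : ℝ) ≤ δ := by
  have hRr : (4900 : ℝ) ≤ R := by exact_mod_cast hR
  have hδ : (0 : ℚ) < δ := by exact_mod_cast h.pos
  obtain ⟨n, hn⟩ : ∃ n, V.natDegree = n := ⟨_, rfl⟩
  have hdeg := h.deg
  rw [hn] at hdeg
  -- `16 n² ≤ R - 2`
  have h16 : 16 * n ^ 2 + 2 ≤ R := by
    set y := Real.sqrt R with hy
    have hyR : y ^ 2 = R := Real.sq_sqrt (by linarith)
    have hy0 : 0 < y := Real.sqrt_pos.2 (by linarith)
    have hy70 : 70 ≤ y := by
      by_contra hcon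
      push Not at hcon
      nlinarith
    have h1 : Real.log R = 2 * Real.log y := by
      rw [← hyR, Real.log_pow]
      norm_num
    have h2 : Real.log y ≤ y / 64 - 1 + 4.158885 := by
      have h4 := Real.log_le_sub_one_of_pos (x := y / 64) (by positivity)
      rw [Real.log_div (by positivity) (by norm_num)] at h4
      have h5 : Real.log 64 = 6 * Real.log 2 := by
        rw [show (64 : ℝ) = 2 ^ 6 by norm_num, Real.log_pow]
        norm_num
      have h6 := Real.log_two_lt_d9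
      linarith
    have h3 : (n : ℝ) ≤ y / 16 + 12.63554 := by linarith
    have h4 : (4 * (n : ℝ)) ^ 2 ≤ (y / 4 + 50.54216) ^ 2 :=
      pow_le_pow_left₀ (by positivity) (by linarith) 2
    have h5 : (y / 4 + 50.54216) ^ 2 ≤ (R : ℝ) - 2 := by
      rw [← hyR]
      nlinarith
    have h6 : ((16 * n ^ 2 + 2 : ℕ) : ℝ) ≤ (R : ℝ) := by
      push_cast
      nlinarith
    exact_mod_cast h6
  set Q : ℚ[X] := C (4 / (δ : ℚ)) * V.comp (C 16 * X) with hQ
  have hQd : Q.natDegree ≤ n := by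
    refine (natDegree_C_mul_le _ _).trans (natDegree_comp_le.trans ?_)
    have h1 : (C (16 : ℚ) * X).natDegree ≤ 1 := (natDegree_C_mul_le _ _).trans natDegree_X_le
    calc V.natDegree * (C (16 : ℚ) * X).natDegree ≤ V.natDegree * 1 := Nat.mul_le_mul_left _ h1
      _ ≤ n := by omega
  have hQe : ∀ y : ℚ, Q.eval y = 4 / δ * V.eval (16 * y) := by
    intro y
    rw [hQ, eval_mul, eval_C, eval_comp, eval_mul, eval_C, eval_X]
  have hQ0 : Q.eval 0 = 0 := by
    rw [hQe, mul_zero, h.zero, mul_zero]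
  have hQ1 : ∀ j : ℕ, 1 ≤ j → j ≤ n → |Q.eval ((j : ℚ) ^ 2)| ≤ 1 := by
    intro j _ hj
    have hjR : 16 * j ^ 2 + 2 ≤ R := by
      have : 16 * j ^ 2 ≤ 16 * n ^ 2 := Nat.mul_le_mul_left _ (Nat.pow_le_pow_left hj 2)
      omega
    have h1 := h.nonneg hjR
    have h2 := h.le hjR
    push_cast at h1 h2
    rw [hQe, abs_of_nonneg (by positivity)]
    calc 4 / (δ : ℚ) * V.eval (16 * (j : ℚ) ^ 2) ≤ 4 / δ * (δ / 4) :=
          mul_le_mul_of_nonneg_left h2 (by positivity)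
      _ = 1 := by field_simp
  have hmain := square_nodes Q n hQd hQ0 hQ1 (y := 1 / 16) (by norm_num) (by norm_num)
  have hmain' := (le_abs_self _).trans hmain
  rw [hQe] at hmain'
  norm_num at hmain'
  have h1 := h.val 1 (by omega)
  have h2 : Zt M 1 = M 3 1 := by
    unfold Zt
    rw [sum_range_succ, sum_range_succ, sum_range_succ, sum_range_zero]
    simp
  rw [h2] at h1
  push_cast at h1
  have h3 : V.eval 1 ≤ δ / 16 := by
    have h4 : (δ : ℚ) / 4 * (4 / δ * V.eval 1) = V.eval 1 := by field_simp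
    rw [← h4]
    calc (δ : ℚ) / 4 * (4 / δ * V.eval 1) ≤ δ / 4 * (1 / 4) :=
          mul_le_mul_of_nonneg_left hmain' (by positivity)
      _ = δ / 16 := by ring
  have h4 : 4 * (M 3 1 : ℚ) ≤ δ := by linarith
  exact_mod_cast h4

theorem sum_sq_row (h : Tab R ν δ M V) {k : ℕ} (hk : 1 ≤ k) (hkR : k ≤ R) :
    (δ : ℝ) ^ 2 / k ≤ ∑ i ∈ range k, (M k i : ℝ) ^ 2 := by
  have h1 := sq_sum_le_card_mul_sum_sq (s := range k) (f := fun i => (M k i : ℝ))
  rw [card_range] at h1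
  have h2 : ∑ i ∈ range k, (M k i : ℝ) = δ := by exact_mod_cast h.sum k hk hkR
  rw [h2] at h1
  have h3 : (0 : ℝ) < k := by exact_mod_cast hk
  rw [div_le_iff₀ h3]
  linarith

theorem harmonic_eq (R : ℕ) : ((harmonic R : ℚ) : ℝ) = ∑ k ∈ Icc 1 R, (1 : ℝ) / k := by
  rw [harmonic_eq_sum_Icc]
  push_cast
  exact Finset.sum_congr rfl fun k _ => by rw [one_div]

/-- the adjunction inequality and Cauchy's inequality -/
theorem Tab.adj' (h : Tab R ν δ M V) : (δ : ℝ) * ((harmonic R : ℚ) - ν) ≤ R - ν := by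
  have hδ : (0 : ℝ) < δ := by exact_mod_cast h.pos
  have h1 : (δ : ℝ) ^ 2 * ((harmonic R : ℚ) : ℝ) ≤
      ∑ k ∈ Icc 1 R, ∑ i ∈ range k, (M k i : ℝ) ^ 2 := by
    rw [harmonic_eq, Finset.mul_sum]
    refine Finset.sum_le_sum fun k hk => ?_
    rw [mem_Icc] at hk
    calc (δ : ℝ) ^ 2 * (1 / k) = δ ^ 2 / k := by ring
      _ ≤ _ := sum_sq_row h hk.1 hk.2
  have h2 := h1.trans h.adj
  have h3 : (δ * ((harmonic R : ℚ) - ν)) * (δ : ℝ) ≤ (R - ν) * δ := by linarith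
  exact le_of_mul_le_mul_right h3 hδ

theorem Tab.false_large (h : Tab R ν δ M V) (hR : 4900 ≤ R) (hν : ν < ((harmonic R : ℚ) : ℝ))
    (hδ : R * (R - ν) < 30 * (δ : ℝ)) : False := by
  have hδ0 : (0 : ℝ) < δ := by exact_mod_cast h.pos
  have h3 := h.row_three hR (hν.le.trans (harmonic_le_one_add_log R))
  have hRr : (4900 : ℝ) ≤ R := by exact_mod_cast hR
  have h1 : (δ : ℝ) ^ 2 * ((harmonic R : ℚ) : ℝ) + δ ^ 2 / 96 ≤
      ∑ k ∈ Icc 1 R, ∑ i ∈ range k, (M k i : ℝ) ^ 2 := by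
    have hmem : 3 ∈ Icc 1 R := by rw [mem_Icc]; omega
    rw [harmonic_eq, Finset.mul_sum, ← Finset.add_sum_erase _ _ hmem,
      ← Finset.add_sum_erase _ (fun k => ∑ i ∈ range k, (M k i : ℝ) ^ 2) hmem]
    have h4 : ∑ k ∈ (Icc 1 R).erase 3, (δ : ℝ) ^ 2 * (1 / k) ≤
        ∑ k ∈ (Icc 1 R).erase 3, ∑ i ∈ range k, (M k i : ℝ) ^ 2 := by
      refine Finset.sum_le_sum fun k hk => ?_
      rw [mem_erase, mem_Icc] at hk
      calc (δ : ℝ) ^ 2 * (1 / k) = δ ^ 2 / k := by ring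
        _ ≤ _ := sum_sq_row h hk.2.1 hk.2.2
    have h5 : (δ : ℝ) ^ 2 * (1 / ((3 : ℕ) : ℝ)) + δ ^ 2 / 96 ≤ ∑ i ∈ range 3, (M 3 i : ℝ) ^ 2 := by
      have h6 : (M 3 0 : ℝ) + M 3 1 + M 3 2 = δ := by
        have := h.sum 3 (by norm_num) (by omega)
        rw [sum_range_succ, sum_range_succ, sum_range_succ, sum_range_zero, zero_add] at this
        exact_mod_cast this
      rw [sum_range_succ, sum_range_succ, sum_range_succ, sum_range_zero, zero_add]
      push_cast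
      have h7 : (0 : ℝ) ≤ M 3 1 := Nat.cast_nonneg _
      nlinarith [sq_nonneg ((M 3 0 : ℝ) - M 3 2), mul_nonneg h7 (by linarith : (0 : ℝ) ≤ δ - 4 * M 3 1)]
    linarith
  have h2 := h1.trans h.adj
  have h4 : (δ * ((harmonic R : ℚ) - ν + 1 / 96)) * (δ : ℝ) ≤ (R - ν) * δ := by
    have e : (δ * ((harmonic R : ℚ) - ν + 1 / 96)) * (δ : ℝ) =
      (δ : ℝ) ^ 2 * ((harmonic R : ℚ) : ℝ) + δ ^ 2 / 96 - ν * δ ^ 2 := by ring
    rw [e]
    linarith
  have h5 := le_of_mul_le_mul_right h4 hδ0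
  have h6 : (δ : ℝ) ≤ 96 * (R - ν) := by nlinarith
  have h7 : 0 < (R : ℝ) - ν := by linarith
  nlinarith

theorem Tab.elim (h : Tab R ν δ M V) (hR : 30 ≤ R) (hc : Cond R ν) : False := by
  have hRr : (30 : ℝ) ≤ R := by exact_mod_cast hR
  rcases le_or_gt (30 * (δ : ℝ)) (R * (R - ν)) with h1 | h1
  · exact h.false_small hR hc h1
  rcases hc with hc | ⟨hc1, hc2⟩
  · have h2 := h.adj'
    have hδ0 : (0 : ℝ) < δ := by exact_mod_cast h.pos
    have h3 : (30 : ℝ) / R ≤ (harmonic R : ℚ) - ν := by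
      push_cast at hc
      linarith
    have h4 : (δ : ℝ) * (30 / R) ≤ R - ν := (mul_le_mul_of_nonneg_left h3 hδ0.le).trans h2
    have h5 : (δ : ℝ) * (30 / R) * R ≤ (R - ν) * R := mul_le_mul_of_nonneg_right h4 (by linarith)
    have h6 : (δ : ℝ) * (30 / R) * R = 30 * δ := by
      field_simp
    linarith
  · exact h.false_large hc1 hc2 h1

end Pool.Agent.K9h7.SH
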