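import Pool.Agent.K9h7.SH.Cert
import Pool.Agent.K9h7.SH.Final

/-!
# There is no extremal curve with at least 80 rows
-/

set_option autoImplicit false

open Finset Polynomial

namespace Pool.Agent.K9h7.SH

open Pool.Agent.K9h7.SG

variable {R : ℕ} {ν : ℝ} {δ : ℕ} {M : ℕ → ℕ → ℕ} {V : ℚ[X]}

theorem concl2 {n : ℕ} (hn : 1 ≤ n) {y y0 b C : ℝ} (hy0 : 0 < y0) (hy : y0 ≤ y) (hb : 0 ≤ b)
    (hC : 0 ≤ C) (h1 : y ^ n ≤ C * (y + b)) (h2 : C * (y0 + b) < y0 ^ n) : False := by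
  obtain ⟨m, rfl⟩ : ∃ m, n = m + 1 := ⟨n - 1, by omega⟩
  have hy1 : 0 < y := by linarith
  have e2 : (y + b) * y0 ≤ (y0 + b) * y := by nlinarith
  have e4 : y ^ (m + 1) * y0 ≤ C * (y0 + b) * y := by
    calc y ^ (m + 1) * y0 ≤ C * (y + b) * y0 := mul_le_mul_of_nonneg_right h1 (by positivity)
      _ = C * ((y + b) * y0) := by ring
      _ ≤ C * ((y0 + b) * y) := mul_le_mul_of_nonneg_left e2 hC
      _ = _ := by ring
  have e5 : C * (y0 + b) * y < y0 ^ (m + 1) * y := mul_lt_mul_of_pos_right h2 (by positivity)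
  have e6 : y0 ^ m ≤ y ^ m := pow_le_pow_left₀ hy0.le hy m
  have e7 : y0 ^ (m + 1) * y ≤ y ^ (m + 1) * y0 := by
    have : y0 ^ (m + 1) * y = (y0 * y) * y0 ^ m := by ring
    rw [this]
    have : y ^ (m + 1) * y0 = (y0 * y) * y ^ m := by ring
    rw [this]
    exact mul_le_mul_of_nonneg_left e6 (by positivity)
  linarith

theorem Tab.delta (h : Tab R ν δ M V) (hν : ν < ((harmonic R : ℚ) : ℝ)) {e : ℚ}
    (he : e * (δ : ℚ) ^ 2 ≤ ∑ k ∈ Icc 1 R, ex M δ k) : (e : ℝ) * δ ≤ R - ν := by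
  have hδ : (0 : ℝ) < δ := by exact_mod_cast h.pos
  have h1 := (Rat.cast_le (K := ℝ)).2 he
  have h2 := h1.trans h.ex_le
  push_cast at h2
  have h3 : ((e : ℝ) * δ) * δ ≤ (R - ν) * δ := by
    have h4 : 0 ≤ (((harmonic R : ℚ) : ℝ) - ν) * (δ : ℝ) ^ 2 :=
      mul_nonneg (by linarith) (by positivity)
    push_cast at h4
    nlinarith
  exact le_of_mul_le_mul_right h3 hδ

/-- the integrality for `deg V = 2` -/
theorem int_lead2 {V : ℚ[X]} (hn : V.natDegree = 2) (h0 : V.eval 0 = 0)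
    (hz : ∀ t : ℕ, t ≤ 4 → ∃ z : ℤ, ((t : ℚ) + 1) ^ 2 * V.eval (t : ℚ) = z) :
    1 ≤ |V.coeff 2| * 12 := by
  have hV0 : V ≠ 0 := by
    rintro rfl
    rw [natDegree_zero] at hn
    omega
  have e : ∀ x : ℚ, V.eval x = ∑ i ∈ range (2 + 1), V.coeff i * x ^ i := fun x =>
    eval_eq_sum_range' (by omega) x
  have c0 : V.coeff 0 = 0 := by rw [coeff_zero_eq_eval_zero, h0]
  have hc2 : V.coeff 2 ≠ 0 := by
    rw [← hn]
    exact leadingCoeff_ne_zero.2 hV0
  obtain ⟨z1, h1⟩ := hz 1 (by norm_num)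
  obtain ⟨z2, h2⟩ := hz 2 (by norm_num)
  obtain ⟨z3, h3⟩ := hz 3 (by norm_num)
  rw [e] at h1 h2 h3
  simp only [sum_range_succ, sum_range_zero, c0] at h1 h2 h3
  push_cast at h1 h2 h3
  have h4 : V.coeff 2 * 12 = ((-15 * z1 + 6 * z2 - z3 : ℤ) : ℚ) := by
    push_cast
    linarith
  have h5 : (-15 * z1 + 6 * z2 - z3 : ℤ) ≠ 0 := by
    intro h
    rw [h, Int.cast_zero] at h4
    exact hc2 (by linarith)
  have h6 : (1 : ℚ) ≤ |((-15 * z1 + 6 * z2 - z3 : ℤ) : ℚ)| := by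
    exact_mod_cast Int.one_le_abs h5
  rw [← h4, abs_mul] at h6
  rwa [abs_of_nonneg (a := (12 : ℚ)) (by norm_num)] at h6

theorem kill2' {V : ℚ[X]} {δ h : ℕ} (hn : V.natDegree = 2) (h0 : V.eval 0 = 0)
    (hb : ∀ t : ℕ, t ≤ 2 * h → 0 ≤ V.eval (t : ℚ) ∧ V.eval (t : ℚ) ≤ δ / 4)
    (hz : ∀ t : ℕ, t ≤ 4 → ∃ z : ℤ, ((t : ℚ) + 1) ^ 2 * V.eval (t : ℚ) = z) :
    (h : ℚ) ^ 2 ≤ (3) * δ := by
  have e : ∀ x : ℚ, V.eval x = ∑ i ∈ range (2 + 1), V.coeff i * x ^ i := fun x =>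
    eval_eq_sum_range' (by omega) x
  have c0 : V.coeff 0 = 0 := by rw [coeff_zero_eq_eval_zero, h0]
  have key : V.coeff 2 * (h : ℚ) ^ 2 = (-1) * V.eval (((1 * h : ℕ)) : ℚ) +
      (1 / 2) * V.eval (((2 * h : ℕ)) : ℚ) := by
    rw [e, e]
    simp only [sum_range_succ, sum_range_zero, c0]
    push_cast
    ring
  have hi := int_lead2 hn h0 hz
  obtain ⟨p1, q1⟩ := hb (1 * h) (by omega)
  obtain ⟨p2, q2⟩ := hb (2 * h) (by omega)
  have hh : (0 : ℚ) ≤ (h : ℚ) ^ 2 := by positivity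
  have h1 : |V.coeff 2| * (h : ℚ) ^ 2 ≤ (1 / 4) * δ := by
    rw [← abs_of_nonneg hh, ← abs_mul, key, abs_le]
    constructor <;> linarith
  nlinarith

/-- the case of large degree -/
theorem Tab.bigcase (h : Tab R ν δ M V) (hν : ν < ((harmonic R : ℚ) : ℝ)) {n : ℕ} {e : ℚ}
    (hn : V.natDegree = n) (hn10 : 10 ≤ n) (hR : 2 * n ^ 2 + 2 ≤ R)
    (he : e * (δ : ℚ) ^ 2 ≤ ∑ k ∈ Icc 1 R, ex M δ k) (he0 : 0 < e)
    (hnum : (n : ℚ) ^ 3 * (n + 1) * (n + 2) < e * n.factorial * 2 ^ (n - 1)) : False := by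
  have hd := h.delta hν he
  have hn2 : 0 < n ^ 2 := by positivity
  set s := (R - 2) / n ^ 2 with hs
  have hs2 : 2 ≤ s := by
    rw [hs, Nat.le_div_iff_mul_le hn2]
    omega
  have hsR : s * n ^ 2 ≤ R - 2 := Nat.div_mul_le_self _ _
  have hsR' : R - 2 < n ^ 2 * (s + 1) := Nat.lt_mul_div_succ _ hn2
  have hnn : n + 4 ≤ 2 * n ^ 2 + 2 := by nlinarith
  have hk := kill_big (V := V) (δ := δ) hn (by omega) (by omega : 1 ≤ s) h.zero
    (h.bd (T := s * n ^ 2) (by omega)) (h.int (T := n + 2) (by omega))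
  have hk' : 2 * (s : ℝ) ^ n * (n.factorial : ℝ) ≤ n * (n + 1) * (n + 2) * δ := by
    have h1 := (Rat.cast_le (K := ℝ)).2 hk
    push_cast at h1
    exact h1
  have hsr : (2 : ℝ) ≤ s := by exact_mod_cast hs2
  have hRs : (R : ℝ) ≤ 2 * n ^ 2 * s := by
    have h2 : R ≤ n ^ 2 * (s + 1) + 1 := by omega
    have h3 : n ^ 2 * (s + 1) + 1 ≤ 2 * n ^ 2 * s := by nlinarith
    exact_mod_cast h2.trans h3
  have hν0 : 0 ≤ ν := by
    have h1 := h.deg
    have h2 : (0 : ℝ) ≤ V.natDegree := Nat.cast_nonneg _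
    linarith
  have her : (0 : ℝ) < e := by exact_mod_cast he0
  have hnum' : (n : ℝ) ^ 3 * (n + 1) * (n + 2) < e * n.factorial * 2 ^ (n - 1) := by
    have h1 := (Rat.cast_lt (K := ℝ)).2 hnum
    push_cast at h1
    exact h1
  have h1 : (e : ℝ) * (2 * (s : ℝ) ^ n * (n.factorial : ℝ)) ≤
      n * (n + 1) * (n + 2) * (2 * n ^ 2 * s) := by
    calc (e : ℝ) * (2 * (s : ℝ) ^ n * (n.factorial : ℝ)) ≤ e * (n * (n + 1) * (n + 2) * δ) :=
          mul_le_mul_of_nonneg_left hk' her.le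
      _ = n * (n + 1) * (n + 2) * (e * δ) := by ring
      _ ≤ n * (n + 1) * (n + 2) * (2 * n ^ 2 * s) :=
          mul_le_mul_of_nonneg_left (by linarith) (by positivity)
  obtain ⟨m, rfl⟩ : ∃ m, n = m + 1 := ⟨n - 1, by omega⟩
  rw [Nat.add_sub_cancel] at hnum'
  have h2 : (2 : ℝ) ^ m ≤ (s : ℝ) ^ m := pow_le_pow_left₀ (by norm_num) hsr m
  have hs0 : (0 : ℝ) < s := by linarith
  have h3 : ((e : ℝ) * ((m + 1).factorial : ℝ) * (s : ℝ) ^ m) * (2 * s) ≤
      (((m + 1 : ℕ) : ℝ) ^ 3 * (((m + 1 : ℕ) : ℝ) + 1) * (((m + 1 : ℕ) : ℝ) + 2)) * (2 * s) := by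
    calc ((e : ℝ) * ((m + 1).factorial : ℝ) * (s : ℝ) ^ m) * (2 * s) =
          (e : ℝ) * (2 * (s : ℝ) ^ (m + 1) * ((m + 1).factorial : ℝ)) := by ring
      _ ≤ _ := h1
      _ = _ := by ring
  have h4 := le_of_mul_le_mul_right h3 (by positivity)
  have h5 : (e : ℝ) * ((m + 1).factorial : ℝ) * 2 ^ m ≤ (e : ℝ) * ((m + 1).factorial : ℝ) * (s : ℝ) ^ m :=
    mul_le_mul_of_nonneg_left h2 (by positivity)
  linarith

theorem g125 : harmonic 125 < 11 / 2 := by
  decide +kernel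

theorem g207 : harmonic 207 < 6 := by
  decide +kernel

theorem lt_of_harmonic {S : ℕ} {c : ℚ} (hS : harmonic S < c) (hν : ν < ((harmonic R : ℚ) : ℝ))
    (hc : (c : ℝ) ≤ ν) : S < R := by
  by_contra hcon
  push Not at hcon
  have h1 := harmonic_mono hcon
  have h2 : (harmonic R : ℚ) < c := lt_of_le_of_lt h1 hS
  have h3 : ((harmonic R : ℚ) : ℝ) < c := by exact_mod_cast h2
  linarith

theorem le_of_log {n a : ℕ} (hν : ν < ((harmonic R : ℚ) : ℝ)) (hR : 1 ≤ R)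
    (hn : (n : ℝ) ≤ 2 * ν - 2) (ha : (a : ℝ) ^ 2 < 2.7182818283 ^ n) : a ≤ R := by
  by_contra hcon
  push Not at hcon
  have h1 : ν < 1 + Real.log R := hν.trans_le (harmonic_le_one_add_log R)
  have hR0 : (0 : ℝ) < R := by exact_mod_cast hR
  have h2 : (n : ℝ) < Real.log ((R : ℝ) ^ 2) := by
    rw [Real.log_pow]
    push_cast
    linarith
  rw [Real.lt_log_iff_exp_lt (by positivity)] at h2
  have h3 : (2.7182818283 : ℝ) ^ n ≤ Real.exp n := by
    have h4 := Real.exp_one_gt_d9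
    have h5 : Real.exp (n : ℝ) = Real.exp 1 ^ n := by
      rw [← Real.exp_nat_mul, mul_one]
    rw [h5]
    exact pow_le_pow_left₀ (by norm_num) h4.le n
  have h4 : (R : ℝ) ≤ a := by exact_mod_cast hcon.le
  have h5 : (R : ℝ) ^ 2 ≤ (a : ℝ) ^ 2 := pow_le_pow_left₀ hR0.le h4 2
  linarith

theorem Tab.mid2 (h : Tab R ν δ M V) (hR : 80 ≤ R) (hν : ν < ((harmonic R : ℚ) : ℝ)) :
    V.natDegree ≠ 2 := by
  intro hn
  have hdeg := h.deg
  rw [hn] at hdeg
  push_cast at hdeg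
  have hd := h.delta hν (h.e2 hn (by omega))
  push_cast at hd
  have hk := kill2' (V := V) (δ := δ) (h := (R - 2) / 2) hn h.zero
    (h.bd (by
      have := Nat.mul_div_le (R - 2) 2
      omega)) (h.int (by omega))
  have hk' : ((((R - 2) / 2 : ℕ) : ℝ)) ^ 2 ≤ (3) * δ := by
    have h1 := (Rat.cast_le (K := ℝ)).2 hk
    push_cast at h1
    exact h1
  have hh : R - 1 - 2 ≤ 2 * ((R - 2) / 2) := by omega
  have hh' : (R : ℝ) - 1 - 2 ≤ 2 * ((((R - 2) / 2 : ℕ) : ℝ)) := by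
    have h1 : ((R - 1 - 2 : ℕ) : ℝ) ≤ ((2 * ((R - 2) / 2) : ℕ) : ℝ) := by
      exact_mod_cast hh
    rw [Nat.cast_sub (by omega), Nat.cast_sub (by omega)] at h1
    push_cast at h1
    push_cast
    linarith
  have hRr : (80 : ℝ) ≤ R := by exact_mod_cast (by omega : 80 ≤ R)
  generalize (((R - 2) / 2 : ℕ) : ℝ) = z at hk' hh'
  have hy : ((R : ℝ) - 1 - 2) ^ 2 ≤ (2 * z) ^ 2 :=
    pow_le_pow_left₀ (by linarith) hh' 2
  refine concl2 (n := 2) (y := (R : ℝ) - 1 - 2) (y0 := 77) (b := 1)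
    (C := 60000 / 943) (by norm_num) (by norm_num) (by linarith) (by norm_num)
    (by norm_num) ?_ (by norm_num)
  have h3 : (2 * z) ^ 2 = 4 * z ^ 2 := by ring
  rw [h3] at hy
  have h4 : (δ : ℝ) ≤ 5000 / 943 * (R - 2) := by linarith
  calc ((R : ℝ) - 1 - 2) ^ 2 ≤ 4 * z ^ 2 := hy
    _ ≤ 4 * ((3) * δ) := mul_le_mul_of_nonneg_left hk' (by norm_num)
    _ ≤ 4 * ((3) * (5000 / 943 * (R - 2))) := by
        refine mul_le_mul_of_nonneg_left ?_ (by norm_num)
        exact mul_le_mul_of_nonneg_left h4 (by norm_num)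
    _ = 60000 / 943 * ((R : ℝ) - 1 - 2 + 1) := by ring

theorem Tab.mid3 (h : Tab R ν δ M V) (hR : 80 ≤ R) (hν : ν < ((harmonic R : ℚ) : ℝ)) :
    V.natDegree ≠ 3 := by
  intro hn
  have hdeg := h.deg
  rw [hn] at hdeg
  push_cast at hdeg
  have hd := h.delta hν (h.e3 hn (by omega))
  push_cast at hd
  have hk := kill3 (V := V) (δ := δ) (h := (R - 2) / 4) hn h.zero
    (h.bd (by
      have := Nat.mul_div_le (R - 2) 4
      omega)) (h.int (by omega))
  have hk' : ((((R - 2) / 4 : ℕ) : ℝ)) ^ 3 ≤ (15 / 2) * δ := by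
    have h1 := (Rat.cast_le (K := ℝ)).2 hk
    push_cast at h1
    exact h1
  have hh : R - 1 - 4 ≤ 4 * ((R - 2) / 4) := by omega
  have hh' : (R : ℝ) - 1 - 4 ≤ 4 * ((((R - 2) / 4 : ℕ) : ℝ)) := by
    have h1 : ((R - 1 - 4 : ℕ) : ℝ) ≤ ((4 * ((R - 2) / 4) : ℕ) : ℝ) := by
      exact_mod_cast hh
    rw [Nat.cast_sub (by omega), Nat.cast_sub (by omega)] at h1
    push_cast at h1
    push_cast
    linarith
  have hRr : (80 : ℝ) ≤ R := by exact_mod_cast (by omega : 80 ≤ R)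
  generalize (((R - 2) / 4 : ℕ) : ℝ) = z at hk' hh'
  have hy : ((R : ℝ) - 1 - 4) ^ 3 ≤ (4 * z) ^ 3 :=
    pow_le_pow_left₀ (by linarith) hh' 3
  refine concl2 (n := 3) (y := (R : ℝ) - 1 - 4) (y0 := 75) (b := 5 / 2)
    (C := 320000 / 91) (by norm_num) (by norm_num) (by linarith) (by norm_num)
    (by norm_num) ?_ (by norm_num)
  have h3 : (4 * z) ^ 3 = 64 * z ^ 3 := by ring
  rw [h3] at hy
  have h4 : (δ : ℝ) ≤ 2000 / 273 * (R - 5 / 2) := by linarith
  calc ((R : ℝ) - 1 - 4) ^ 3 ≤ 64 * z ^ 3 := hy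
    _ ≤ 64 * ((15 / 2) * δ) := mul_le_mul_of_nonneg_left hk' (by norm_num)
    _ ≤ 64 * ((15 / 2) * (2000 / 273 * (R - 5 / 2))) := by
        refine mul_le_mul_of_nonneg_left ?_ (by norm_num)
        exact mul_le_mul_of_nonneg_left h4 (by norm_num)
    _ = 320000 / 91 * ((R : ℝ) - 1 - 4 + 5 / 2) := by ring

theorem Tab.mid4 (h : Tab R ν δ M V) (hR : 80 ≤ R) (hν : ν < ((harmonic R : ℚ) : ℝ)) :
    V.natDegree ≠ 4 := by
  intro hn
  have hdeg := h.deg
  rw [hn] at hdeg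
  push_cast at hdeg
  have hd := h.delta hν (h.e4 hn (by omega))
  push_cast at hd
  have hk := kill4 (V := V) (δ := δ) (h := (R - 2) / 6) hn h.zero
    (h.bd (by
      have := Nat.mul_div_le (R - 2) 6
      omega)) (h.int (by omega))
  have hk' : ((((R - 2) / 6 : ℕ) : ℝ)) ^ 4 ≤ (9) * δ := by
    have h1 := (Rat.cast_le (K := ℝ)).2 hk
    push_cast at h1
    exact h1
  have hh : R - 1 - 6 ≤ 6 * ((R - 2) / 6) := by omega
  have hh' : (R : ℝ) - 1 - 6 ≤ 6 * ((((R - 2) / 6 : ℕ) : ℝ)) := by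
    have h1 : ((R - 1 - 6 : ℕ) : ℝ) ≤ ((6 * ((R - 2) / 6) : ℕ) : ℝ) := by
      exact_mod_cast hh
    rw [Nat.cast_sub (by omega), Nat.cast_sub (by omega)] at h1
    push_cast at h1
    push_cast
    linarith
  have hRr : (80 : ℝ) ≤ R := by exact_mod_cast (by omega : 80 ≤ R)
  generalize (((R - 2) / 6 : ℕ) : ℝ) = z at hk' hh'
  have hy : ((R : ℝ) - 1 - 6) ^ 4 ≤ (6 * z) ^ 4 :=
    pow_le_pow_left₀ (by linarith) hh' 4
  refine concl2 (n := 4) (y := (R : ℝ) - 1 - 6) (y0 := 73) (b := 4)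
    (C := 9720000 / 77) (by norm_num) (by norm_num) (by linarith) (by norm_num)
    (by norm_num) ?_ (by norm_num)
  have h3 : (6 * z) ^ 4 = 1296 * z ^ 4 := by ring
  rw [h3] at hy
  have h4 : (δ : ℝ) ≤ 2500 / 231 * (R - 3) := by linarith
  calc ((R : ℝ) - 1 - 6) ^ 4 ≤ 1296 * z ^ 4 := hy
    _ ≤ 1296 * ((9) * δ) := mul_le_mul_of_nonneg_left hk' (by norm_num)
    _ ≤ 1296 * ((9) * (2500 / 231 * (R - 3))) := by
        refine mul_le_mul_of_nonneg_left ?_ (by norm_num)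
        exact mul_le_mul_of_nonneg_left h4 (by norm_num)
    _ = 9720000 / 77 * ((R : ℝ) - 1 - 6 + 4) := by ring

theorem Tab.mid5 (h : Tab R ν δ M V) (hR : 80 ≤ R) (hν : ν < ((harmonic R : ℚ) : ℝ)) :
    V.natDegree ≠ 5 := by
  intro hn
  have hdeg := h.deg
  rw [hn] at hdeg
  push_cast at hdeg
  have hd := h.delta hν (h.e5 hn (by omega))
  push_cast at hd
  have hk := kill5 (V := V) (δ := δ) (h := (R - 2) / 10) hn h.zero
    (h.bd (by
      have := Nat.mul_div_le (R - 2) 10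
      omega)) (h.int (by omega))
  have hk' : ((((R - 2) / 10 : ℕ) : ℝ)) ^ 5 ≤ (7 / 2) * δ := by
    have h1 := (Rat.cast_le (K := ℝ)).2 hk
    push_cast at h1
    exact h1
  have hh : R - 1 - 10 ≤ 10 * ((R - 2) / 10) := by omega
  have hh' : (R : ℝ) - 1 - 10 ≤ 10 * ((((R - 2) / 10 : ℕ) : ℝ)) := by
    have h1 : ((R - 1 - 10 : ℕ) : ℝ) ≤ ((10 * ((R - 2) / 10) : ℕ) : ℝ) := by
      exact_mod_cast hh
    rw [Nat.cast_sub (by omega), Nat.cast_sub (by omega)] at h1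
    push_cast at h1
    push_cast
    linarith
  have hRr : (80 : ℝ) ≤ R := by exact_mod_cast (by omega : 80 ≤ R)
  generalize (((R - 2) / 10 : ℕ) : ℝ) = z at hk' hh'
  have hy : ((R : ℝ) - 1 - 10) ^ 5 ≤ (10 * z) ^ 5 :=
    pow_le_pow_left₀ (by linarith) hh' 5
  refine concl2 (n := 5) (y := (R : ℝ) - 1 - 10) (y0 := 69) (b := 15 / 2)
    (C := 1750000000 / 337) (by norm_num) (by norm_num) (by linarith) (by norm_num)
    (by norm_num) ?_ (by norm_num)
  have h3 : (10 * z) ^ 5 = 100000 * z ^ 5 := by ring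
  rw [h3] at hy
  have h4 : (δ : ℝ) ≤ 5000 / 337 * (R - 7 / 2) := by linarith
  calc ((R : ℝ) - 1 - 10) ^ 5 ≤ 100000 * z ^ 5 := hy
    _ ≤ 100000 * ((7 / 2) * δ) := mul_le_mul_of_nonneg_left hk' (by norm_num)
    _ ≤ 100000 * ((7 / 2) * (5000 / 337 * (R - 7 / 2))) := by
        refine mul_le_mul_of_nonneg_left ?_ (by norm_num)
        exact mul_le_mul_of_nonneg_left h4 (by norm_num)
    _ = 1750000000 / 337 * ((R : ℝ) - 1 - 10 + 15 / 2) := by ring

theorem Tab.mid6 (h : Tab R ν δ M V) (hR : 80 ≤ R) (hν : ν < ((harmonic R : ℚ) : ℝ)) :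
    V.natDegree ≠ 6 := by
  intro hn
  have hdeg := h.deg
  rw [hn] at hdeg
  push_cast at hdeg
  have hd := h.delta hν (h.e6 hn (by omega))
  push_cast at hd
  have hk := kill6 (V := V) (δ := δ) (h := (R - 2) / 16) hn h.zero
    (h.bd (by
      have := Nat.mul_div_le (R - 2) 16
      omega)) (h.int (by omega))
  have hk' : ((((R - 2) / 16 : ℕ) : ℝ)) ^ 6 ≤ (217 / 352) * δ := by
    have h1 := (Rat.cast_le (K := ℝ)).2 hk
    push_cast at h1
    exact h1
  have hh : R - 1 - 16 ≤ 16 * ((R - 2) / 16) := by omega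
  have hh' : (R : ℝ) - 1 - 16 ≤ 16 * ((((R - 2) / 16 : ℕ) : ℝ)) := by
    have h1 : ((R - 1 - 16 : ℕ) : ℝ) ≤ ((16 * ((R - 2) / 16) : ℕ) : ℝ) := by
      exact_mod_cast hh
    rw [Nat.cast_sub (by omega), Nat.cast_sub (by omega)] at h1
    push_cast at h1
    push_cast
    linarith
  have hRr : (80 : ℝ) ≤ R := by exact_mod_cast (by omega : 80 ≤ R)
  generalize (((R - 2) / 16 : ℕ) : ℝ) = z at hk' hh'
  have hy : ((R : ℝ) - 1 - 16) ^ 6 ≤ (16 * z) ^ 6 :=
    pow_le_pow_left₀ (by linarith) hh' 6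
  refine concl2 (n := 6) (y := (R : ℝ) - 1 - 16) (y0 := 63) (b := 13)
    (C := 1137704960000 / 5093) (by norm_num) (by norm_num) (by linarith) (by norm_num)
    (by norm_num) ?_ (by norm_num)
  have h3 : (16 * z) ^ 6 = 16777216 * z ^ 6 := by ring
  rw [h3] at hy
  have h4 : (δ : ℝ) ≤ 10000 / 463 * (R - 4) := by linarith
  calc ((R : ℝ) - 1 - 16) ^ 6 ≤ 16777216 * z ^ 6 := hy
    _ ≤ 16777216 * ((217 / 352) * δ) := mul_le_mul_of_nonneg_left hk' (by norm_num)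
    _ ≤ 16777216 * ((217 / 352) * (10000 / 463 * (R - 4))) := by
        refine mul_le_mul_of_nonneg_left ?_ (by norm_num)
        exact mul_le_mul_of_nonneg_left h4 (by norm_num)
    _ = 1137704960000 / 5093 * ((R : ℝ) - 1 - 16 + 13) := by ring

theorem Tab.mid7 (h : Tab R ν δ M V) (hR : 80 ≤ R) (hν : ν < ((harmonic R : ℚ) : ℝ)) :
    V.natDegree ≠ 7 := by
  intro hn
  have hdeg := h.deg
  rw [hn] at hdeg
  push_cast at hdeg
  have hd := h.delta hν (h.e7 hn (by omega))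
  push_cast at hd
  have hk := kill7 (V := V) (δ := δ) (h := (R - 2) / 20) hn h.zero
    (h.bd (by
      have := Nat.mul_div_le (R - 2) 20
      omega)) (h.int (by omega))
  have hk' : ((((R - 2) / 20 : ℕ) : ℝ)) ^ 7 ≤ (413 / 1408) * δ := by
    have h1 := (Rat.cast_le (K := ℝ)).2 hk
    push_cast at h1
    exact h1
  have hh : R - 1 - 20 ≤ 20 * ((R - 2) / 20) := by omega
  have hh' : (R : ℝ) - 1 - 20 ≤ 20 * ((((R - 2) / 20 : ℕ) : ℝ)) := by
    have h1 : ((R - 1 - 20 : ℕ) : ℝ) ≤ ((20 * ((R - 2) / 20) : ℕ) : ℝ) := by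
      exact_mod_cast hh
    rw [Nat.cast_sub (by omega), Nat.cast_sub (by omega)] at h1
    push_cast at h1
    push_cast
    linarith
  have hRr : (80 : ℝ) ≤ R := by exact_mod_cast (by omega : 80 ≤ R)
  generalize (((R - 2) / 20 : ℕ) : ℝ) = z at hk' hh'
  have hy : ((R : ℝ) - 1 - 20) ^ 7 ≤ (20 * z) ^ 7 :=
    pow_le_pow_left₀ (by linarith) hh' 7
  refine concl2 (n := 7) (y := (R : ℝ) - 1 - 20) (y0 := 59) (b := 33 / 2)
    (C := 41300000000000 / 3333) (by norm_num) (by norm_num) (by linarith) (by norm_num)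
    (by norm_num) ?_ (by norm_num)
  have h3 : (20 * z) ^ 7 = 1280000000 * z ^ 7 := by ring
  rw [h3] at hy
  have h4 : (δ : ℝ) ≤ 10000 / 303 * (R - 9 / 2) := by linarith
  calc ((R : ℝ) - 1 - 20) ^ 7 ≤ 1280000000 * z ^ 7 := hy
    _ ≤ 1280000000 * ((413 / 1408) * δ) := mul_le_mul_of_nonneg_left hk' (by norm_num)
    _ ≤ 1280000000 * ((413 / 1408) * (10000 / 303 * (R - 9 / 2))) := by
        refine mul_le_mul_of_nonneg_left ?_ (by norm_num)
        exact mul_le_mul_of_nonneg_left h4 (by norm_num)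
    _ = 41300000000000 / 3333 * ((R : ℝ) - 1 - 20 + 33 / 2) := by ring

theorem Tab.mid8 (h : Tab R ν δ M V) (hR : 80 ≤ R) (hν : ν < ((harmonic R : ℚ) : ℝ)) :
    V.natDegree ≠ 8 := by
  intro hn
  have hdeg := h.deg
  rw [hn] at hdeg
  push_cast at hdeg
  have hd := h.delta hν (h.e8 hn (by omega))
  push_cast at hd
  have hk := kill8 (V := V) (δ := δ) (h := (R - 2) / 26) hn h.zero
    (h.bd (by
      have := Nat.mul_div_le (R - 2) 26
      omega)) (h.int (by omega))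
  have hk' : ((((R - 2) / 26 : ℕ) : ℝ)) ^ 8 ≤ (1 / 14) * δ := by
    have h1 := (Rat.cast_le (K := ℝ)).2 hk
    push_cast at h1
    exact h1
  have hh : R - 1 - 26 ≤ 26 * ((R - 2) / 26) := by omega
  have hh' : (R : ℝ) - 1 - 26 ≤ 26 * ((((R - 2) / 26 : ℕ) : ℝ)) := by
    have h1 : ((R - 1 - 26 : ℕ) : ℝ) ≤ ((26 * ((R - 2) / 26) : ℕ) : ℝ) := by
      exact_mod_cast hh
    rw [Nat.cast_sub (by omega), Nat.cast_sub (by omega)] at h1
    push_cast at h1
    push_cast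
    linarith
  have hRr : (80 : ℝ) ≤ R := by exact_mod_cast (by omega : 80 ≤ R)
  generalize (((R - 2) / 26 : ℕ) : ℝ) = z at hk' hh'
  have hy : ((R : ℝ) - 1 - 26) ^ 8 ≤ (26 * z) ^ 8 :=
    pow_le_pow_left₀ (by linarith) hh' 8
  refine concl2 (n := 8) (y := (R : ℝ) - 1 - 26) (y0 := 53) (b := 22)
    (C := 1044135322880000 / 1323) (by norm_num) (by norm_num) (by linarith) (by norm_num)
    (by norm_num) ?_ (by norm_num)
  have h3 : (26 * z) ^ 8 = 208827064576 * z ^ 8 := by ring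
  rw [h3] at hy
  have h4 : (δ : ℝ) ≤ 10000 / 189 * (R - 5) := by linarith
  calc ((R : ℝ) - 1 - 26) ^ 8 ≤ 208827064576 * z ^ 8 := hy
    _ ≤ 208827064576 * ((1 / 14) * δ) := mul_le_mul_of_nonneg_left hk' (by norm_num)
    _ ≤ 208827064576 * ((1 / 14) * (10000 / 189 * (R - 5))) := by
        refine mul_le_mul_of_nonneg_left ?_ (by norm_num)
        exact mul_le_mul_of_nonneg_left h4 (by norm_num)
    _ = 1044135322880000 / 1323 * ((R : ℝ) - 1 - 26 + 22) := by ring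

theorem Tab.mid9 (h : Tab R ν δ M V) (hR : 80 ≤ R) (hν : ν < ((harmonic R : ℚ) : ℝ)) :
    V.natDegree ≠ 9 := by
  intro hn
  have hdeg := h.deg
  rw [hn] at hdeg
  push_cast at hdeg
  have hRS : 125 < R := lt_of_harmonic (c := 11 / 2) g125 hν (by push_cast; linarith)
  have hd := h.delta hν (h.e9 hn (by omega))
  push_cast at hd
  have hk := kill9 (V := V) (δ := δ) (h := (R - 2) / 33) hn h.zero
    (h.bd (by
      have := Nat.mul_div_le (R - 2) 33
      omega)) (h.int (by omega))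
  have hk' : ((((R - 2) / 33 : ℕ) : ℝ)) ^ 9 ≤ (5367537 / 377490100) * δ := by
    have h1 := (Rat.cast_le (K := ℝ)).2 hk
    push_cast at h1
    exact h1
  have hh : R - 1 - 33 ≤ 33 * ((R - 2) / 33) := by omega
  have hh' : (R : ℝ) - 1 - 33 ≤ 33 * ((((R - 2) / 33 : ℕ) : ℝ)) := by
    have h1 : ((R - 1 - 33 : ℕ) : ℝ) ≤ ((33 * ((R - 2) / 33) : ℕ) : ℝ) := by
      exact_mod_cast hh
    rw [Nat.cast_sub (by omega), Nat.cast_sub (by omega)] at h1
    push_cast at h1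
    push_cast
    linarith
  have hRr : (126 : ℝ) ≤ R := by exact_mod_cast (by omega : 126 ≤ R)
  generalize (((R - 2) / 33 : ℕ) : ℝ) = z at hk' hh'
  have hy : ((R : ℝ) - 1 - 33) ^ 9 ≤ (33 * z) ^ 9 :=
    pow_le_pow_left₀ (by linarith) hh' 9
  refine concl2 (n := 9) (y := (R : ℝ) - 1 - 33) (y0 := 92) (b := 57 / 2)
    (C := 24911535975240559976100 / 1090946389) (by norm_num) (by norm_num) (by linarith) (by norm_num)
    (by norm_num) ?_ (by norm_num)
  have h3 : (33 * z) ^ 9 = 46411484401953 * z ^ 9 := by ring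
  rw [h3] at hy
  have h4 : (δ : ℝ) ≤ 10000 / 289 * (R - 11 / 2) := by linarith
  calc ((R : ℝ) - 1 - 33) ^ 9 ≤ 46411484401953 * z ^ 9 := hy
    _ ≤ 46411484401953 * ((5367537 / 377490100) * δ) := mul_le_mul_of_nonneg_left hk' (by norm_num)
    _ ≤ 46411484401953 * ((5367537 / 377490100) * (10000 / 289 * (R - 11 / 2))) := by
        refine mul_le_mul_of_nonneg_left ?_ (by norm_num)
        exact mul_le_mul_of_nonneg_left h4 (by norm_num)
    _ = 24911535975240559976100 / 1090946389 * ((R : ℝ) - 1 - 33 + 57 / 2) := by ring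

theorem Tab.mid10 (h : Tab R ν δ M V) (hR : 80 ≤ R) (hν : ν < ((harmonic R : ℚ) : ℝ)) :
    V.natDegree ≠ 10 := by
  intro hn
  have hdeg := h.deg
  rw [hn] at hdeg
  have hRS : 2 * 10 ^ 2 + 2 ≤ R := by
    have := lt_of_harmonic (c := 6) g207 hν (by push_cast at hdeg ⊢; linarith)
    omega
  exact h.bigcase hν hn (by norm_num) hRS (h.e10 hn (by omega)) (by norm_num)
    (by norm_num [Nat.factorial])

theorem Tab.mid11 (h : Tab R ν δ M V) (hR : 80 ≤ R) (hν : ν < ((harmonic R : ℚ) : ℝ)) :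
    V.natDegree ≠ 11 := by
  intro hn
  have hdeg := h.deg
  rw [hn] at hdeg
  have hRS : 2 * 11 ^ 2 + 2 ≤ R := by
    have := le_of_log (n := 11) (a := 244) hν (by omega) hdeg (by norm_num)
    omega
  exact h.bigcase hν hn (by norm_num) hRS (h.e11 hn (by omega)) (by norm_num)
    (by norm_num [Nat.factorial])

theorem Tab.mid12 (h : Tab R ν δ M V) (hR : 80 ≤ R) (hν : ν < ((harmonic R : ℚ) : ℝ)) :
    V.natDegree ≠ 12 := by
  intro hn
  have hdeg := h.deg
  rw [hn] at hdeg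
  have hRS : 2 * 12 ^ 2 + 2 ≤ R := by
    have := le_of_log (n := 12) (a := 290) hν (by omega) hdeg (by norm_num)
    omega
  exact h.bigcase hν hn (by norm_num) hRS (h.e12 hn (by omega)) (by norm_num)
    (by norm_num [Nat.factorial])

theorem Tab.mid13 (h : Tab R ν δ M V) (hR : 80 ≤ R) (hν : ν < ((harmonic R : ℚ) : ℝ)) :
    V.natDegree ≠ 13 := by
  intro hn
  have hdeg := h.deg
  rw [hn] at hdeg
  have hRS : 2 * 13 ^ 2 + 2 ≤ R := by
    have := le_of_log (n := 13) (a := 340) hν (by omega) hdeg (by norm_num)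
    omega
  exact h.bigcase hν hn (by norm_num) hRS (h.e13 hn (by omega)) (by norm_num)
    (by norm_num [Nat.factorial])

theorem Tab.mid14 (h : Tab R ν δ M V) (hR : 80 ≤ R) (hν : ν < ((harmonic R : ℚ) : ℝ)) :
    V.natDegree ≠ 14 := by
  intro hn
  have hdeg := h.deg
  rw [hn] at hdeg
  have hRS : 2 * 14 ^ 2 + 2 ≤ R := by
    have := le_of_log (n := 14) (a := 394) hν (by omega) hdeg (by norm_num)
    omega
  exact h.bigcase hν hn (by norm_num) hRS (h.e14 hn (by omega)) (by norm_num)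
    (by norm_num [Nat.factorial])

theorem Tab.mid15 (h : Tab R ν δ M V) (hR : 80 ≤ R) (hν : ν < ((harmonic R : ℚ) : ℝ)) :
    V.natDegree ≠ 15 := by
  intro hn
  have hdeg := h.deg
  rw [hn] at hdeg
  have hRS : 2 * 15 ^ 2 + 2 ≤ R := by
    have := le_of_log (n := 15) (a := 452) hν (by omega) hdeg (by norm_num)
    omega
  exact h.bigcase hν hn (by norm_num) hRS (h.e15 hn (by omega)) (by norm_num)
    (by norm_num [Nat.factorial])

theorem Tab.mid16 (h : Tab R ν δ M V) (hR : 80 ≤ R) (hν : ν < ((harmonic R : ℚ) : ℝ)) :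
    V.natDegree ≠ 16 := by
  intro hn
  have hdeg := h.deg
  rw [hn] at hdeg
  have hRS : 2 * 16 ^ 2 + 2 ≤ R := by
    have := le_of_log (n := 16) (a := 514) hν (by omega) hdeg (by norm_num)
    omega
  exact h.bigcase hν hn (by norm_num) hRS (h.e16 hn (by omega)) (by norm_num)
    (by norm_num [Nat.factorial])

theorem Tab.low_false (h : Tab R ν δ M V) (hV : V.natDegree ≤ 1) (hR : 80 ≤ R)
    (hν : ν < ((harmonic R : ℚ) : ℝ)) : False := by
  have hlog2 := Real.log_two_lt_d9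
  have hle := hν.le.trans (harmonic_le_one_add_log R)
  rcases Nat.lt_or_ge R 128 with h128 | h128
  · have h1 := h.low hV (by omega) (m := 12) (by omega)
    have h2 := log_le_of_lt (R := R) (t := 7) (by omega) (by omega)
    have h4 : (80 : ℝ) ≤ R := by exact_mod_cast hR
    push_cast at h1 h2
    have h5 : ν ≤ 5.8521 := by linarith
    nlinarith
  rcases Nat.lt_or_ge R 512 with h512 | h512
  · have h1 := h.low hV (by omega) (m := 16) (by omega)
    have h2 := log_le_of_lt (R := R) (t := 9) (by omega) (by omega)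
    have h4 : (128 : ℝ) ≤ R := by exact_mod_cast h128
    push_cast at h1 h2
    have h5 : ν ≤ 7.24 := by linarith
    nlinarith
  · have hc : 0 ≤ (R : ℝ) := Nat.cast_nonneg _
    rcases Nat.lt_or_ge R 8192 with h8192 | h8192
    · have h1 := h.low hV (by omega) (m := 22) (by omega)
      have h2 := log_le_of_lt (R := R) (t := 13) (by omega) (by omega)
      have h4 : (512 : ℝ) ≤ R := by exact_mod_cast h512
      push_cast at h1 h2
      have h5 : ν ≤ 10.011 := by linarith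
      nlinarith
    · set m := Nat.sqrt R with hm
      have hm1 : m * m ≤ R := Nat.sqrt_le R
      have hm2 : R < (m + 1) * (m + 1) := Nat.lt_succ_sqrt R
      have hm64 : 64 ≤ m := by
        rw [hm, Nat.le_sqrt]
        omega
      have h1 := h.low hV (by omega) (m := m) (by nlinarith)
      have hmr : (64 : ℝ) ≤ m := by exact_mod_cast hm64
      have hm1r : (m : ℝ) * m ≤ R := by exact_mod_cast hm1
      have hm2r : (R : ℝ) ≤ ((m : ℝ) + 1) * (m + 1) := by exact_mod_cast hm2.le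
      have hR0 : (0 : ℝ) < R := by exact_mod_cast (by omega : 0 < R)
      have h2 : Real.log R ≤ 2 * Real.log ((m : ℝ) + 1) := by
        have h3 := Real.log_le_log hR0 hm2r
        rw [Real.log_mul (by positivity) (by positivity)] at h3
        linarith
      have h3 : Real.log ((m : ℝ) + 1) ≤ ((m : ℝ) + 1) / 8 - 1 + 2.08 := by
        have h4 := Real.log_le_sub_one_of_pos (x := ((m : ℝ) + 1) / 8) (by positivity)
        rw [Real.log_div (by positivity) (by norm_num)] at h4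
        have h5 : Real.log 8 = 3 * Real.log 2 := by
          rw [show (8 : ℝ) = 2 ^ 3 by norm_num, Real.log_pow]
          norm_num
        linarith
      have hL : (0 : ℝ) < (R : ℝ) - 2 := by nlinarith
      have h4 : (m : ℝ) * (m + 1) * (2 * m + 1) ≤ 3 * m * (R - 2) := by
        have h5 : (m + 1 : ℝ) * (2 * m + 1) ≤ 3 * (R - 2) := by nlinarith
        calc (m : ℝ) * (m + 1) * (2 * m + 1) = m * ((m + 1) * (2 * m + 1)) := by ring
          _ ≤ m * (3 * (R - 2)) := mul_le_mul_of_nonneg_left h5 (by linarith)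
          _ = _ := by ring
      have h5 : (48 + 21 * (m : ℝ)) * (R - 2) ≤ (48 * ν) * (R - 2) := by nlinarith
      have h6 := le_of_mul_le_mul_right h5 hL
      linarith

theorem Tab.false_mid (h : Tab R ν δ M V) (hR : 80 ≤ R) (hν : ν < ((harmonic R : ℚ) : ℝ)) :
    False := by
  rcases Nat.lt_or_ge R 4900 with hR1 | hR1
  · have hlt : V.natDegree < 17 := by
      by_contra hcon
      push Not at hcon
      have h1 := h.deg
      have h2 : (17 : ℝ) ≤ V.natDegree := by exact_mod_cast hcon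
      have h3 := le_of_log (n := 17) (a := 4900) hν (by omega) (by push_cast; linarith) (by norm_num)
      omega
    have h0 : ¬ V.natDegree ≤ 1 := fun h0 => h.low_false h0 hR hν
    have h2 := h.mid2 hR hν
    have h3 := h.mid3 hR hν
    have h4 := h.mid4 hR hν
    have h5 := h.mid5 hR hν
    have h6 := h.mid6 hR hν
    have h7 := h.mid7 hR hν
    have h8 := h.mid8 hR hν
    have h9 := h.mid9 hR hν
    have h10 := h.mid10 hR hν
    have h11 := h.mid11 hR hν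
    have h12 := h.mid12 hR hν
    have h13 := h.mid13 hR hν
    have h14 := h.mid14 hR hν
    have h15 := h.mid15 hR hν
    have h16 := h.mid16 hR hν
    omega
  · exact h.elim (by omega) (Or.inr ⟨hR1, hν⟩)

end Pool.Agent.K9h7.SH
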