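import Pool.Agent.K9h7.SH.CertLead
import Pool.Agent.K9h7.SH.CertTwo
import Pool.Agent.K9h7.SH.Lattice
import Pool.Agent.K9h7.SH.Mid

/-!
# There is no extremal curve with at least 26 rows
-/

set_option autoImplicit false

open Finset Polynomial

namespace Pool.Agent.K9h7.SH

variable {R : ℕ} {ν : ℝ} {δ : ℕ} {M : ℕ → ℕ → ℕ} {V : ℚ[X]}

theorem lead_ne {n : ℕ} (hn : V.natDegree = n) (hn0 : n ≠ 0) : V.coeff n ≠ 0 := by
  have hV0 : V ≠ 0 := by
    rintro rfl
    rw [natDegree_zero] at hn
    exact hn0 hn.symm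
  rw [← hn]
  exact leadingCoeff_ne_zero.2 hV0

theorem one_le_of_int {v N : ℚ} (hv : v ≠ 0) (hN : 0 < N) {m : ℤ} (hm : v * N = m) :
    1 ≤ |v| * N := by
  have h1 : m ≠ 0 := by
    rintro rfl
    rw [Int.cast_zero] at hm
    rcases mul_eq_zero.1 hm with h | h
    · exact hv h
    · exact hN.ne' h
  have h2 : (1 : ℚ) ≤ |(m : ℚ)| := by exact_mod_cast Int.one_le_abs h1
  rwa [← hm, abs_mul, abs_of_pos hN] at h2

/-- the three cases for the leading coefficient -/
theorem int_cases {v N : ℚ} (hv : v ≠ 0) (hN : 0 < N) {m : ℤ} (hm : v * N = m) :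
    1 ≤ |v| * (N / 2) ∨ v * N = 1 ∨ v * N = -1 := by
  have h1 : m ≠ 0 := by
    rintro rfl
    rw [Int.cast_zero] at hm
    rcases mul_eq_zero.1 hm with h | h
    · exact hv h
    · exact hN.ne' h
  by_cases h2 : m = 1
  · right; left
    rw [hm, h2, Int.cast_one]
  by_cases h3 : m = -1
  · right; right
    rw [hm, h3]
    norm_num
  left
  have h4 : 2 ≤ |m| := by
    rcases abs_cases m with ⟨h5, h6⟩ | ⟨h5, h6⟩ <;> omega
  have h5 : (2 : ℚ) ≤ |(m : ℚ)| := by exact_mod_cast h4
  rw [← hm, abs_mul, abs_of_pos hN] at h5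
  linarith

theorem g79 : harmonic 79 < 5 := by
  decide +kernel

theorem g30' : harmonic 30 < 4 := by
  decide +kernel

theorem g50 : harmonic 50 < 9 / 2 := by
  decide +kernel

theorem g40 : harmonic 40 < 43 / 10 := by
  decide +kernel

theorem g60 : harmonic 60 < 47 / 10 := by
  decide +kernel

theorem cast_lt_of {S : ℕ} {c : ℚ} (hS : harmonic S < c) (hRS : R ≤ S)
    (hν : ν < ((harmonic R : ℚ) : ℝ)) : ν < c := by
  have h1 : (harmonic R : ℚ) < c := lt_of_le_of_lt (harmonic_mono hRS) hS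
  have h2 : ((harmonic R : ℚ) : ℝ) < c := by exact_mod_cast h1
  linarith

theorem Tab.low1 (h : Tab R ν δ M V) (hV : V.natDegree ≤ 1) (hR : 26 ≤ R) (hR' : R ≤ 79)
    (hν : ν < ((harmonic R : ℚ) : ℝ)) : False := by
  rcases Nat.lt_or_ge R 31 with h1 | h1
  · have h2 := h.low hV (by omega) (m := 9) (by omega)
    have h3 := cast_lt_of g30' (by omega : R ≤ 30) hν
    have h4 : (26 : ℝ) ≤ R := by exact_mod_cast hR
    push_cast at h2 h3
    nlinarith
  rcases Nat.lt_or_ge R 41 with h5 | h5
  · have h2 := h.low hV (by omega) (m := 10) (by omega)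
    have h3 := cast_lt_of g40 (by omega : R ≤ 40) hν
    have h4 : (31 : ℝ) ≤ R := by exact_mod_cast h1
    push_cast at h2 h3
    nlinarith
  rcases Nat.lt_or_ge R 61 with h6 | h6
  · have h2 := h.low hV (by omega) (m := 10) (by omega)
    have h3 := cast_lt_of g60 (by omega : R ≤ 60) hν
    have h4 : (41 : ℝ) ≤ R := by exact_mod_cast h5
    push_cast at h2 h3
    nlinarith
  · have h2 := h.low hV (by omega) (m := 13) (by omega)
    have h3 := cast_lt_of g79 (by omega : R ≤ 79) hν
    have h4 : (61 : ℝ) ≤ R := by exact_mod_cast h6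
    push_cast at h2 h3
    nlinarith

theorem Tab.low2 (h : Tab R ν δ M V) (hn : V.natDegree = 2) (hR : 26 ≤ R) (hR' : R ≤ 79)
    (hν : ν < ((harmonic R : ℚ) : ℝ)) : False := by
  obtain ⟨m, hm⟩ := lat2 hn h.zero (h.int1 (by omega)) (h.int2 (by omega))
  have h1 := one_le_of_int (lead_ne hn (by norm_num)) (by norm_num) hm
  rcases Nat.lt_or_ge R 35 with h2 | h2
  · exact h.c2_26 hν.le hn (by omega) (by omega) h1
  · exact h.c2_35 hν.le hn (by omega) (by omega) h1

theorem Tab.low3 (h : Tab R ν δ M V) (hn : V.natDegree = 3) (hR : 26 ≤ R) (hR' : R ≤ 79)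
    (hν : ν < ((harmonic R : ℚ) : ℝ)) : False := by
  obtain ⟨m, hm⟩ := lat3 hn h.zero (h.int1 (by omega)) (h.int2 (by omega))
  have h1 := one_le_of_int (lead_ne hn (by norm_num)) (by norm_num) hm
  exact h.c3_26 hν.le hn (by omega) (by omega) h1

theorem Tab.low4 (h : Tab R ν δ M V) (hn : V.natDegree = 4) (hR : 26 ≤ R) (hR' : R ≤ 79)
    (hν : ν < ((harmonic R : ℚ) : ℝ)) : False := by
  obtain ⟨m, hm⟩ := lat4 hn h.zero (h.int1 (by omega)) (h.int2 (by omega))
  have h1 := one_le_of_int (lead_ne hn (by norm_num)) (by norm_num) hm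
  rcases Nat.lt_or_ge R 29 with h2 | h2
  · rcases int_cases (lead_ne hn (by norm_num)) (by norm_num) hm with h3 | h3 | h3
    · refine h.c4_26 hν.le hn (by omega) (by omega) ?_
      norm_num at h3 ⊢
      exact h3
    · exact h.c4_26s hν.le hn (by omega) (by omega) (by linarith) h3.ge
    · obtain ⟨m', hm'⟩ := lat4b hn h.zero (h.int1 (by omega)) (h.int2 (by omega))
      have hv : V.coeff 4 = (-(1 / 360)) := by linarith
      rw [hv] at hm'
      rcases le_or_gt m' 1 with h4 | h4
      · have h5 : (m' : ℚ) ≤ 1 := by exact_mod_cast h4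
        refine h.d4_26l hν.le hn (by omega) (by omega) hv (t := 1 - m') (by linarith) ?_
        linarith
      · have h5 : (2 : ℚ) ≤ m' := by exact_mod_cast h4
        refine h.d4_26u hν.le hn (by omega) (by omega) hv (t := m' - 2) (by linarith) ?_
        linarith
  rcases Nat.lt_or_ge R 30 with h3 | h3
  · exact h.c4_29 hν.le hn (by omega) (by omega) h1
  rcases Nat.lt_or_ge R 36 with h4 | h4
  · exact h.c4_30 hν.le hn (by omega) (by omega) h1
  · exact h.c4_36 hν.le hn (by omega) (by omega) h1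

theorem Tab.low5 (h : Tab R ν δ M V) (hn : V.natDegree = 5) (hR : 26 ≤ R) (hR' : R ≤ 79)
    (hν : ν < ((harmonic R : ℚ) : ℝ)) : False := by
  obtain ⟨m, hm⟩ := lat5 hn h.zero (h.int1 (by omega)) (h.int2 (by omega))
  have h1 := one_le_of_int (lead_ne hn (by norm_num)) (by norm_num) hm
  rcases Nat.lt_or_ge R 28 with h2 | h2
  · exact h.c5_26 hν.le hn (by omega) (by omega) h1
  rcases Nat.lt_or_ge R 46 with h3 | h3
  · exact h.c5_28 hν.le hn (by omega) (by omega) h1
  · exact h.c5_46 hν.le hn (by omega) (by omega) h1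

theorem Tab.low6 (h : Tab R ν δ M V) (hn : V.natDegree = 6) (hR : 31 ≤ R) (hR' : R ≤ 79)
    (hν : ν < ((harmonic R : ℚ) : ℝ)) : False := by
  obtain ⟨m, hm⟩ := lat6 hn h.zero (h.int1 (by omega)) (h.int2 (by omega))
  have h1 := one_le_of_int (lead_ne hn (by norm_num)) (by norm_num) hm
  rcases Nat.lt_or_ge R 34 with h2 | h2
  · rcases int_cases (lead_ne hn (by norm_num)) (by norm_num) hm with h3 | h3 | h3
    · norm_num at h3
      rcases Nat.lt_or_ge R 32 with h4 | h4
      · exact h.c6_31 hν.le hn (by omega) (by omega) h3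
      · exact h.c6_32 hν.le hn (by omega) (by omega) h3
    · exact h.c6_31s hν.le hn (by omega) (by omega) (by linarith) h3.ge
    · obtain ⟨m', hm'⟩ := lat6b hn h.zero (h.int1 (by omega)) (h.int2 (by omega))
      have hv : V.coeff 6 = (-(1 / 20160)) := by linarith
      rw [hv] at hm'
      rcases le_or_gt m' 2 with h4 | h4
      · have h5 : (m' : ℚ) ≤ 2 := by exact_mod_cast h4
        refine h.d6_31l hν.le hn (by omega) (by omega) hv (t := 2 - m') (by linarith) ?_
        linarith
      · have h5 : (3 : ℚ) ≤ m' := by exact_mod_cast h4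
        refine h.d6_31u hν.le hn (by omega) (by omega) hv (t := m' - 3) (by linarith) ?_
        linarith
  rcases Nat.lt_or_ge R 35 with h3 | h3
  · exact h.c6_34 hν.le hn (by omega) (by omega) h1
  rcases Nat.lt_or_ge R 43 with h4 | h4
  · exact h.c6_35 hν.le hn (by omega) (by omega) h1
  · exact h.c6_43 hν.le hn (by omega) (by omega) h1

theorem Tab.low7 (h : Tab R ν δ M V) (hn : V.natDegree = 7) (hR : 51 ≤ R) (hR' : R ≤ 79)
    (hν : ν < ((harmonic R : ℚ) : ℝ)) : False := by
  obtain ⟨m, hm⟩ := lat7 hn h.zero (h.int1 (by omega)) (h.int2 (by omega))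
  have h1 := one_le_of_int (lead_ne hn (by norm_num)) (by norm_num) hm
  exact h.c7_51 hν.le hn (by omega) (by omega) h1

/-- **There is no extremal curve with at least 26 rows.** -/
theorem Tab.false_26 (h : Tab R ν δ M V) (hR : 26 ≤ R) (hν : ν < ((harmonic R : ℚ) : ℝ)) :
    False := by
  rcases Nat.lt_or_ge R 80 with hR1 | hR1
  · have hd := h.deg
    have h79 := cast_lt_of g79 (by omega : R ≤ 79) hν
    have hlt : V.natDegree < 8 := by
      by_contra hcon
      push Not at hcon
      have h2 : (8 : ℝ) ≤ V.natDegree := by exact_mod_cast hcon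
      push_cast at h79
      linarith
    have h6 : V.natDegree = 6 → 31 ≤ R := by
      intro h6
      rw [h6] at hd
      exact lt_of_harmonic g30' hν (by push_cast at hd ⊢; linarith)
    have h7 : V.natDegree = 7 → 51 ≤ R := by
      intro h7
      rw [h7] at hd
      exact lt_of_harmonic g50 hν (by push_cast at hd ⊢; linarith)
    have hR2 : R ≤ 79 := by omega
    rcases Nat.lt_or_ge V.natDegree 2 with h1 | h1
    · exact h.low1 (by omega) hR hR2 hν
    by_cases h2 : V.natDegree = 2
    · exact h.low2 h2 hR hR2 hν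
    by_cases h3 : V.natDegree = 3
    · exact h.low3 h3 hR hR2 hν
    by_cases h4 : V.natDegree = 4
    · exact h.low4 h4 hR hR2 hν
    by_cases h5 : V.natDegree = 5
    · exact h.low5 h5 hR hR2 hν
    by_cases h6' : V.natDegree = 6
    · exact h.low6 h6' (h6 h6') hR2 hν
    have h7' : V.natDegree = 7 := by omega
    exact h.low7 h7' (h7 h7') hR2 hν
  · exact h.false_mid hR1 hν

end Pool.Agent.K9h7.SH
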