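import Pool.Agent.K9h7.SH.CertC
import Pool.Agent.K9h7.SH.Low26
import Pool.Agent.K9h7.SG.Harm9

/-!
# Small strengths, and the main theorem
-/

set_option autoImplicit false

open Finset Polynomial Polynomial.Bivariate

namespace Pool.Agent.K9h7.SH

open Pool.Agent.K9h7.SG Pool.Agent.R60.Steiner

variable {R : ℕ} {ν : ℝ} {δ : ℕ} {M : ℕ → ℕ → ℕ} {V : ℚ[X]}

theorem lt_of_harmonic' {S : ℕ} {c : ℚ} (hS : harmonic S < c)
    (hc : (c : ℝ) ≤ ((harmonic R : ℚ) : ℝ)) : S < R := by
  by_contra hcon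
  push Not at hcon
  have h1 := harmonic_mono hcon
  have h2 : (harmonic R : ℚ) < c := lt_of_le_of_lt h1 hS
  have h3 : ((harmonic R : ℚ) : ℝ) < c := by exact_mod_cast h2
  linarith

theorem cast_le_of {S : ℕ} {c : ℚ} (hS : harmonic S ≤ c) (hRS : R ≤ S) :
    ((harmonic R : ℚ) : ℝ) ≤ c := by
  have h1 : (harmonic R : ℚ) ≤ c := (harmonic_mono hRS).trans hS
  exact_mod_cast h1

theorem Tab.low1c (h : Tab R ν δ M V) (hV : V.natDegree ≤ 1) (hR : 3 ≤ R) (hR' : R ≤ 25)
    (hν : ν ≤ ((harmonic R : ℚ) : ℝ) - (3 / 5 : ℚ)) : False := by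
  rcases Nat.lt_or_ge R 4 with h1 | h1
  · have h2 := h.low hV (by omega) (m := 2) (by omega)
    have h3 := cast_le_of (S := 3) (c := 11 / 6) (by decide +kernel) (by omega : R ≤ 3)
    have h4 : (3 : ℝ) ≤ R := by exact_mod_cast hR
    push_cast at h2 h3 hν
    nlinarith
  rcases Nat.lt_or_ge R 5 with h5 | h5
  · have h2 := h.low hV (by omega) (m := 2) (by omega)
    have h3 := cast_le_of (S := 4) (c := 21 / 10) (by decide +kernel) (by omega : R ≤ 4)
    have h4 : (4 : ℝ) ≤ R := by exact_mod_cast h1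
    push_cast at h2 h3 hν
    nlinarith
  rcases Nat.lt_or_ge R 7 with h6 | h6
  · have h2 := h.low hV (by omega) (m := 3) (by omega)
    have h3 := cast_le_of (S := 6) (c := 49 / 20) (by decide +kernel) (by omega : R ≤ 6)
    have h4 : (5 : ℝ) ≤ R := by exact_mod_cast h5
    push_cast at h2 h3 hν
    nlinarith
  rcases Nat.lt_or_ge R 9 with h7 | h7
  · have h2 := h.low hV (by omega) (m := 4) (by omega)
    have h3 := cast_le_of (S := 8) (c := 272 / 100) (by decide +kernel) (by omega : R ≤ 8)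
    have h4 : (7 : ℝ) ≤ R := by exact_mod_cast h6
    push_cast at h2 h3 hν
    nlinarith
  rcases Nat.lt_or_ge R 12 with h8 | h8
  · have h2 := h.low hV (by omega) (m := 5) (by omega)
    have h3 := cast_le_of (S := 11) (c := 303 / 100) (by decide +kernel) (by omega : R ≤ 11)
    have h4 : (9 : ℝ) ≤ R := by exact_mod_cast h7
    push_cast at h2 h3 hν
    nlinarith
  rcases Nat.lt_or_ge R 17 with h9 | h9
  · have h2 := h.low hV (by omega) (m := 5) (by omega)
    have h3 := cast_le_of (S := 16) (c := 339 / 100) (by decide +kernel) (by omega : R ≤ 16)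
    have h4 : (12 : ℝ) ≤ R := by exact_mod_cast h8
    push_cast at h2 h3 hν
    nlinarith
  · have h2 := h.low hV (by omega) (m := 7) (by omega)
    have h3 := cast_le_of (S := 25) (c := 382 / 100) (by decide +kernel) (by omega : R ≤ 25)
    have h4 : (17 : ℝ) ≤ R := by exact_mod_cast h9
    push_cast at h2 h3 hν
    nlinarith

theorem Tab.low2c (h : Tab R ν δ M V) (hn : V.natDegree = 2) (hR : 8 ≤ R) (hR' : R ≤ 25)
    (hν : ν ≤ ((harmonic R : ℚ) : ℝ) - (3 / 5 : ℚ)) : False := by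
  obtain ⟨m, hm⟩ := lat2 hn h.zero (h.int1 (by omega)) (h.int2 (by omega))
  have h1 := one_le_of_int (lead_ne hn (by norm_num)) (by norm_num) hm
  rcases Nat.lt_or_ge R 11 with h2 | h2
  · rcases int_cases (lead_ne hn (by norm_num)) (by norm_num) hm with h3 | h3 | h3
    · norm_num at h3
      rcases Nat.lt_or_ge R 10 with h4 | h4
      · exact h.c2_s8 hν hn (by omega) (by omega) h3
      · exact h.c2_s10 hν hn (by omega) (by omega) h3
    · rcases Nat.lt_or_ge R 10 with h4 | h4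
      · exact h.c2_s8p hν hn (by omega) (by omega) (by linarith) h3.ge
      · exact h.c2_s10p hν hn (by omega) (by omega) (by linarith) h3.ge
    · obtain ⟨m', hm'⟩ := lat2b hn h.zero (h.int1 (by omega)) (h.int2 (by omega))
      have hv : V.coeff 2 = (-(1 / 12)) := by linarith
      rw [hv] at hm'
      rcases le_or_gt m' (-1) with h4 | h4
      · have h5 : (m' : ℚ) ≤ -1 := by exact_mod_cast h4
        rcases Nat.lt_or_ge R 10 with h6 | h6
        · refine h.d2_s8l hν hn (by omega) (by omega) hv (t := -1 - m') (by linarith) ?_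
          linarith
        · refine h.d2_s10l hν hn (by omega) (by omega) hv (t := -1 - m') (by linarith) ?_
          linarith
      · have h5 : (0 : ℚ) ≤ m' := by exact_mod_cast h4
        rcases Nat.lt_or_ge R 10 with h6 | h6
        · refine h.d2_s8u hν hn (by omega) (by omega) hv (t := m') (by linarith) ?_
          linarith
        · refine h.d2_s10u hν hn (by omega) (by omega) hv (t := m') (by linarith) ?_
          linarith
  rcases Nat.lt_or_ge R 12 with h3 | h3
  · exact h.c2_s11 hν hn (by omega) (by omega) h1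
  rcases Nat.lt_or_ge R 14 with h4 | h4
  · exact h.c2_s12 hν hn (by omega) (by omega) h1
  rcases Nat.lt_or_ge R 19 with h5 | h5
  · exact h.c2_s14 hν hn (by omega) (by omega) h1
  · exact h.c2_s19 hν hn (by omega) (by omega) h1

theorem Tab.low3c (h : Tab R ν δ M V) (hn : V.natDegree = 3) (hR : 12 ≤ R) (hR' : R ≤ 25)
    (hν : ν ≤ ((harmonic R : ℚ) : ℝ) - (3 / 5 : ℚ)) : False := by
  obtain ⟨m, hm⟩ := lat3 hn h.zero (h.int1 (by omega)) (h.int2 (by omega))
  have h1 := one_le_of_int (lead_ne hn (by norm_num)) (by norm_num) hm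
  exact h.c3_s12 hν hn (by omega) (by omega) h1

theorem Tab.low4c (h : Tab R ν δ M V) (hn : V.natDegree = 4) (hR : 21 ≤ R) (hR' : R ≤ 25)
    (hν : ν ≤ ((harmonic R : ℚ) : ℝ) - (3 / 5 : ℚ)) : False := by
  obtain ⟨m, hm⟩ := lat4 hn h.zero (h.int1 (by omega)) (h.int2 (by omega))
  have h1 := one_le_of_int (lead_ne hn (by norm_num)) (by norm_num) hm
  exact h.c4_s21 hν hn (by omega) (by omega) h1

theorem g7 : harmonic 7 < 13 / 5 := by decide +kernel

theorem g11 : harmonic 11 < 31 / 10 := by decide +kernel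

theorem g20 : harmonic 20 < 18 / 5 := by decide +kernel

/-- there is no extremal curve for `ν ≤ H_R - 3/5` -/
theorem Tab.false_c (h : Tab R ν δ M V) (hR : 3 ≤ R)
    (hν : ν ≤ ((harmonic R : ℚ) : ℝ) - (3 / 5 : ℚ)) : False := by
  rcases Nat.lt_or_ge R 26 with hR1 | hR1
  · have hd := h.deg
    have hν' := hν
    push_cast at hν'
    have hR2 : R ≤ 25 := by omega
    have h25 := cast_le_of (S := 25) (c := 382 / 100) (by decide +kernel) hR2
    push_cast at h25
    have hlt : V.natDegree < 5 := by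
      by_contra hcon
      push Not at hcon
      have h2 : (5 : ℝ) ≤ V.natDegree := by exact_mod_cast hcon
      linarith
    rcases Nat.lt_or_ge V.natDegree 2 with h1 | h1
    · exact h.low1c (by omega) hR hR2 hν
    by_cases h2 : V.natDegree = 2
    · refine h.low2c h2 ?_ hR2 hν
      rw [h2] at hd
      refine lt_of_harmonic' g7 ?_
      push_cast at hd ⊢
      linarith
    by_cases h3 : V.natDegree = 3
    · refine h.low3c h3 ?_ hR2 hν
      rw [h3] at hd
      refine lt_of_harmonic' g11 ?_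
      push_cast at hd ⊢
      linarith
    have h4 : V.natDegree = 4 := by omega
    refine h.low4c h4 ?_ hR2 hν
    rw [h4] at hd
    refine lt_of_harmonic' g20 ?_
    push_cast at hd ⊢
    linarith
  · refine h.false_26 hR1 ?_
    push_cast at hν
    linarith

/-- A fixed irreducible polynomial does not vanish at `(a, b)` if `a` is large and if there is
no table. -/
theorem kill_of' {G : ℤ[X][Y]} (hG : Irreducible G) {ν : ℝ} (hν : 1 ≤ ν) {R : ℕ}
    (hR : 2 ≤ R) (hT : ∀ (δ : ℕ) (M : ℕ → ℕ → ℕ) (V : ℚ[X]), ¬ Tab R ν δ M V) :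
    ∃ N : ℕ, ∀ a b r : ℕ, N ≤ a → R ≤ r → NoCarry a b r → 0 < b →
      (b : ℝ) ≤ (a : ℝ) ^ ν → evalEval (a : ℤ) (b : ℤ) G ≠ 0 := by
  by_cases h0 : G.natDegree = 0
  · have h1 : G = C (G.coeff 0) := eq_C_of_natDegree_eq_zero h0
    have h2 : G.coeff 0 ≠ 0 := by
      intro h
      rw [h, C_0] at h1
      exact hG.ne_zero h1
    obtain ⟨x0, hx0⟩ := eventually_abs_lt (S := 0) (A := G.coeff 0) (by
      rw [degree_zero]
      exact bot_lt_iff_ne_bot.2 (by rwa [Ne, degree_eq_bot]))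
    refine ⟨x0, fun a b r ha _ _ _ _ h => ?_⟩
    rw [h1, evalEval_C] at h
    have h4 := hx0 (a : ℤ) (by rw [Nat.abs_cast]; exact_mod_cast ha)
    rw [h] at h4
    simp at h4
  · have h1 : ¬ Rich R ν G := by
      intro hr
      obtain ⟨δ, M, V, h⟩ := tab_of_rich hG h0 hν hR hr
      exact hT δ M V h
    unfold Rich at h1
    push Not at h1
    obtain ⟨N, hN⟩ := h1
    exact ⟨N, fun a b r ha hr hnc hb hb' => hN a b r ha hr hnc hb hb'⟩

/-- If there is no table then `n > (q - r) ^ ν` for large `q - r`. -/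
theorem main_of' (R : ℕ) (ν : ℝ) (hν : ν < harmonic R) (hR : 1 < ν → 2 ≤ R)
    (hT : 1 < ν → ∀ (δ : ℕ) (M : ℕ → ℕ → ℕ) (V : ℚ[X]), ¬ Tab R ν δ M V) :
    ∃ A : ℕ, ∀ n q r : ℕ, R ≤ r → r + A ≤ q → q < n → DivCond n q r →
      ((q - r : ℕ) : ℝ) ^ ν < n := by
  rcases le_or_gt ν 1 with h1 | h1
  · refine ⟨1, fun n q r _ hq hqn _ => ?_⟩
    have e1 : (1 : ℝ) ≤ ((q - r : ℕ) : ℝ) := by exact_mod_cast (by omega : 1 ≤ q - r)
    calc ((q - r : ℕ) : ℝ) ^ ν ≤ ((q - r : ℕ) : ℝ) ^ (1 : ℝ) :=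
          Real.rpow_le_rpow_of_exponent_le e1 h1
      _ = ((q - r : ℕ) : ℝ) := Real.rpow_one _
      _ < n := by exact_mod_cast (by omega : q - r < n)
  · obtain ⟨𝓖, a0, hG, hcore⟩ := core R ν (harmonic R - ν) (by linarith) (by linarith) (by linarith)
    have hk : ∀ G : ℤ[X][Y], ∃ N : ℕ, G ∈ 𝓖 → ∀ a b r : ℕ, N ≤ a → R ≤ r →
        NoCarry a b r → 0 < b → (b : ℝ) ≤ (a : ℝ) ^ ν → evalEval (a : ℤ) (b : ℤ) G ≠ 0 := by
      intro G
      by_cases h : G ∈ 𝓖
      · obtain ⟨N, hN⟩ := kill_of' (hG G h) h1.le (hR h1) (hT h1)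
        exact ⟨N, fun _ => hN⟩
      · exact ⟨0, fun h' => absurd h' h⟩
    choose Nf hNf using hk
    refine ⟨max a0 (max 1 (𝓖.sup Nf)), ?_⟩
    intro n q r hr hq hqn hS
    by_contra hcon
    push Not at hcon
    have hR2 := hR h1
    have hnc := noCarry_of_div (by omega) hqn.le hS
    have e1 : a0 ≤ q - r := by
      have : a0 ≤ max a0 (max 1 (𝓖.sup Nf)) := le_max_left _ _
      omega
    have hb : ((n - q : ℕ) : ℝ) ≤ ((q - r : ℕ) : ℝ) ^ ν := by
      refine le_trans ?_ hcon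
      exact_mod_cast Nat.sub_le _ _
    obtain ⟨G, hGm, hG0⟩ := hcore (q - r) (n - q) r e1 hr hnc hb
    have e4 : Nf G ≤ 𝓖.sup Nf := Finset.le_sup hGm
    have e5 : 𝓖.sup Nf ≤ max a0 (max 1 (𝓖.sup Nf)) :=
      (le_max_right _ _).trans (le_max_right _ _)
    exact hNf G hGm (q - r) (n - q) r (by omega) hr hnc (by omega) hb hG0

/-- **Main theorem.** -/
theorem harmonic_all (R : ℕ) (ν : ℝ)
    (h : ν ≤ harmonic R - 3 / 5 ∨ (26 ≤ R ∧ ν < harmonic R)) :
    ∃ A : ℕ, ∀ n q r : ℕ, R ≤ r → r + A ≤ q → q < n → DivCond n q r →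
      ((q - r : ℕ) : ℝ) ^ ν < n := by
  have hν : ν < harmonic R := by
    rcases h with h | h
    · linarith
    · exact h.2
  have h3 : 1 < ν → 3 ≤ R := by
    intro h1
    rcases h with h | h
    · refine lt_of_harmonic' (S := 2) (c := 8 / 5) (by decide +kernel) ?_
      push_cast
      linarith
    · omega
  refine main_of' R ν hν (fun h1 => by have := h3 h1; omega) fun h1 δ M V hT => ?_
  rcases h with h | h
  · refine hT.false_c (h3 h1) ?_
    push_cast
    exact h
  · exact hT.false_26 h.1 h.2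

end Pool.Agent.K9h7.SH
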