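import Pool.Agent.K9h7.SG.Harm6

/-!
# The intersection inequality for an extremal curve and the adjunction inequality
-/

set_option autoImplicit false

open Finset Polynomial Polynomial.Bivariate

namespace Pool.Agent.K9h7.SH

open Pool.Agent.K9h7.SG Pool.Agent.R60.Steiner

theorem le_mult {x0 y0 : ℤ} {F : ℤ[X][Y]} (hF : F ≠ 0) {n : ℕ}
    (h : ∀ i j, i + j < n → cf (sh x0 y0 F) i j = 0) : n ≤ mult x0 y0 F := by
  obtain ⟨i, j, hij, hne⟩ := exists_mult (x0 := x0) (y0 := y0) hF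
  by_contra hcon
  exact hne (h i j (by omega))

/-- **The intersection inequality**: a polynomial `P` which is not divisible by `G` satisfies
`∑ mult P * mult G ≤ (weight of P) * deg_y G`. -/
theorem rich_bezout {G : ℤ[X][Y]} (hG : Irreducible G) (h0 : G.natDegree ≠ 0) {ν : ℝ}
    (hν : 0 < ν) {R : ℕ} (hR : 1 ≤ R) (hr : Rich R ν G) {P : ℤ[X][Y]} (hP : ¬ G ∣ P) {τ : ℝ}
    (hτ : ∀ i j, cf P i j ≠ 0 → (i : ℝ) + ν * j ≤ τ) :
    ∑ p ∈ (Icc 1 R).sigma (fun k => range k), (mult (-(p.1 : ℤ)) (p.2 : ℤ) P : ℝ) *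
      mult (-(p.1 : ℤ)) (p.2 : ℤ) G ≤ τ * G.natDegree := by
  classical
  obtain ⟨-, -, h⟩ := rich_structure hG h0 hν hR hr
  have hδ : (0 : ℝ) < G.natDegree := by exact_mod_cast Nat.pos_of_ne_zero h0
  set s := (Icc 1 R).sigma (fun k => range k) with hs
  have hmem : ∀ p ∈ s, 1 ≤ p.1 ∧ p.1 ≤ R ∧ p.2 < p.1 := by
    intro p hp
    rw [hs, mem_sigma, mem_Icc, mem_range] at hp
    exact ⟨hp.1.1, hp.1.2, hp.2⟩
  suffices hh : ∑ p ∈ s, (mult (-(p.1 : ℤ)) (p.2 : ℤ) P : ℝ) *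
      ((mult (-(p.1 : ℤ)) (p.2 : ℤ) G : ℝ) / G.natDegree) ≤ τ by
    have e : ∑ p ∈ s, (mult (-(p.1 : ℤ)) (p.2 : ℤ) P : ℝ) *
      ((mult (-(p.1 : ℤ)) (p.2 : ℤ) G : ℝ) / G.natDegree) =
      (∑ p ∈ s, (mult (-(p.1 : ℤ)) (p.2 : ℤ) P : ℝ) *
      mult (-(p.1 : ℤ)) (p.2 : ℤ) G) / G.natDegree := by
      rw [Finset.sum_div]
      exact Finset.sum_congr rfl fun p _ => by ring
    rw [e, div_le_iff₀ hδ] at hh
    exact hh
  set m : (Σ _ : ℕ, ℕ) → ℕ := fun p => mult (-(p.1 : ℤ)) (p.2 : ℤ) P with hm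
  set T : ℝ := 1 + ∑ p ∈ s, (m p : ℝ) with hT
  have hT0 : 0 < T := by
    have : 0 ≤ ∑ p ∈ s, (m p : ℝ) := Finset.sum_nonneg fun _ _ => Nat.cast_nonneg _
    linarith
  refine le_of_forall_pos_le_add fun e he => ?_
  obtain ⟨N1, hN1⟩ := ne_zero_of_not_dvd hG h0 hP
  obtain ⟨K, hK1, hK⟩ := growth_bound P hτ
  obtain ⟨N2, hN2⟩ := exists_nat_gt (Real.exp (Real.log K / (e / 2)))
  obtain ⟨a, b, ha, ha2, hb0, hb, hab, hc⟩ := h (e / 2 / T) (by positivity) (max N1 N2)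
  have ha1 : N1 ≤ a := (le_max_left _ _).trans ha
  have ha3 : N2 ≤ a := (le_max_right _ _).trans ha
  have haR : (0 : ℝ) < a := by exact_mod_cast (by omega : 0 < a)
  have hL : 0 < Real.log a := Real.log_pos (by exact_mod_cast (by omega : 1 < a))
  have h3 : Real.log K ≤ e / 2 * Real.log a := by
    have : Real.log K / (e / 2) ≤ Real.log a := by
      rw [Real.le_log_iff_exp_le haR]
      have : (N2 : ℝ) ≤ a := by exact_mod_cast ha3
      linarith
    rw [div_le_iff₀ (by positivity)] at this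
    linarith
  have hne := hN1 (a : ℤ) (b : ℤ) (by rw [Nat.abs_cast]; exact_mod_cast ha1) hab
  have hdvd : (∏ p ∈ s, (cellD R a b p.1 p.2 : ℤ) ^ m p) ∣ evalEval (a : ℤ) (b : ℤ) P := by
    refine Finset.prod_dvd_of_coprime ?_ ?_
    · intro p hp p' hp' hne
      rw [Finset.mem_coe] at hp hp'
      obtain ⟨a1, a2, -⟩ := hmem p hp
      obtain ⟨b1, b2, -⟩ := hmem p' hp'
      refine IsCoprime.pow (Nat.isCoprime_iff_coprime.2 (cellD_coprime a1 a2 b1 b2 ?_))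
      intro heq
      apply hne
      obtain ⟨x, y⟩ := p
      obtain ⟨x', y'⟩ := p'
      simp only [Prod.mk.injEq] at heq
      rw [heq.1, heq.2]
    · intro p hp
      obtain ⟨a1, a2, a3⟩ := hmem p hp
      have h4 : (cellD R a b p.1 p.2 : ℤ) ∣ (a : ℤ) - (-(p.1 : ℤ)) := by
        rw [sub_neg_eq_add]
        exact_mod_cast cellD_dvd (R := R) (a := a) (b := b) (k := p.1) (i := p.2) (by omega)
      have h5 := dvd_evalEval (F := sh (-(p.1 : ℤ)) (p.2 : ℤ) P) (m := m p)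
        (fun i j hij => cf_of_lt_mult hij) h4 (cellD_dvd_sub R a b p.1 p.2)
      rwa [sh_eval] at h5
  have hle : (∏ p ∈ s, (cellD R a b p.1 p.2 : ℝ) ^ m p) ≤
      |((evalEval (a : ℤ) (b : ℤ) P : ℤ) : ℝ)| := by
    have h4 := Int.le_of_dvd (abs_pos.2 hne) ((dvd_abs _ _).2 hdvd)
    exact_mod_cast h4
  have hle2 := hle.trans (hK a b (by omega) hb)
  have hpos : ∀ p : (Σ _ : ℕ, ℕ), (0 : ℝ) < cellD R a b p.1 p.2 := fun p => by
    exact_mod_cast cellD_pos _ _ _ _ _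
  have hlog := Real.log_le_log (Finset.prod_pos fun p _ => pow_pos (hpos p) _) hle2
  rw [Real.log_prod (fun p _ => (pow_pos (hpos p) _).ne'), Real.log_mul (by linarith) (by positivity),
    Real.log_rpow haR] at hlog
  have hsum : ∑ p ∈ s, (m p : ℝ) * (((mult (-(p.1 : ℤ)) (p.2 : ℤ) G : ℝ) / G.natDegree -
      e / 2 / T) * Real.log a) ≤ ∑ p ∈ s, Real.log ((cellD R a b p.1 p.2 : ℝ) ^ m p) := by
    refine Finset.sum_le_sum fun p hp => ?_
    obtain ⟨a1, a2, a3⟩ := hmem p hp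
    rw [Real.log_pow]
    exact mul_le_mul_of_nonneg_left (hc p.1 p.2 a1 a2 a3) (Nat.cast_nonneg _)
  have h6 : ∑ p ∈ s, (m p : ℝ) * (((mult (-(p.1 : ℤ)) (p.2 : ℤ) G : ℝ) / G.natDegree -
      e / 2 / T) * Real.log a) = (∑ p ∈ s, (m p : ℝ) *
      ((mult (-(p.1 : ℤ)) (p.2 : ℤ) G : ℝ) / G.natDegree)) * Real.log a -
      (∑ p ∈ s, (m p : ℝ)) * (e / 2 / T) * Real.log a := by
    rw [Finset.sum_mul, Finset.sum_mul, Finset.sum_mul, ← Finset.sum_sub_distrib]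
    exact Finset.sum_congr rfl fun p _ => by ring
  have h7 : (∑ p ∈ s, (m p : ℝ)) * (e / 2 / T) ≤ e / 2 := by
    have h8 : ∑ p ∈ s, (m p : ℝ) ≤ T := by rw [hT]; linarith
    calc (∑ p ∈ s, (m p : ℝ)) * (e / 2 / T) ≤ T * (e / 2 / T) :=
          mul_le_mul_of_nonneg_right h8 (by positivity)
      _ = e / 2 := by field_simp
  have h8 := mul_le_mul_of_nonneg_right h7 hL.le
  rw [h6] at hsum
  have h9 : (∑ p ∈ s, (m p : ℝ) * ((mult (-(p.1 : ℤ)) (p.2 : ℤ) G : ℝ) / G.natDegree)) *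
      Real.log a ≤ (τ + e) * Real.log a := by
    have e1 : (τ + e) * Real.log a = τ * Real.log a + e / 2 * Real.log a + e / 2 * Real.log a := by
      ring
    rw [e1]
    linarith
  exact le_of_mul_le_mul_right h9 hL

theorem cf_derivative (F : ℤ[X][Y]) (i j : ℕ) :
    cf (derivative F) i j = cf F i (j + 1) * (j + 1) := by
  unfold cf
  rw [coeff_derivative]
  have h1 : ((j : ℤ[X]) + 1) = C ((j : ℤ) + 1) := by simp
  rw [h1, coeff_mul_C]

theorem sh_derivative (x0 y0 : ℤ) (F : ℤ[X][Y]) :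
    sh x0 y0 (derivative F) = derivative (sh x0 y0 F) := by
  rw [sh_apply, sh_apply, ← derivative_map, taylor_apply, taylor_apply, derivative_comp]
  simp

theorem mult_derivative {x0 y0 : ℤ} {F : ℤ[X][Y]} (hF : derivative F ≠ 0) :
    mult x0 y0 F - 1 ≤ mult x0 y0 (derivative F) := by
  refine le_mult hF fun i j hij => ?_
  rw [sh_derivative, cf_derivative, cf_of_lt_mult (by omega), zero_mul]

/-- **The adjunction inequality.** -/
theorem adjunction {G : ℤ[X][Y]} (hG : Irreducible G) (h0 : G.natDegree ≠ 0) {ν : ℝ}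
    (hν : 0 < ν) {R : ℕ} (hR : 1 ≤ R) (hr : Rich R ν G) :
    ∑ k ∈ Icc 1 R, ∑ i ∈ range k, (mult (-(k : ℤ)) (i : ℤ) G : ℝ) ^ 2 ≤
      ν * G.natDegree ^ 2 + (R - ν) * G.natDegree := by
  obtain ⟨hw, hsum, -⟩ := rich_structure hG h0 hν hR hr
  have hd0 : derivative G ≠ 0 := by
    intro h
    exact h0 (natDegree_eq_zero_of_derivative_eq_zero h)
  have hnd : ¬ G ∣ derivative G := by
    intro h
    have h1 := natDegree_le_of_dvd h hd0
    have h2 := natDegree_derivative_lt h0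
    omega
  have h1 := rich_bezout hG h0 hν hR hr hnd (τ := ν * G.natDegree - ν) (by
    intro i j hij
    rw [cf_derivative] at hij
    have h2 := hw i (j + 1) (left_ne_zero_of_mul hij)
    push_cast at h2
    linarith)
  rw [Finset.sum_sigma] at h1
  have h2 : ∀ k ∈ Icc 1 R, (∑ i ∈ range k, (mult (-(k : ℤ)) (i : ℤ) G : ℝ) ^ 2) - G.natDegree ≤
      ∑ i ∈ range k, (mult (-(k : ℤ)) (i : ℤ) (derivative G) : ℝ) * mult (-(k : ℤ)) (i : ℤ) G := by
    intro k hk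
    rw [mem_Icc] at hk
    have h3 : (G.natDegree : ℝ) = ∑ i ∈ range k, (mult (-(k : ℤ)) (i : ℤ) G : ℝ) := by
      rw [← hsum k hk.1 hk.2]
      push_cast
      rfl
    rw [h3, ← Finset.sum_sub_distrib]
    refine Finset.sum_le_sum fun i _ => ?_
    have h4 : (mult (-(k : ℤ)) (i : ℤ) G : ℝ) - 1 ≤ mult (-(k : ℤ)) (i : ℤ) (derivative G) := by
      have h5 := mult_derivative (x0 := -(k : ℤ)) (y0 := i) hd0
      have h6 : mult (-(k : ℤ)) (i : ℤ) G ≤ mult (-(k : ℤ)) (i : ℤ) (derivative G) + 1 := by omega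
      have h7 : (mult (-(k : ℤ)) (i : ℤ) G : ℝ) ≤ mult (-(k : ℤ)) (i : ℤ) (derivative G) + 1 := by
        exact_mod_cast h6
      linarith
    have h8 := mul_le_mul_of_nonneg_right h4
      (Nat.cast_nonneg (α := ℝ) (mult (-(k : ℤ)) (i : ℤ) G))
    calc (mult (-(k : ℤ)) (i : ℤ) G : ℝ) ^ 2 - mult (-(k : ℤ)) (i : ℤ) G =
          ((mult (-(k : ℤ)) (i : ℤ) G : ℝ) - 1) * mult (-(k : ℤ)) (i : ℤ) G := by ring
      _ ≤ _ := h8
  have h3 := (Finset.sum_le_sum h2).trans h1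
  rw [Finset.sum_sub_distrib, Finset.sum_const, Nat.card_Icc, nsmul_eq_mul, Nat.add_sub_cancel] at h3
  nlinarith [h3]

end Pool.Agent.K9h7.SH
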