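import Pool.Agent.K9h7.SH.Coef
import Pool.Agent.K9h7.SG.Harm7

/-!
# The leading coefficient of a bounded polynomial of large degree
-/

set_option autoImplicit false

open Finset Polynomial

namespace Pool.Agent.K9h7.SH

open Pool.Agent.K9h7.SG

theorem kill_big {V : ℚ[X]} {δ s n : ℕ} (hn : V.natDegree = n) (hn1 : 1 ≤ n) (hs : 1 ≤ s)
    (h0 : V.eval 0 = 0)
    (hb : ∀ t : ℕ, t ≤ s * n ^ 2 → 0 ≤ V.eval (t : ℚ) ∧ V.eval (t : ℚ) ≤ δ / 4)
    (hz : ∀ t : ℕ, t ≤ n + 2 → ∃ z : ℤ, ((t : ℚ) + 1) ^ 2 * V.eval (t : ℚ) = z) :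
    2 * (s : ℚ) ^ n * (n.factorial : ℚ) ≤ n * (n + 1) * (n + 2) * δ := by
  classical
  have hi := int_lead hn (by omega) hz
  have hV0 : V ≠ 0 := by
    rintro rfl
    rw [natDegree_zero] at hn
    omega
  have hs0 : (0 : ℚ) < s := by exact_mod_cast hs
  have hinj : Set.InjOn (fun i : ℕ => (s : ℚ) * (i : ℚ) ^ 2) (range (n + 1) : Finset ℕ) := by
    intro i _ i' _ h
    have h2 : (s : ℚ) * (i : ℚ) ^ 2 = s * (i' : ℚ) ^ 2 := h
    have h3 := mul_left_cancel₀ hs0.ne' h2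
    have h4 : i ^ 2 = i' ^ 2 := by exact_mod_cast h3
    exact Nat.pow_left_injective (by norm_num : 2 ≠ 0) h4
  have hdeg : V.degree = n := by rw [degree_eq_natDegree hV0, hn]
  have h1 := Lagrange.leadingCoeff_eq_sum hinj (P := V) (by rw [hdeg, card_range]; rfl)
  have hf : (0 : ℚ) < (n.factorial : ℚ) := by exact_mod_cast Nat.factorial_pos n
  have h2 : |V.coeff n| ≤ n * (δ / (2 * (s : ℚ) ^ n * (n.factorial : ℚ) ^ 2)) := by
    have h3 : V.coeff n = V.leadingCoeff := by rw [leadingCoeff, hn]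
    rw [h3, h1]
    have h4 : range (n + 1) = insert 0 (Icc 1 n) := by
      ext x
      rw [mem_range, mem_insert, mem_Icc]
      omega
    conv_lhs => rw [h4]
    rw [Finset.sum_insert (by rw [mem_Icc]; omega), ← h4]
    have h5 : V.eval ((s : ℚ) * ((0 : ℕ) : ℚ) ^ 2) = 0 := by
      rw [Nat.cast_zero, zero_pow (by norm_num), mul_zero, h0]
    rw [h5, zero_div, zero_add]
    refine (Finset.abs_sum_le_sum_abs _ _).trans ?_
    have h6 : ∀ j ∈ Icc 1 n, |V.eval ((s : ℚ) * (j : ℚ) ^ 2) /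
        ∏ i ∈ (range (n + 1)).erase j, ((s : ℚ) * (j : ℚ) ^ 2 - (s : ℚ) * (i : ℚ) ^ 2)| ≤
        δ / (2 * (s : ℚ) ^ n * (n.factorial : ℚ) ^ 2) := by
      intro j hj
      rw [mem_Icc] at hj
      obtain ⟨b1, b2⟩ := hb (s * j ^ 2) (Nat.mul_le_mul_left _ (Nat.pow_le_pow_left hj.2 2))
      push_cast at b1 b2
      rw [abs_div, abs_of_nonneg b1, Finset.abs_prod]
      have h7 : ∏ i ∈ (range (n + 1)).erase j, |(s : ℚ) * (j : ℚ) ^ 2 - (s : ℚ) * (i : ℚ) ^ 2| =
          (s : ℚ) ^ n * ∏ i ∈ (range (n + 1)).erase j, |(j : ℚ) ^ 2 - (i : ℚ) ^ 2| := by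
        have h8 : ∀ i ∈ (range (n + 1)).erase j, |(s : ℚ) * (j : ℚ) ^ 2 - (s : ℚ) * (i : ℚ) ^ 2| =
            s * |(j : ℚ) ^ 2 - (i : ℚ) ^ 2| := by
          intro i _
          rw [← mul_sub, abs_mul, abs_of_pos hs0]
        rw [Finset.prod_congr rfl h8, Finset.prod_mul_distrib, Finset.prod_const,
          Finset.card_erase_of_mem (by rw [mem_range]; omega), card_range, Nat.add_sub_cancel]
      rw [h7]
      have h9 := prod_nodes j hj.1 n hj.2
      have h10 : (n.factorial : ℚ) ^ 2 ≤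
          2 * ∏ i ∈ (range (n + 1)).erase j, |(j : ℚ) ^ 2 - (i : ℚ) ^ 2| := by
        rw [h9]
        exact_mod_cast fact_sq_le n j hj.2
      set B := ∏ i ∈ (range (n + 1)).erase j, |(j : ℚ) ^ 2 - (i : ℚ) ^ 2|
      have hB : 0 < B := by
        have : (0 : ℚ) < (n.factorial : ℚ) ^ 2 := by positivity
        linarith
      rw [div_le_div_iff₀ (by positivity) (by positivity)]
      have hsn : (0 : ℚ) < (s : ℚ) ^ n := by positivity
      calc V.eval ((s : ℚ) * (j : ℚ) ^ 2) * (2 * (s : ℚ) ^ n * (n.factorial : ℚ) ^ 2) ≤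
            (δ / 4) * (2 * (s : ℚ) ^ n * (2 * B)) := by
            refine mul_le_mul b2 ?_ (by positivity) (by positivity)
            exact mul_le_mul_of_nonneg_left h10 (by positivity)
        _ = δ * ((s : ℚ) ^ n * B) := by ring
    refine (Finset.sum_le_sum h6).trans ?_
    rw [Finset.sum_const, Nat.card_Icc, nsmul_eq_mul, Nat.add_sub_cancel]
  have hfac : ((n + 2).factorial : ℚ) = (n + 2) * (n + 1) * (n.factorial : ℚ) := by
    rw [Nat.factorial_succ, Nat.factorial_succ]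
    push_cast
    ring
  have h3 : 1 ≤ n * (δ / (2 * (s : ℚ) ^ n * (n.factorial : ℚ) ^ 2)) * ((n + 2) * (n + 1) *
      (n.factorial : ℚ)) := by
    rw [hfac] at hi
    exact hi.trans (mul_le_mul_of_nonneg_right h2 (by positivity))
  have h4 : n * (δ / (2 * (s : ℚ) ^ n * (n.factorial : ℚ) ^ 2)) * ((n + 2) * (n + 1) *
      (n.factorial : ℚ)) = (n * (n + 1) * (n + 2) * δ) / (2 * (s : ℚ) ^ n * n.factorial) := by
    field_simp
  rw [h4, le_div_iff₀ (by positivity), one_mul] at h3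
  exact h3

theorem fact_large (n : ℕ) (hn : 10 ≤ n) : n ^ 5 * (n + 1) * (n + 2) < 15 * n.factorial := by
  induction n, hn using Nat.le_induction with
  | base => norm_num [Nat.factorial]
  | succ n hn ih =>
    rw [Nat.factorial_succ]
    have h1 : (n + 1) ^ 5 * (n + 1 + 1) * (n + 1 + 2) ≤ (n + 1) * (n ^ 5 * (n + 1) * (n + 2)) := by
      obtain ⟨m, rfl⟩ : ∃ m, n = m + 10 := ⟨n - 10, by omega⟩
      have : (m + 10 + 1) ^ 4 * (m + 10 + 1 + 2) ≤ (m + 10) ^ 5 * (m + 10 + 1) := by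
        ring_nf
        nlinarith [Nat.zero_le m, Nat.zero_le (m ^ 2), Nat.zero_le (m ^ 3), Nat.zero_le (m ^ 4),
          Nat.zero_le (m ^ 5), Nat.zero_le (m ^ 6)]
      calc (m + 10 + 1) ^ 5 * (m + 10 + 1 + 1) * (m + 10 + 1 + 2) =
            ((m + 10 + 1) * (m + 10 + 2)) * ((m + 10 + 1) ^ 4 * (m + 10 + 1 + 2)) := by ring
        _ ≤ ((m + 10 + 1) * (m + 10 + 2)) * ((m + 10) ^ 5 * (m + 10 + 1)) :=
            Nat.mul_le_mul_left _ this
        _ = _ := by ring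
    calc (n + 1) ^ 5 * (n + 1 + 1) * (n + 1 + 2) ≤ (n + 1) * (n ^ 5 * (n + 1) * (n + 2)) := h1
      _ < (n + 1) * (15 * n.factorial) := Nat.mul_lt_mul_of_pos_left ih (by omega)
      _ = 15 * ((n + 1) * n.factorial) := by ring

end Pool.Agent.K9h7.SH
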