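import Pool.Agent.K9h7.SH.Row
import Pool.Agent.K9h7.SH.Coef2

/-!
# Certificates for the excess
-/

set_option autoImplicit false

open Finset Polynomial

namespace Pool.Agent.K9h7.SH

variable {R : ℕ} {ν : ℝ} {δ : ℕ} {M : ℕ → ℕ → ℕ} {V : ℚ[X]}

/-- nodes and coefficients for degree 2 -/
def xs2 (j : ℕ) : ℕ := ([3, 43, 78] : List ℕ).getD j 0

/-- coefficients for degree 2 -/
def cs2 (j : ℕ) : ℚ := (([3913, -585, 172] : List ℤ).getD j 0 : ℤ)

theorem Tab.e2 (h : Tab R ν δ M V) (hn : V.natDegree = 2) (hR : 80 ≤ R) :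
    (943 / 5000) * (δ : ℚ) ^ 2 ≤ ∑ k ∈ Icc 1 R, ex M δ k :=
  h.cert (n := 2) (m := 3) (X := 78) hn.le xs2 cs2 (943 / 5000) hR (by decide +kernel)
    (by decide +kernel) (by decide +kernel) (by decide +kernel) (by decide +kernel)

/-- nodes and coefficients for degree 3 -/
def xs3 (j : ℕ) : ℕ := ([2, 23, 61, 78] : List ℕ).getD j 0

/-- coefficients for degree 3 -/
def cs3 (j : ℕ) : ℚ := (([-17053465, 3181516, -1381380, 579439] : List ℤ).getD j 0 : ℤ)

theorem Tab.e3 (h : Tab R ν δ M V) (hn : V.natDegree = 3) (hR : 80 ≤ R) :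
    (273 / 2000) * (δ : ℚ) ^ 2 ≤ ∑ k ∈ Icc 1 R, ex M δ k :=
  h.cert (n := 3) (m := 4) (X := 78) hn.le xs3 cs3 (273 / 2000) hR (by decide +kernel)
    (by decide +kernel) (by decide +kernel) (by decide +kernel) (by decide +kernel)

/-- nodes and coefficients for degree 4 -/
def xs4 (j : ℕ) : ℕ := ([1, 16, 42, 68, 78] : List ℕ).getD j 0

/-- coefficients for degree 4 -/
def cs4 (j : ℕ) : ℚ := (([205201152, -32362407, 15535960, -10569636, 4856696] : List ℤ).getD j 0 : ℤ)

theorem Tab.e4 (h : Tab R ν δ M V) (hn : V.natDegree = 4) (hR : 80 ≤ R) :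
    (231 / 2500) * (δ : ℚ) ^ 2 ≤ ∑ k ∈ Icc 1 R, ex M δ k :=
  h.cert (n := 4) (m := 5) (X := 78) hn.le xs4 cs4 (231 / 2500) hR (by decide +kernel)
    (by decide +kernel) (by decide +kernel) (by decide +kernel) (by decide +kernel)

/-- nodes and coefficients for degree 5 -/
def xs5 (j : ℕ) : ℕ := ([1, 11, 29, 53, 71, 78] : List ℕ).getD j 0

/-- coefficients for degree 5 -/
def cs5 (j : ℕ) : ℚ := (([-8291251206, 1946389172, -901332575, 520496669, -412327916, 188571456] : List ℤ).getD j 0 : ℤ)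

theorem Tab.e5 (h : Tab R ν δ M V) (hn : V.natDegree = 5) (hR : 80 ≤ R) :
    (337 / 5000) * (δ : ℚ) ^ 2 ≤ ∑ k ∈ Icc 1 R, ex M δ k :=
  h.cert (n := 5) (m := 6) (X := 78) hn.le xs5 cs5 (337 / 5000) hR (by decide +kernel)
    (by decide +kernel) (by decide +kernel) (by decide +kernel) (by decide +kernel)

/-- nodes and coefficients for degree 6 -/
def xs6 (j : ℕ) : ℕ := ([1, 8, 22, 41, 60, 73, 78] : List ℕ).getD j 0

/-- coefficients for degree 6 -/
def cs6 (j : ℕ) : ℚ := (([2297107207460, -721753803054, 331259553300, -190992859785, 142060769620, -121907829659, 56353149788] : List ℤ).getD j 0 : ℤ)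

theorem Tab.e6 (h : Tab R ν δ M V) (hn : V.natDegree = 6) (hR : 80 ≤ R) :
    (463 / 10000) * (δ : ℚ) ^ 2 ≤ ∑ k ∈ Icc 1 R, ex M δ k :=
  h.cert (n := 6) (m := 7) (X := 78) hn.le xs6 cs6 (463 / 10000) hR (by decide +kernel)
    (by decide +kernel) (by decide +kernel) (by decide +kernel) (by decide +kernel)

/-- nodes and coefficients for degree 7 -/
def xs7 (j : ℕ) : ℕ := ([1, 6, 17, 32, 49, 64, 75, 78] : List ℕ).getD j 0

/-- coefficients for degree 7 -/
def cs7 (j : ℕ) : ℚ := (([-4361395768080, 1753137930880, -780410128680, 447692629230, -299511934920, 229389258345, -227434109952, 126103932800] : List ℤ).getD j 0 : ℤ)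

theorem Tab.e7 (h : Tab R ν δ M V) (hn : V.natDegree = 7) (hR : 80 ≤ R) :
    (303 / 10000) * (δ : ℚ) ^ 2 ≤ ∑ k ∈ Icc 1 R, ex M δ k :=
  h.cert (n := 7) (m := 8) (X := 78) hn.le xs7 cs7 (303 / 10000) hR (by decide +kernel)
    (by decide +kernel) (by decide +kernel) (by decide +kernel) (by decide +kernel)

/-- nodes and coefficients for degree 8 -/
def xs8 (j : ℕ) : ℕ := ([1, 5, 14, 26, 40, 55, 67, 75, 78] : List ℕ).getD j 0

/-- coefficients for degree 8 -/
def cs8 (j : ℕ) : ℚ := (([349447923570186028000, -171675422811754845984, 82987472371979896875, -51787786920974478000, 33608557547233573520, -24610017287233954576, 21181305659666425000, -18442693294971258456, 8549361590511853125] : List ℤ).getD j 0 : ℤ)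

theorem Tab.e8 (h : Tab R ν δ M V) (hn : V.natDegree = 8) (hR : 80 ≤ R) :
    (189 / 10000) * (δ : ℚ) ^ 2 ≤ ∑ k ∈ Icc 1 R, ex M δ k :=
  h.cert (n := 8) (m := 9) (X := 78) hn.le xs8 cs8 (189 / 10000) hR (by decide +kernel)
    (by decide +kernel) (by decide +kernel) (by decide +kernel) (by decide +kernel)

/-- nodes and coefficients for degree 9 -/
def xs9 (j : ℕ) : ℕ := ([1, 6, 17, 33, 53, 74, 94, 110, 121, 124] : List ℕ).getD j 0

/-- coefficients for degree 9 -/
def cs9 (j : ℕ) : ℚ := (([-604378654444489444072245, 248479609981210777221360, -112259052286124298728250, 62454674383692236631975, -39766397956693941825600, 28809069554143072049856, -22884330014395215325960, 19463764194777562195800, -20193246541172776661240, 11210841652154919439104] : List ℤ).getD j 0 : ℤ)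

theorem Tab.e9 (h : Tab R ν δ M V) (hn : V.natDegree = 9) (hR : 126 ≤ R) :
    (289 / 10000) * (δ : ℚ) ^ 2 ≤ ∑ k ∈ Icc 1 R, ex M δ k :=
  h.cert (n := 9) (m := 10) (X := 124) hn.le xs9 cs9 (289 / 10000) hR (by decide +kernel)
    (by decide +kernel) (by decide +kernel) (by decide +kernel) (by decide +kernel)

/-- nodes and coefficients for degree 10 -/
def xs10 (j : ℕ) : ℕ := ([1, 3, 6, 10, 15, 21, 28, 36, 45, 55, 66] : List ℕ).getD j 0

/-- coefficients for degree 10 -/
def cs10 (j : ℕ) : ℚ := (([149226, -177650, 149226, -95931, 48279, -19019, 5775, -1309, 209, -21, 1] : List ℤ).getD j 0 : ℤ)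

theorem Tab.e10 (h : Tab R ν δ M V) (hn : V.natDegree = 10) (hR : 68 ≤ R) :
    (3 / 3125) * (δ : ℚ) ^ 2 ≤ ∑ k ∈ Icc 1 R, ex M δ k :=
  h.cert (n := 10) (m := 11) (X := 66) hn.le xs10 cs10 (3 / 3125) hR (by decide +kernel)
    (by decide +kernel) (by decide +kernel) (by decide +kernel) (by decide +kernel)

/-- nodes and coefficients for degree 11 -/
def xs11 (j : ℕ) : ℕ := ([1, 3, 6, 10, 15, 21, 28, 36, 45, 55, 66, 78] : List ℕ).getD j 0

/-- coefficients for degree 11 -/
def cs11 (j : ℕ) : ℚ := (([-534888, 653752, -572033, 389367, -211508, 92092, -31878, 8602, -1748, 252, -23, 1] : List ℤ).getD j 0 : ℤ)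

theorem Tab.e11 (h : Tab R ν δ M V) (hn : V.natDegree = 11) (hR : 80 ≤ R) :
    (1 / 1250) * (δ : ℚ) ^ 2 ≤ ∑ k ∈ Icc 1 R, ex M δ k :=
  h.cert (n := 11) (m := 12) (X := 78) hn.le xs11 cs11 (1 / 1250) hR (by decide +kernel)
    (by decide +kernel) (by decide +kernel) (by decide +kernel) (by decide +kernel)

/-- nodes and coefficients for degree 12 -/
def xs12 (j : ℕ) : ℕ := ([1, 3, 6, 10, 15, 21, 28, 36, 45, 55, 66, 78, 91] : List ℕ).getD j 0

/-- coefficients for degree 12 -/
def cs12 (j : ℕ) : ℚ := (([1931540, -2414425, 2187185, -1562275, 904475, -427570, 164450, -50830, 12350, -2275, 299, -25, 1] : List ℤ).getD j 0 : ℤ)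

theorem Tab.e12 (h : Tab R ν δ M V) (hn : V.natDegree = 12) (hR : 93 ≤ R) :
    (17 / 25000) * (δ : ℚ) ^ 2 ≤ ∑ k ∈ Icc 1 R, ex M δ k :=
  h.cert (n := 12) (m := 13) (X := 91) hn.le xs12 cs12 (17 / 25000) hR (by decide +kernel)
    (by decide +kernel) (by decide +kernel) (by decide +kernel) (by decide +kernel)

/-- nodes and coefficients for degree 13 -/
def xs13 (j : ℕ) : ℕ := ([1, 3, 6, 10, 15, 21, 28, 36, 45, 55, 66, 78, 91, 105] : List ℕ).getD j 0

/-- coefficients for degree 13 -/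
def cs13 (j : ℕ) : ℚ := (([-7020405, 8947575, -8351070, 6216210, -3798795, 1924065, -807300, 278460, -77805, 17199, -2898, 350, -27, 1] : List ℤ).getD j 0 : ℤ)

theorem Tab.e13 (h : Tab R ν δ M V) (hn : V.natDegree = 13) (hR : 107 ≤ R) :
    (29 / 50000) * (δ : ℚ) ^ 2 ≤ ∑ k ∈ Icc 1 R, ex M δ k :=
  h.cert (n := 13) (m := 14) (X := 105) hn.le xs13 cs13 (29 / 50000) hR (by decide +kernel)
    (by decide +kernel) (by decide +kernel) (by decide +kernel) (by decide +kernel)

/-- nodes and coefficients for degree 14 -/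
def xs14 (j : ℕ) : ℕ := ([1, 3, 6, 10, 15, 21, 28, 36, 45, 55, 66, 78, 91, 105, 120] : List ℕ).getD j 0

/-- coefficients for degree 14 -/
def cs14 (j : ℕ) : ℚ := (([25662825, -33266625, 31865925, -24582285, 15737865, -8454225, 3817125, -1442025, 451269, -115101, 23345, -3625, 405, -29, 1] : List ℤ).getD j 0 : ℤ)

theorem Tab.e14 (h : Tab R ν δ M V) (hn : V.natDegree = 14) (hR : 122 ≤ R) :
    (1 / 2000) * (δ : ℚ) ^ 2 ≤ ∑ k ∈ Icc 1 R, ex M δ k :=
  h.cert (n := 14) (m := 15) (X := 120) hn.le xs14 cs14 (1 / 2000) hR (by decide +kernel)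
    (by decide +kernel) (by decide +kernel) (by decide +kernel) (by decide +kernel)

/-- nodes and coefficients for degree 15 -/
def xs15 (j : ℕ) : ℕ := ([1, 3, 6, 10, 15, 21, 28, 36, 45, 55, 66, 78, 91, 105, 120, 136] : List ℕ).getD j 0

/-- coefficients for degree 15 -/
def cs15 (j : ℕ) : ℚ := (([-94287120, 124062000, -121580760, 96768360, -64512240, 36463440, -17530500, 7152444, -2459664, 704816, -165416, 31000, -4464, 464, -31, 1] : List ℤ).getD j 0 : ℤ)

theorem Tab.e15 (h : Tab R ν δ M V) (hn : V.natDegree = 15) (hR : 138 ≤ R) :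
    (11 / 25000) * (δ : ℚ) ^ 2 ≤ ∑ k ∈ Icc 1 R, ex M δ k :=
  h.cert (n := 15) (m := 16) (X := 136) hn.le xs15 cs15 (11 / 25000) hR (by decide +kernel)
    (by decide +kernel) (by decide +kernel) (by decide +kernel) (by decide +kernel)

/-- nodes and coefficients for degree 16 -/
def xs16 (j : ℕ) : ℕ := ([1, 3, 6, 10, 15, 21, 28, 36, 45, 55, 66, 78, 91, 105, 120, 136, 153] : List ℕ).getD j 0

/-- coefficients for degree 16 -/
def cs16 (j : ℕ) : ℚ := (([347993910, -463991880, 463991880, -379629720, 262256280, -154969620, 78676884, -34295052, 12776588, -4034712, 1066648, -231880, 40392, -5423, 527, -33, 1] : List ℤ).getD j 0 : ℤ)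

theorem Tab.e16 (h : Tab R ν δ M V) (hn : V.natDegree = 16) (hR : 155 ≤ R) :
    (19 / 50000) * (δ : ℚ) ^ 2 ≤ ∑ k ∈ Icc 1 R, ex M δ k :=
  h.cert (n := 16) (m := 17) (X := 153) hn.le xs16 cs16 (19 / 50000) hR (by decide +kernel)
    (by decide +kernel) (by decide +kernel) (by decide +kernel) (by decide +kernel)

end Pool.Agent.K9h7.SH
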