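import Pool.Agent.K9h7.SH.LeadC

/-!
# Certificates for small strengths
-/

set_option autoImplicit false

open Finset Polynomial

namespace Pool.Agent.K9h7.SH

variable {R : ℕ} {ν : ℝ} {δ : ℕ} {M : ℕ → ℕ → ℕ} {V : ℚ[X]}

/-- weights for degree 2 -/
def va2_s11 (x : ℕ) : ℚ := (([-14015483570306, -19601128524895, -21063962446419, -19016416211798, -14192625761705, -7201154839748, 1491457666683, 11533593620711, 22659599780121] : List ℤ).getD (x - 1) 0 : ℤ) / 100000000000

/-- weights for degree 2 -/
def vb2_s11 (x : ℕ) : ℚ := (([-14402939226787, -13054959945194, -10063861089787, -6704629539011, -3438018943227, -418834945689, 2315872090059, 4774189225433, 6980160722108] : List ℤ).getD (x - 1) 0 : ℤ) / 10000000000000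

theorem Tab.c2_s11 (h : Tab R ν δ M V) (hν : ν ≤ ((harmonic R : ℚ) : ℝ) - (3 / 5 : ℚ)) (hn : V.natDegree = 2)
    (hR : 11 ≤ R) (hR' : R ≤ 11) (hN : 1 ≤ |V.coeff 2| * 12) : False :=
  h.leadc (g := 3 / 5) (by norm_num) hν (n := 2) (X := 9) (by norm_num) hn (by omega) va2_s11 vb2_s11
    (by decide +kernel) (by decide +kernel) (P := (72317173 / 5000)) (Q := (618918729 / 10000000)) (E := (28900071 / 31250000))
    (κ := (115653867981 / 1000000000)) (N := 12) (s := (429006133 / 50000000)) (by norm_num) (by decide +kernel)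
    (by decide +kernel) (by decide +kernel) (by decide +kernel) (by norm_num) (by norm_num) hN
    ((add_le_add (sub_harmonic_mono hR') le_rfl).trans (by decide +kernel)) (by norm_num) (by norm_num)

/-- weights for degree 2 -/
def va2_s12 (x : ℕ) : ℚ := (([-15704632430133, -22451567225834, -24924874125998, -23729443164409, -19622032811113, -13236342953464, -5060392456239, 4537062263861, 15276956162045, 26946202731816] : List ℤ).getD (x - 1) 0 : ℤ) / 100000000000

/-- weights for degree 2 -/
def vb2_s12 (x : ℕ) : ℚ := (([-14839606397832, -13791835796347, -11061957480766, -7923008922531, -4841591993042, -1979010358932, 622132759912, 2965493954421, 5071650359112, 6965947405499] : List ℤ).getD (x - 1) 0 : ℤ) / 10000000000000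

theorem Tab.c2_s12 (h : Tab R ν δ M V) (hν : ν ≤ ((harmonic R : ℚ) : ℝ) - (3 / 5 : ℚ)) (hn : V.natDegree = 2)
    (hR : 12 ≤ R) (hR' : R ≤ 13) (hN : 1 ≤ |V.coeff 2| * 12) : False :=
  h.leadc (g := 3 / 5) (by norm_num) hν (n := 2) (X := 10) (by norm_num) hn (by omega) va2_s12 vb2_s12
    (by decide +kernel) (by decide +kernel) (P := (45958029 / 2000)) (Q := (104882207 / 1250000)) (E := (981711077 / 1000000000))
    (κ := (75097857947 / 500000000)) (N := 12) (s := (104198663 / 10000000)) (by norm_num) (by decide +kernel)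
    (by decide +kernel) (by decide +kernel) (by decide +kernel) (by norm_num) (by norm_num) hN
    ((add_le_add (sub_harmonic_mono hR') le_rfl).trans (by decide +kernel)) (by norm_num) (by norm_num)

/-- weights for degree 2 -/
def va2_s14 (x : ℕ) : ℚ := (([-19064047747486, -28120580573877, -32603537708532, -33102811795431, -30420153474051, -25239253931109, -18090851869023, -9377788681334, 594196907856, 11591182857489, 23432212891072, 35975640845493] : List ℤ).getD (x - 1) 0 : ℤ) / 100000000000

/-- weights for degree 2 -/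
def vb2_s14 (x : ℕ) : ℚ := (([-15528878275527, -14954982089956, -12637436058354, -9846200545563, -7057108742774, -4441721338612, -2051406644479, 110498506470, 2059098446111, 3815463651339, 5401369065617, 6837175063976] : List ℤ).getD (x - 1) 0 : ℤ) / 10000000000000

theorem Tab.c2_s14 (h : Tab R ν δ M V) (hν : ν ≤ ((harmonic R : ℚ) : ℝ) - (3 / 5 : ℚ)) (hn : V.natDegree = 2)
    (hR : 14 ≤ R) (hR' : R ≤ 18) (hN : 1 ≤ |V.coeff 2| * 12) : False :=
  h.leadc (g := 3 / 5) (by norm_num) hν (n := 2) (X := 12) (by norm_num) hn (by omega) va2_s14 vb2_s14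
    (by decide +kernel) (by decide +kernel) (P := (127816697 / 2500)) (Q := (2203204 / 15625)) (E := (54908377 / 50000000))
    (κ := (236950752449 / 1000000000)) (N := 12) (s := (3776223 / 250000)) (by norm_num) (by decide +kernel)
    (by decide +kernel) (by decide +kernel) (by decide +kernel) (by norm_num) (by norm_num) hN
    ((add_le_add (sub_harmonic_mono hR') le_rfl).trans (by decide +kernel)) (by norm_num) (by norm_num)

/-- weights for degree 2 -/
def va2_s19 (x : ℕ) : ℚ := (([-27382912849619, -42158665433738, -51618086513423, -56313930942027, -57159362730929, -54961865702297, -50357964992475, -43834906064629, -35764479237860, -26432201246042, -16059542319087, -4820222166563, 7147954302640, 19734480901539, 32849830970003, 46420777598471, 60386891222746] : List ℤ).getD (x - 1) 0 : ℤ) / 100000000000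

/-- weights for degree 2 -/
def vb2_s19 (x : ℕ) : ℚ := (([-16629746395552, -16812697042505, -15153706046991, -12917819184036, -10595613414295, -8375031392464, -6321440564591, -4449347286149, -2752388092476, -1216320235194, 175269858447, 1438498144995, 2588190975344, 3637570335462, 4598244019340, 5480324516032, 6292593064946] : List ℤ).getD (x - 1) 0 : ℤ) / 10000000000000

theorem Tab.c2_s19 (h : Tab R ν δ M V) (hν : ν ≤ ((harmonic R : ℚ) : ℝ) - (3 / 5 : ℚ)) (hn : V.natDegree = 2)
    (hR : 19 ≤ R) (hR' : R ≤ 25) (hN : 1 ≤ |V.coeff 2| * 12) : False :=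
  h.leadc (g := 3 / 5) (by norm_num) hν (n := 2) (X := 17) (by norm_num) hn (by omega) va2_s19 vb2_s19
    (by decide +kernel) (by decide +kernel) (P := (29228821 / 125)) (Q := (370242209 / 1000000)) (E := (139335957 / 100000000))
    (κ := (57079773973 / 100000000)) (N := 12) (s := (217840419 / 10000000)) (by norm_num) (by decide +kernel)
    (by decide +kernel) (by decide +kernel) (by decide +kernel) (by norm_num) (by norm_num) hN
    ((add_le_add (sub_harmonic_mono hR') le_rfl).trans (by decide +kernel)) (by norm_num) (by norm_num)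

/-- weights for degree 3 -/
def va3_s12 (x : ℕ) : ℚ := (([66299650018666, 69443927572443, 47552603751308, 14666772328245, -17650034152429, -40869931599452, -48820393168755, -37005864788786, -2106177846714, 58370262574040] : List ℤ).getD (x - 1) 0 : ℤ) / 100000000000

/-- weights for degree 3 -/
def vb3_s12 (x : ℕ) : ℚ := (([-91052037926241, -55938517834401, -19608681201269, 7415797781287, 23232134598800, 28541189647541, 24698886888416, 13088272491274, -5065901762862, -28732115708889] : List ℤ).getD (x - 1) 0 : ℤ) / 100000000000000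

theorem Tab.c3_s12 (h : Tab R ν δ M V) (hν : ν ≤ ((harmonic R : ℚ) : ℝ) - (3 / 5 : ℚ)) (hn : V.natDegree = 3)
    (hR : 12 ≤ R) (hR' : R ≤ 25) (hN : 1 ≤ |V.coeff 3| * 12) : False :=
  h.leadc (g := 3 / 5) (by norm_num) hν (n := 3) (X := 10) (by norm_num) hn (by omega) va3_s12 vb3_s12
    (by decide +kernel) (by decide +kernel) (P := (64763733 / 500)) (Q := (877671411 / 10000000)) (E := (21104277 / 31250000))
    (κ := (295761175089 / 1000000000)) (N := 12) (s := (217840419 / 10000000)) (by norm_num) (by decide +kernel)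
    (by decide +kernel) (by decide +kernel) (by decide +kernel) (by norm_num) (by norm_num) hN
    ((add_le_add (sub_harmonic_mono hR') le_rfl).trans (by decide +kernel)) (by norm_num) (by norm_num)

/-- weights for degree 4 -/
def va4_s21 (x : ℕ) : ℚ := (([-18617140892542, -20389619711788, -15877974292941, -8551253727253, -942442564660, 5402540098668, 9677914398609, 11596956781174, 11233659198545, 8914907419704, 5147528769135, 568504837040, -4089488923279, -8022315511911, -10371690536143, -10237745315885, -6688276309970, 1234351758247, 14507988194390] : List ℤ).getD (x - 1) 0 : ℤ) / 1000000000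

/-- weights for degree 4 -/
def vb4_s21 (x : ℕ) : ℚ := (([-88907953246381, -56114770794517, -23340963788739, 604420505944, 15101861971872, 21761454373198, 22582818524445, 19411274434520, 13809684752677, 7061504247474, 210110097694, -5897152961947, -10569874763595, -13242496075127, -13448810473177, -10801957031053, -4978776893823, 4292433266832, 17241545111419] : List ℤ).getD (x - 1) 0 : ℤ) / 100000000000000

theorem Tab.c4_s21 (h : Tab R ν δ M V) (hν : ν ≤ ((harmonic R : ℚ) : ℝ) - (3 / 5 : ℚ)) (hn : V.natDegree = 4)
    (hR : 21 ≤ R) (hR' : R ≤ 25) (hN : 1 ≤ |V.coeff 4| * 360) : False :=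
  h.leadc (g := 3 / 5) (by norm_num) hν (n := 4) (X := 19) (by norm_num) hn (by omega) va4_s21 vb4_s21
    (by decide +kernel) (by decide +kernel) (P := 164005419) (Q := (29299449 / 10000)) (E := (84633797 / 125000000))
    (κ := (105377042427 / 10000000)) (N := 360) (s := (217840419 / 10000000)) (by norm_num) (by decide +kernel)
    (by decide +kernel) (by decide +kernel) (by decide +kernel) (by norm_num) (by norm_num) hN
    ((add_le_add (sub_harmonic_mono hR') le_rfl).trans (by decide +kernel)) (by norm_num) (by norm_num)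

/-- weights for degree 2 -/
def va2_s8 (x : ℕ) : ℚ := (([-8896348189002, -10962587568937, -9363081574857, -4733114366629, 2261737963929, 11089089283053] : List ℤ).getD (x - 1) 0 : ℤ) / 100000000000

/-- weights for degree 2 -/
def vb2_s8 (x : ℕ) : ℚ := (([-12445968102552, -9752571173051, -5590784234397, -1244330643272, 2852245384665, 6573259800268] : List ℤ).getD (x - 1) 0 : ℤ) / 10000000000000

theorem Tab.c2_s8 (h : Tab R ν δ M V) (hν : ν ≤ ((harmonic R : ℚ) : ℝ) - (3 / 5 : ℚ)) (hn : V.natDegree = 2)
    (hR : 8 ≤ R) (hR' : R ≤ 9) (hN : 1 ≤ |V.coeff 2| * 6) : False :=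
  h.leadc (g := 3 / 5) (by norm_num) hν (n := 2) (X := 6) (by norm_num) hn (by omega) va2_s8 vb2_s8
    (by decide +kernel) (by decide +kernel) (P := (303758 / 125)) (Q := (186260887 / 10000000)) (E := (15300719 / 20000000))
    (κ := (431171232899 / 10000000000)) (N := 6) (s := (27084127 / 4000000)) (by norm_num) (by decide +kernel)
    (by decide +kernel) (by decide +kernel) (by decide +kernel) (by norm_num) (by norm_num) hN
    ((add_le_add (sub_harmonic_mono hR') le_rfl).trans (by decide +kernel)) (by norm_num) (by norm_num)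

/-- weights for degree 2 -/
def va2_s10 (x : ℕ) : ℚ := (([-12318695424125, -16737798528210, -17185589540856, -14282074286062, -8738663863257, -1138672192445, 8072938960972, 18561767248939] : List ℤ).getD (x - 1) 0 : ℤ) / 100000000000

/-- weights for degree 2 -/
def vb2_s10 (x : ℕ) : ℚ := (([-13880253297347, -12172927439270, -8869150393932, -5246242459111, -1757957027181, 1448678323027, 4343259937570, 6939178103610] : List ℤ).getD (x - 1) 0 : ℤ) / 10000000000000

theorem Tab.c2_s10 (h : Tab R ν δ M V) (hν : ν ≤ ((harmonic R : ℚ) : ℝ) - (3 / 5 : ℚ)) (hn : V.natDegree = 2)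
    (hR : 10 ≤ R) (hR' : R ≤ 10) (hN : 1 ≤ |V.coeff 2| * 6) : False :=
  h.leadc (g := 3 / 5) (by norm_num) hν (n := 2) (X := 8) (by norm_num) hn (by omega) va2_s10 vb2_s10
    (by decide +kernel) (by decide +kernel) (P := (861614933 / 100000)) (Q := (219398217 / 5000000)) (E := (6954533 / 8000000))
    (κ := (173091442377 / 2000000000)) (N := 6) (s := (30684127 / 4000000)) (by norm_num) (by decide +kernel)
    (by decide +kernel) (by decide +kernel) (by decide +kernel) (by norm_num) (by norm_num) hN
    ((add_le_add (sub_harmonic_mono hR') le_rfl).trans (by decide +kernel)) (by norm_num) (by norm_num)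

/-- weights for degree 2 -/
def va2_s8p (x : ℕ) : ℚ := (([-8896348189002, -10962587568937, -9363081574857, -4733114366629, 2261737963929, 11089089283053] : List ℤ).getD (x - 1) 0 : ℤ) / 100000000000

/-- weights for degree 2 -/
def vb2_s8p (x : ℕ) : ℚ := (([-12445968102552, -9752571173051, -5590784234397, -1244330643272, 2852245384665, 6573259800268] : List ℤ).getD (x - 1) 0 : ℤ) / 10000000000000

theorem Tab.c2_s8p (h : Tab R ν δ M V) (hν : ν ≤ ((harmonic R : ℚ) : ℝ) - (3 / 5 : ℚ)) (hn : V.natDegree = 2)
    (hR : 8 ≤ R) (hR' : R ≤ 9) (hv0 : 0 ≤ V.coeff 2) (hN : 1 ≤ V.coeff 2 * 12) : False :=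
  h.lead_signc (g := 3 / 5) (by norm_num) hν (n := 2) (X := 6) (by norm_num) hn (by omega) va2_s8p
    vb2_s8p (by decide +kernel) (by decide +kernel) (P := (303758 / 125)) (E := (15300719 / 20000000))
    (κ := (431171232899 / 10000000000)) (N := 12) (s := (27084127 / 4000000)) (by norm_num) (by decide +kernel)
    (by decide +kernel) (by decide +kernel) (by norm_num) (by norm_num) (by norm_num) hv0 hN
    ((add_le_add (sub_harmonic_mono hR') le_rfl).trans (by decide +kernel)) (by norm_num)

/-- weights for degree 2 -/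
def va2_s10p (x : ℕ) : ℚ := (([-12318695424125, -16737798528210, -17185589540856, -14282074286062, -8738663863257, -1138672192445, 8072938960972, 18561767248939] : List ℤ).getD (x - 1) 0 : ℤ) / 100000000000

/-- weights for degree 2 -/
def vb2_s10p (x : ℕ) : ℚ := (([-13880253297347, -12172927439270, -8869150393932, -5246242459111, -1757957027181, 1448678323027, 4343259937570, 6939178103610] : List ℤ).getD (x - 1) 0 : ℤ) / 10000000000000

theorem Tab.c2_s10p (h : Tab R ν δ M V) (hν : ν ≤ ((harmonic R : ℚ) : ℝ) - (3 / 5 : ℚ)) (hn : V.natDegree = 2)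
    (hR : 10 ≤ R) (hR' : R ≤ 10) (hv0 : 0 ≤ V.coeff 2) (hN : 1 ≤ V.coeff 2 * 12) : False :=
  h.lead_signc (g := 3 / 5) (by norm_num) hν (n := 2) (X := 8) (by norm_num) hn (by omega) va2_s10p
    vb2_s10p (by decide +kernel) (by decide +kernel) (P := (861614933 / 100000)) (E := (6954533 / 8000000))
    (κ := (173091442377 / 2000000000)) (N := 12) (s := (30684127 / 4000000)) (by norm_num) (by decide +kernel)
    (by decide +kernel) (by decide +kernel) (by norm_num) (by norm_num) (by norm_num) hv0 hN
    ((add_le_add (sub_harmonic_mono hR') le_rfl).trans (by decide +kernel)) (by norm_num)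

/-- weights for degree 2 -/
def wa2_s8u (x : ℕ) : ℚ := (([180000000000000, 270000000000000, 320000000000000, 334821428571429, 321428571428571, 285833333333333] : List ℤ).getD (x - 1) 0 : ℤ) / 10000000000000

/-- weights for degree 2 -/
def wb2_s8u (x : ℕ) : ℚ := (([-200000000000000, -225000000000000, -228571428571429, -223214285714286, -214285714285714, -204166666666667] : List ℤ).getD (x - 1) 0 : ℤ) / 100000000000000

/-- weights for degree 2 -/
def wc2_s8u (x : ℕ) : ℚ := (([240000000000000, 405000000000000, 548571428571429, 669642857142857, 771428571428571, 857500000000000] : List ℤ).getD (x - 1) 0 : ℤ) / 10000000000000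

theorem Tab.d2_s8u (h : Tab R ν δ M V) (hν : ν ≤ ((harmonic R : ℚ) : ℝ) - (3 / 5 : ℚ)) (hn : V.natDegree = 2)
    (hR : 8 ≤ R) (hR' : R ≤ 9) (hv : V.coeff 2 = (-(1 / 12))) {t : ℚ} (ht : 0 ≤ t)
    (hv' : V.coeff 1 = (5 / 6) + 1 * t) : False := by
  have key := h.lead2c (g := 3 / 5) (by norm_num) hν (m := 1) (X := 6) (by norm_num) hn (by omega)
    wa2_s8u wb2_s8u wc2_s8u (by decide +kernel) (by decide +kernel) (by decide +kernel) hv hv' ht
    (f0 := (148297619 / 500000)) (f1 := (126828571 / 100000)) (f2 := (28752857 / 20000)) (f3 := (-(26889881 / 625000)))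
    (f4 := (-(181 / 2))) (f5 := (218928571 / 100000000)) (s := (27084127 / 4000000))
    (by decide +kernel) (by decide +kernel) (by decide +kernel) (by decide +kernel)
    (by decide +kernel) (by decide +kernel)
    ((add_le_add (sub_harmonic_mono hR') le_rfl).trans (by decide +kernel))
  have h1 : (1 : ℚ) ≤ δ := by exact_mod_cast h.pos
  have h2 := sq_nonneg ((δ : ℚ) - (5686197 / 500000) + (-(10334421 / 500000)) * t)
  have h3 := mul_nonneg ht (by linarith : (0 : ℚ) ≤ δ)
  nlinarith [sq_nonneg t]

/-- weights for degree 2 -/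
def wa2_s8l (x : ℕ) : ℚ := (([-60000000000000, -135000000000000, -228571428571429, -334821428571429, -450000000000000, -571666666666667] : List ℤ).getD (x - 1) 0 : ℤ) / 10000000000000

/-- weights for degree 2 -/
def wb2_s8l (x : ℕ) : ℚ := (([-200000000000000, -225000000000000, -228571428571429, -223214285714286, -214285714285714, -204166666666667] : List ℤ).getD (x - 1) 0 : ℤ) / 100000000000000

/-- weights for degree 2 -/
def wc2_s8l (x : ℕ) : ℚ := (([-240000000000000, -405000000000000, -548571428571429, -669642857142857, -771428571428571, -857500000000000] : List ℤ).getD (x - 1) 0 : ℤ) / 10000000000000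

theorem Tab.d2_s8l (h : Tab R ν δ M V) (hν : ν ≤ ((harmonic R : ℚ) : ℝ) - (3 / 5 : ℚ)) (hn : V.natDegree = 2)
    (hR : 8 ≤ R) (hR' : R ≤ 9) (hv : V.coeff 2 = (-(1 / 12))) {t : ℚ} (ht : 0 ≤ t)
    (hv' : V.coeff 1 = (-(1 / 6)) + (-1) * t) : False := by
  have key := h.lead2c (g := 3 / 5) (by norm_num) hν (m := 1) (X := 6) (by norm_num) hn (by omega)
    wa2_s8l wb2_s8l wc2_s8l (by decide +kernel) (by decide +kernel) (by decide +kernel) hv hv' ht
    (f0 := (23297619 / 50000)) (f1 := (160699999 / 100000)) (f2 := (28752857 / 20000)) (f3 := (29672619 / 625000))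
    (f4 := (904999999 / 10000000)) (f5 := (218928571 / 100000000)) (s := (27084127 / 4000000))
    (by decide +kernel) (by decide +kernel) (by decide +kernel) (by decide +kernel)
    (by decide +kernel) (by decide +kernel)
    ((add_le_add (sub_harmonic_mono hR') le_rfl).trans (by decide +kernel))
  have h1 : (1 : ℚ) ≤ δ := by exact_mod_cast h.pos
  have h2 := sq_nonneg ((δ : ℚ) - (-(46482237 / 5000000)) + (20668841 / 1000000) * t)
  have h3 := mul_nonneg ht (by linarith : (0 : ℚ) ≤ δ)
  nlinarith [sq_nonneg t]

/-- weights for degree 2 -/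
def wa2_s10u (x : ℕ) : ℚ := (([180000000000000, 270000000000000, 320000000000000, 334821428571429, 321428571428571, 285833333333333, 232727272727273, 165681818181818] : List ℤ).getD (x - 1) 0 : ℤ) / 10000000000000

/-- weights for degree 2 -/
def wb2_s10u (x : ℕ) : ℚ := (([-200000000000000, -225000000000000, -228571428571429, -223214285714286, -214285714285714, -204166666666667, -193939393939394, -184090909090909] : List ℤ).getD (x - 1) 0 : ℤ) / 100000000000000

/-- weights for degree 2 -/
def wc2_s10u (x : ℕ) : ℚ := (([240000000000000, 405000000000000, 548571428571429, 669642857142857, 771428571428571, 857500000000000, 930909090909091, 994090909090909] : List ℤ).getD (x - 1) 0 : ℤ) / 10000000000000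

theorem Tab.d2_s10u (h : Tab R ν δ M V) (hν : ν ≤ ((harmonic R : ℚ) : ℝ) - (3 / 5 : ℚ)) (hn : V.natDegree = 2)
    (hR : 10 ≤ R) (hR' : R ≤ 10) (hv : V.coeff 2 = (-(1 / 12))) {t : ℚ} (ht : 0 ≤ t)
    (hv' : V.coeff 1 = (5 / 6) + 1 * t) : False := by
  have key := h.lead2c (g := 3 / 5) (by norm_num) hν (m := 1) (X := 8) (by norm_num) hn (by omega)
    wa2_s10u wb2_s10u wc2_s10u (by decide +kernel) (by decide +kernel) (by decide +kernel) hv hv' ht
    (f0 := (359413419 / 1000000)) (f1 := (4647987 / 2500)) (f2 := (144227597 / 50000)) (f3 := (-(547207793 / 10000000)))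
    (f4 := (-(147106061 / 1000000))) (f5 := (137242063 / 50000000)) (s := (30684127 / 4000000))
    (by decide +kernel) (by decide +kernel) (by decide +kernel) (by decide +kernel)
    (by decide +kernel) (by decide +kernel)
    ((add_le_add (sub_harmonic_mono hR') le_rfl).trans (by decide +kernel))
  have h1 : (1 : ℚ) ≤ δ := by exact_mod_cast h.pos
  have h2 := sq_nonneg ((δ : ℚ) - (2273057 / 200000) + (-(1071873 / 40000)) * t)
  have h3 := mul_nonneg ht (by linarith : (0 : ℚ) ≤ δ)
  nlinarith [sq_nonneg t]

/-- weights for degree 2 -/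
def wa2_s10l (x : ℕ) : ℚ := (([-60000000000000, -135000000000000, -228571428571429, -334821428571429, -450000000000000, -571666666666667, -698181818181818, -828409090909091] : List ℤ).getD (x - 1) 0 : ℤ) / 10000000000000

/-- weights for degree 2 -/
def wb2_s10l (x : ℕ) : ℚ := (([-200000000000000, -225000000000000, -228571428571429, -223214285714286, -214285714285714, -204166666666667, -193939393939394, -184090909090909] : List ℤ).getD (x - 1) 0 : ℤ) / 100000000000000

/-- weights for degree 2 -/
def wc2_s10l (x : ℕ) : ℚ := (([-240000000000000, -405000000000000, -548571428571429, -669642857142857, -771428571428571, -857500000000000, -930909090909091, -994090909090909] : List ℤ).getD (x - 1) 0 : ℤ) / 10000000000000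

theorem Tab.d2_s10l (h : Tab R ν δ M V) (hν : ν ≤ ((harmonic R : ℚ) : ℝ) - (3 / 5 : ℚ)) (hn : V.natDegree = 2)
    (hR : 10 ≤ R) (hR' : R ≤ 10) (hv : V.coeff 2 = (-(1 / 12))) {t : ℚ} (ht : 0 ≤ t)
    (hv' : V.coeff 1 = (-(1 / 6)) + (-1) * t) : False := by
  have key := h.lead2c (g := 3 / 5) (by norm_num) hν (m := 1) (X := 8) (by norm_num) hn (by omega)
    wa2_s10l wb2_s10l wc2_s10l (by decide +kernel) (by decide +kernel) (by decide +kernel) hv hv' ht
    (f0 := (4327408 / 3125)) (f1 := (390990909 / 100000)) (f2 := (144227597 / 50000)) (f3 := (923852813 / 10000000))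
    (f4 := (7355303 / 50000)) (f5 := (137242063 / 50000000)) (s := (30684127 / 4000000))
    (by decide +kernel) (by decide +kernel) (by decide +kernel) (by decide +kernel)
    (by decide +kernel) (by decide +kernel)
    ((add_le_add (sub_harmonic_mono hR') le_rfl).trans (by decide +kernel))
  have h1 : (1 : ℚ) ≤ δ := by exact_mod_cast h.pos
  have h2 := sq_nonneg ((δ : ℚ) - (-(15431539 / 1000000)) + (3349603 / 125000) * t)
  have h3 := mul_nonneg ht (by linarith : (0 : ℚ) ≤ δ)
  nlinarith [sq_nonneg t]

theorem lat2b {V : ℚ[X]} (hn : V.natDegree = 2) (h0 : V.eval 0 = 0)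
    (hz : ∀ t : ℕ, t ≤ 2 → ∃ z : ℤ, ((t : ℚ) + 1) ^ 2 * V.eval (t : ℚ) = z)
    (hz2 : ∀ t : ℕ, t ≤ 2 → Even t → ∃ z : ℤ, ((t : ℚ) + 1) ^ 2 * V.eval (t : ℚ) = 2 * z) :
    ∃ m : ℤ, (V.coeff 1 + 10 * V.coeff 2) * 1 = m := by
  have e : ∀ x : ℚ, V.eval x = ∑ i ∈ range (2 + 1), V.coeff i * x ^ i := fun x =>
    eval_eq_sum_range' (by omega) x
  have c0 : V.coeff 0 = 0 := by rw [coeff_zero_eq_eval_zero, h0]
  obtain ⟨z1, h1⟩ := hz 1 (by norm_num)
  obtain ⟨z2, h2⟩ := hz2 2 (by norm_num) (by decide)
  rw [e] at h1 h2
  simp only [sum_range_succ, sum_range_zero, c0] at h1 h2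
  push_cast at h1 h2
  refine ⟨(-2) * z1 + (1) * z2, ?_⟩
  push_cast
  linarith

end Pool.Agent.K9h7.SH
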