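import Mathlib

/-!
# Integrality and the leading coefficient of a bounded polynomial
-/

set_option autoImplicit false

open Finset Polynomial

namespace Pool.Agent.K9h7.SH

open fwdDiff

/-- If `(t + 1) ^ 2 V(t)` is an integer for `0 ≤ t ≤ n + 2`, `n = deg V ≥ 1`, then `(n + 2)!` times the
leading coefficient of `V` is a nonzero integer. -/
theorem int_lead {V : ℚ[X]} {n : ℕ} (hn : V.natDegree = n) (hn0 : n ≠ 0)
    (hz : ∀ t : ℕ, t ≤ n + 2 → ∃ z : ℤ, ((t : ℚ) + 1) ^ 2 * V.eval (t : ℚ) = z) :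
    1 ≤ |V.coeff n| * ((n + 2).factorial : ℚ) := by
  classical
  have hV0 : V ≠ 0 := by
    rintro rfl
    exact hn0 (by rw [← hn, natDegree_zero])
  have hX : (X + C (1 : ℚ)) ≠ 0 := X_add_C_ne_zero 1
  set q : ℚ[X] := (X + C (1 : ℚ)) ^ 2 * V with hq
  have hqd : q.natDegree = n + 2 := by
    rw [hq, natDegree_mul (pow_ne_zero _ hX) hV0, natDegree_pow, natDegree_X_add_C, hn]
    omega
  have hql : q.leadingCoeff = V.coeff n := by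
    rw [hq, leadingCoeff_mul, leadingCoeff_pow, leadingCoeff_X_add_C, one_pow, one_mul,
      leadingCoeff, hn]
  have h1 := congrFun (Polynomial.fwdDiff_iter_degree_eq_factorial q) 0
  rw [fwdDiff_iter_eq_sum_shift, hqd, hql] at h1
  have h2 : ∀ t : ℕ, t ≤ n + 2 → ∃ z : ℤ, q.eval (0 + t • (1 : ℚ)) = z := by
    intro t ht
    obtain ⟨z, hz'⟩ := hz t ht
    refine ⟨z, ?_⟩
    rw [← hz', hq, eval_mul, eval_pow, eval_add, eval_X, eval_C]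
    simp
  choose! g hg using h2
  have h3 : V.coeff n * ((n + 2).factorial : ℚ) =
      ((∑ k ∈ range (n + 2 + 1), ((-1) ^ (n + 2 - k) * ((n + 2).choose k : ℤ)) * g k : ℤ) : ℚ) := by
    have h4 : (V.coeff n • ((n + 2).factorial : ℚ → ℚ)) 0 = V.coeff n * ((n + 2).factorial : ℚ) := by
      simp
    rw [← h4, ← h1]
    push_cast
    refine Finset.sum_congr rfl fun k hk => ?_
    rw [mem_range] at hk
    rw [hg k (by omega), zsmul_eq_mul]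
    push_cast
    ring
  set S : ℤ := ∑ k ∈ range (n + 2 + 1), ((-1) ^ (n + 2 - k) * ((n + 2).choose k : ℤ)) * g k
  have h5 : V.coeff n ≠ 0 := by
    rw [← hn]
    exact leadingCoeff_ne_zero.2 hV0
  have h6 : S ≠ 0 := by
    intro h0
    rw [h0, Int.cast_zero] at h3
    exact (mul_ne_zero h5 (by exact_mod_cast (Nat.factorial_ne_zero _))) h3
  have h7 : (1 : ℚ) ≤ |(S : ℚ)| := by
    exact_mod_cast Int.one_le_abs h6
  rw [← h3, abs_mul] at h7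
  rwa [abs_of_nonneg (a := ((n + 2).factorial : ℚ)) (Nat.cast_nonneg _)] at h7

theorem kill2 {V : ℚ[X]} {δ h : ℕ} (hn : V.natDegree = 2) (h0 : V.eval 0 = 0)
    (hb : ∀ t : ℕ, t ≤ 2 * h → 0 ≤ V.eval (t : ℚ) ∧ V.eval (t : ℚ) ≤ δ / 4)
    (hz : ∀ t : ℕ, t ≤ 4 → ∃ z : ℤ, ((t : ℚ) + 1) ^ 2 * V.eval (t : ℚ) = z) :
    (h : ℚ) ^ 2 ≤ (6) * δ := by
  have e : ∀ x : ℚ, V.eval x = ∑ i ∈ range (2 + 1), V.coeff i * x ^ i := fun x =>
    eval_eq_sum_range' (by omega) x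
  have c0 : V.coeff 0 = 0 := by rw [coeff_zero_eq_eval_zero, h0]
  have key : V.coeff 2 * (h : ℚ) ^ 2 = (-1) * V.eval (((1 * h : ℕ)) : ℚ) + (1 / 2) * V.eval (((2 * h : ℕ)) : ℚ) := by
    rw [e, e]
    simp only [sum_range_succ, sum_range_zero, c0]
    push_cast
    ring
  have hi := int_lead hn (by norm_num) hz
  obtain ⟨p1, q1⟩ := hb (1 * h) (by omega)
  obtain ⟨p2, q2⟩ := hb (2 * h) (by omega)
  have hh : (0 : ℚ) ≤ (h : ℚ) ^ 2 := by positivity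
  have h1 : |V.coeff 2| * (h : ℚ) ^ 2 ≤ (1 / 4) * δ := by
    rw [← abs_of_nonneg hh, ← abs_mul, key, abs_le]
    constructor <;> linarith
  have hf : ((2 + 2).factorial : ℚ) = 24 := by norm_num [Nat.factorial]
  rw [hf] at hi
  calc (h : ℚ) ^ 2 = 1 * (h : ℚ) ^ 2 := (one_mul _).symm
    _ ≤ (|V.coeff 2| * 24) * (h : ℚ) ^ 2 := mul_le_mul_of_nonneg_right hi hh
    _ = 24 * (|V.coeff 2| * (h : ℚ) ^ 2) := by ring
    _ ≤ 24 * ((1 / 4) * δ) := mul_le_mul_of_nonneg_left h1 (by norm_num)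
    _ = (6) * δ := by ring

theorem kill3 {V : ℚ[X]} {δ h : ℕ} (hn : V.natDegree = 3) (h0 : V.eval 0 = 0)
    (hb : ∀ t : ℕ, t ≤ 4 * h → 0 ≤ V.eval (t : ℚ) ∧ V.eval (t : ℚ) ≤ δ / 4)
    (hz : ∀ t : ℕ, t ≤ 5 → ∃ z : ℤ, ((t : ℚ) + 1) ^ 2 * V.eval (t : ℚ) = z) :
    (h : ℚ) ^ 3 ≤ (15 / 2) * δ := by
  have e : ∀ x : ℚ, V.eval x = ∑ i ∈ range (3 + 1), V.coeff i * x ^ i := fun x =>
    eval_eq_sum_range' (by omega) x
  have c0 : V.coeff 0 = 0 := by rw [coeff_zero_eq_eval_zero, h0]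
  have key : V.coeff 3 * (h : ℚ) ^ 3 = (1 / 6) * V.eval (((1 * h : ℕ)) : ℚ) + (-1 / 6) * V.eval (((3 * h : ℕ)) : ℚ) + (1 / 12) * V.eval (((4 * h : ℕ)) : ℚ) := by
    rw [e, e, e]
    simp only [sum_range_succ, sum_range_zero, c0]
    push_cast
    ring
  have hi := int_lead hn (by norm_num) hz
  obtain ⟨p1, q1⟩ := hb (1 * h) (by omega)
  obtain ⟨p2, q2⟩ := hb (3 * h) (by omega)
  obtain ⟨p3, q3⟩ := hb (4 * h) (by omega)
  have hh : (0 : ℚ) ≤ (h : ℚ) ^ 3 := by positivity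
  have h1 : |V.coeff 3| * (h : ℚ) ^ 3 ≤ (1 / 16) * δ := by
    rw [← abs_of_nonneg hh, ← abs_mul, key, abs_le]
    constructor <;> linarith
  have hf : ((3 + 2).factorial : ℚ) = 120 := by norm_num [Nat.factorial]
  rw [hf] at hi
  calc (h : ℚ) ^ 3 = 1 * (h : ℚ) ^ 3 := (one_mul _).symm
    _ ≤ (|V.coeff 3| * 120) * (h : ℚ) ^ 3 := mul_le_mul_of_nonneg_right hi hh
    _ = 120 * (|V.coeff 3| * (h : ℚ) ^ 3) := by ring
    _ ≤ 120 * ((1 / 16) * δ) := mul_le_mul_of_nonneg_left h1 (by norm_num)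
    _ = (15 / 2) * δ := by ring

theorem kill4 {V : ℚ[X]} {δ h : ℕ} (hn : V.natDegree = 4) (h0 : V.eval 0 = 0)
    (hb : ∀ t : ℕ, t ≤ 6 * h → 0 ≤ V.eval (t : ℚ) ∧ V.eval (t : ℚ) ≤ δ / 4)
    (hz : ∀ t : ℕ, t ≤ 6 → ∃ z : ℤ, ((t : ℚ) + 1) ^ 2 * V.eval (t : ℚ) = z) :
    (h : ℚ) ^ 4 ≤ (9) * δ := by
  have e : ∀ x : ℚ, V.eval x = ∑ i ∈ range (4 + 1), V.coeff i * x ^ i := fun x =>
    eval_eq_sum_range' (by omega) x
  have c0 : V.coeff 0 = 0 := by rw [coeff_zero_eq_eval_zero, h0]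
  have key : V.coeff 4 * (h : ℚ) ^ 4 = (-1 / 40) * V.eval (((1 * h : ℕ)) : ℚ) + (1 / 36) * V.eval (((3 * h : ℕ)) : ℚ) + (-1 / 40) * V.eval (((5 * h : ℕ)) : ℚ) + (1 / 90) * V.eval (((6 * h : ℕ)) : ℚ) := by
    rw [e, e, e, e]
    simp only [sum_range_succ, sum_range_zero, c0]
    push_cast
    ring
  have hi := int_lead hn (by norm_num) hz
  obtain ⟨p1, q1⟩ := hb (1 * h) (by omega)
  obtain ⟨p2, q2⟩ := hb (3 * h) (by omega)
  obtain ⟨p3, q3⟩ := hb (5 * h) (by omega)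
  obtain ⟨p4, q4⟩ := hb (6 * h) (by omega)
  have hh : (0 : ℚ) ≤ (h : ℚ) ^ 4 := by positivity
  have h1 : |V.coeff 4| * (h : ℚ) ^ 4 ≤ (1 / 80) * δ := by
    rw [← abs_of_nonneg hh, ← abs_mul, key, abs_le]
    constructor <;> linarith
  have hf : ((4 + 2).factorial : ℚ) = 720 := by norm_num [Nat.factorial]
  rw [hf] at hi
  calc (h : ℚ) ^ 4 = 1 * (h : ℚ) ^ 4 := (one_mul _).symm
    _ ≤ (|V.coeff 4| * 720) * (h : ℚ) ^ 4 := mul_le_mul_of_nonneg_right hi hh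
    _ = 720 * (|V.coeff 4| * (h : ℚ) ^ 4) := by ring
    _ ≤ 720 * ((1 / 80) * δ) := mul_le_mul_of_nonneg_left h1 (by norm_num)
    _ = (9) * δ := by ring

theorem kill5 {V : ℚ[X]} {δ h : ℕ} (hn : V.natDegree = 5) (h0 : V.eval 0 = 0)
    (hb : ∀ t : ℕ, t ≤ 10 * h → 0 ≤ V.eval (t : ℚ) ∧ V.eval (t : ℚ) ≤ δ / 4)
    (hz : ∀ t : ℕ, t ≤ 7 → ∃ z : ℤ, ((t : ℚ) + 1) ^ 2 * V.eval (t : ℚ) = z) :
    (h : ℚ) ^ 5 ≤ (7 / 2) * δ := by
  have e : ∀ x : ℚ, V.eval x = ∑ i ∈ range (5 + 1), V.coeff i * x ^ i := fun x =>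
    eval_eq_sum_range' (by omega) x
  have c0 : V.coeff 0 = 0 := by rw [coeff_zero_eq_eval_zero, h0]
  have key : V.coeff 5 * (h : ℚ) ^ 5 = (1 / 1080) * V.eval (((1 * h : ℕ)) : ℚ) + (-1 / 720) * V.eval (((4 * h : ℕ)) : ℚ) + (1 / 720) * V.eval (((6 * h : ℕ)) : ℚ) + (-1 / 1080) * V.eval (((9 * h : ℕ)) : ℚ) + (1 / 2160) * V.eval (((10 * h : ℕ)) : ℚ) := by
    rw [e, e, e, e, e]
    simp only [sum_range_succ, sum_range_zero, c0]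
    push_cast
    ring
  have hi := int_lead hn (by norm_num) hz
  obtain ⟨p1, q1⟩ := hb (1 * h) (by omega)
  obtain ⟨p2, q2⟩ := hb (4 * h) (by omega)
  obtain ⟨p3, q3⟩ := hb (6 * h) (by omega)
  obtain ⟨p4, q4⟩ := hb (9 * h) (by omega)
  obtain ⟨p5, q5⟩ := hb (10 * h) (by omega)
  have hh : (0 : ℚ) ≤ (h : ℚ) ^ 5 := by positivity
  have h1 : |V.coeff 5| * (h : ℚ) ^ 5 ≤ (1 / 1440) * δ := by
    rw [← abs_of_nonneg hh, ← abs_mul, key, abs_le]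
    constructor <;> linarith
  have hf : ((5 + 2).factorial : ℚ) = 5040 := by norm_num [Nat.factorial]
  rw [hf] at hi
  calc (h : ℚ) ^ 5 = 1 * (h : ℚ) ^ 5 := (one_mul _).symm
    _ ≤ (|V.coeff 5| * 5040) * (h : ℚ) ^ 5 := mul_le_mul_of_nonneg_right hi hh
    _ = 5040 * (|V.coeff 5| * (h : ℚ) ^ 5) := by ring
    _ ≤ 5040 * ((1 / 1440) * δ) := mul_le_mul_of_nonneg_left h1 (by norm_num)
    _ = (7 / 2) * δ := by ring

theorem kill6 {V : ℚ[X]} {δ h : ℕ} (hn : V.natDegree = 6) (h0 : V.eval 0 = 0)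
    (hb : ∀ t : ℕ, t ≤ 16 * h → 0 ≤ V.eval (t : ℚ) ∧ V.eval (t : ℚ) ≤ δ / 4)
    (hz : ∀ t : ℕ, t ≤ 8 → ∃ z : ℤ, ((t : ℚ) + 1) ^ 2 * V.eval (t : ℚ) = z) :
    (h : ℚ) ^ 6 ≤ (217 / 352) * δ := by
  have e : ∀ x : ℚ, V.eval x = ∑ i ∈ range (6 + 1), V.coeff i * x ^ i := fun x =>
    eval_eq_sum_range' (by omega) x
  have c0 : V.coeff 0 = 0 := by rw [coeff_zero_eq_eval_zero, h0]
  have key : V.coeff 6 * (h : ℚ) ^ 6 = (-1 / 48510) * V.eval (((1 * h : ℕ)) : ℚ) + (1 / 50688) * V.eval (((4 * h : ℕ)) : ℚ) + (-1 / 50176) * V.eval (((8 * h : ℕ)) : ℚ) + (1 / 50688) * V.eval (((12 * h : ℕ)) : ℚ) + (-1 / 48510) * V.eval (((15 * h : ℕ)) : ℚ) + (1 / 92160) * V.eval (((16 * h : ℕ)) : ℚ) := by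
    rw [e, e, e, e, e, e]
    simp only [sum_range_succ, sum_range_zero, c0]
    push_cast
    ring
  have hi := int_lead hn (by norm_num) hz
  obtain ⟨p1, q1⟩ := hb (1 * h) (by omega)
  obtain ⟨p2, q2⟩ := hb (4 * h) (by omega)
  obtain ⟨p3, q3⟩ := hb (8 * h) (by omega)
  obtain ⟨p4, q4⟩ := hb (12 * h) (by omega)
  obtain ⟨p5, q5⟩ := hb (15 * h) (by omega)
  obtain ⟨p6, q6⟩ := hb (16 * h) (by omega)
  have hh : (0 : ℚ) ≤ (h : ℚ) ^ 6 := by positivity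
  have h1 : |V.coeff 6| * (h : ℚ) ^ 6 ≤ (31 / 2027520) * δ := by
    rw [← abs_of_nonneg hh, ← abs_mul, key, abs_le]
    constructor <;> linarith
  have hf : ((6 + 2).factorial : ℚ) = 40320 := by norm_num [Nat.factorial]
  rw [hf] at hi
  calc (h : ℚ) ^ 6 = 1 * (h : ℚ) ^ 6 := (one_mul _).symm
    _ ≤ (|V.coeff 6| * 40320) * (h : ℚ) ^ 6 := mul_le_mul_of_nonneg_right hi hh
    _ = 40320 * (|V.coeff 6| * (h : ℚ) ^ 6) := by ring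
    _ ≤ 40320 * ((31 / 2027520) * δ) := mul_le_mul_of_nonneg_left h1 (by norm_num)
    _ = (217 / 352) * δ := by ring

theorem kill7 {V : ℚ[X]} {δ h : ℕ} (hn : V.natDegree = 7) (h0 : V.eval 0 = 0)
    (hb : ∀ t : ℕ, t ≤ 20 * h → 0 ≤ V.eval (t : ℚ) ∧ V.eval (t : ℚ) ≤ δ / 4)
    (hz : ∀ t : ℕ, t ≤ 9 → ∃ z : ℤ, ((t : ℚ) + 1) ^ 2 * V.eval (t : ℚ) = z) :
    (h : ℚ) ^ 7 ≤ (413 / 1408) * δ := by
  have e : ∀ x : ℚ, V.eval x = ∑ i ∈ range (7 + 1), V.coeff i * x ^ i := fun x =>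
    eval_eq_sum_range' (by omega) x
  have c0 : V.coeff 0 = 0 := by rw [coeff_zero_eq_eval_zero, h0]
  have key : V.coeff 7 * (h : ℚ) ^ 7 = (1 / 1185030) * V.eval (((1 * h : ℕ)) : ℚ) + (-1 / 1105920) * V.eval (((4 * h : ℕ)) : ℚ) + (1 / 946176) * V.eval (((8 * h : ℕ)) : ℚ) + (-1 / 946176) * V.eval (((12 * h : ℕ)) : ℚ) + (1 / 1105920) * V.eval (((16 * h : ℕ)) : ℚ) + (-1 / 1185030) * V.eval (((19 * h : ℕ)) : ℚ) + (1 / 2334720) * V.eval (((20 * h : ℕ)) : ℚ) := by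
    rw [e, e, e, e, e, e, e]
    simp only [sum_range_succ, sum_range_zero, c0]
    push_cast
    ring
  have hi := int_lead hn (by norm_num) hz
  obtain ⟨p1, q1⟩ := hb (1 * h) (by omega)
  obtain ⟨p2, q2⟩ := hb (4 * h) (by omega)
  obtain ⟨p3, q3⟩ := hb (8 * h) (by omega)
  obtain ⟨p4, q4⟩ := hb (12 * h) (by omega)
  obtain ⟨p5, q5⟩ := hb (16 * h) (by omega)
  obtain ⟨p6, q6⟩ := hb (19 * h) (by omega)
  obtain ⟨p7, q7⟩ := hb (20 * h) (by omega)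
  have hh : (0 : ℚ) ≤ (h : ℚ) ^ 7 := by positivity
  have h1 : |V.coeff 7| * (h : ℚ) ^ 7 ≤ (59 / 72990720) * δ := by
    rw [← abs_of_nonneg hh, ← abs_mul, key, abs_le]
    constructor <;> linarith
  have hf : ((7 + 2).factorial : ℚ) = 362880 := by norm_num [Nat.factorial]
  rw [hf] at hi
  calc (h : ℚ) ^ 7 = 1 * (h : ℚ) ^ 7 := (one_mul _).symm
    _ ≤ (|V.coeff 7| * 362880) * (h : ℚ) ^ 7 := mul_le_mul_of_nonneg_right hi hh
    _ = 362880 * (|V.coeff 7| * (h : ℚ) ^ 7) := by ring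
    _ ≤ 362880 * ((59 / 72990720) * δ) := mul_le_mul_of_nonneg_left h1 (by norm_num)
    _ = (413 / 1408) * δ := by ring

theorem kill8 {V : ℚ[X]} {δ h : ℕ} (hn : V.natDegree = 8) (h0 : V.eval 0 = 0)
    (hb : ∀ t : ℕ, t ≤ 26 * h → 0 ≤ V.eval (t : ℚ) ∧ V.eval (t : ℚ) ≤ δ / 4)
    (hz : ∀ t : ℕ, t ≤ 10 → ∃ z : ℤ, ((t : ℚ) + 1) ^ 2 * V.eval (t : ℚ) = z) :
    (h : ℚ) ^ 8 ≤ (1 / 14) * δ := by
  have e : ∀ x : ℚ, V.eval x = ∑ i ∈ range (8 + 1), V.coeff i * x ^ i := fun x =>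
    eval_eq_sum_range' (by omega) x
  have c0 : V.coeff 0 = 0 := by rw [coeff_zero_eq_eval_zero, h0]
  have key : V.coeff 8 * (h : ℚ) ^ 8 = (-1 / 53978400) * V.eval (((1 * h : ℕ)) : ℚ) + (1 / 50295168) * V.eval (((4 * h : ℕ)) : ℚ) + (-1 / 47980800) * V.eval (((8 * h : ℕ)) : ℚ) + (1 / 49280400) * V.eval (((13 * h : ℕ)) : ℚ) + (-1 / 47980800) * V.eval (((18 * h : ℕ)) : ℚ) + (1 / 50295168) * V.eval (((22 * h : ℕ)) : ℚ) + (-1 / 53978400) * V.eval (((25 * h : ℕ)) : ℚ) + (1 / 107078400) * V.eval (((26 * h : ℕ)) : ℚ) := by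
    rw [e, e, e, e, e, e, e, e]
    simp only [sum_range_succ, sum_range_zero, c0]
    push_cast
    ring
  have hi := int_lead hn (by norm_num) hz
  obtain ⟨p1, q1⟩ := hb (1 * h) (by omega)
  obtain ⟨p2, q2⟩ := hb (4 * h) (by omega)
  obtain ⟨p3, q3⟩ := hb (8 * h) (by omega)
  obtain ⟨p4, q4⟩ := hb (13 * h) (by omega)
  obtain ⟨p5, q5⟩ := hb (18 * h) (by omega)
  obtain ⟨p6, q6⟩ := hb (22 * h) (by omega)
  obtain ⟨p7, q7⟩ := hb (25 * h) (by omega)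
  obtain ⟨p8, q8⟩ := hb (26 * h) (by omega)
  have hh : (0 : ℚ) ≤ (h : ℚ) ^ 8 := by positivity
  have h1 : |V.coeff 8| * (h : ℚ) ^ 8 ≤ (1 / 50803200) * δ := by
    rw [← abs_of_nonneg hh, ← abs_mul, key, abs_le]
    constructor <;> linarith
  have hf : ((8 + 2).factorial : ℚ) = 3628800 := by norm_num [Nat.factorial]
  rw [hf] at hi
  calc (h : ℚ) ^ 8 = 1 * (h : ℚ) ^ 8 := (one_mul _).symm
    _ ≤ (|V.coeff 8| * 3628800) * (h : ℚ) ^ 8 := mul_le_mul_of_nonneg_right hi hh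
    _ = 3628800 * (|V.coeff 8| * (h : ℚ) ^ 8) := by ring
    _ ≤ 3628800 * ((1 / 50803200) * δ) := mul_le_mul_of_nonneg_left h1 (by norm_num)
    _ = (1 / 14) * δ := by ring

theorem kill9 {V : ℚ[X]} {δ h : ℕ} (hn : V.natDegree = 9) (h0 : V.eval 0 = 0)
    (hb : ∀ t : ℕ, t ≤ 33 * h → 0 ≤ V.eval (t : ℚ) ∧ V.eval (t : ℚ) ≤ δ / 4)
    (hz : ∀ t : ℕ, t ≤ 11 → ∃ z : ℤ, ((t : ℚ) + 1) ^ 2 * V.eval (t : ℚ) = z) :
    (h : ℚ) ^ 9 ≤ (5367537 / 377490100) * δ := by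
  have e : ∀ x : ℚ, V.eval x = ∑ i ∈ range (9 + 1), V.coeff i * x ^ i := fun x =>
    eval_eq_sum_range' (by omega) x
  have c0 : V.coeff 0 = 0 := by rw [coeff_zero_eq_eval_zero, h0]
  have key : V.coeff 9 * (h : ℚ) ^ 9 = (1 / 3275790336) * V.eval (((1 * h : ℕ)) : ℚ) + (-1 / 3069360000) * V.eval (((4 * h : ℕ)) : ℚ) + (1 / 3166732800) * V.eval (((8 * h : ℕ)) : ℚ) + (-1 / 3081078000) * V.eval (((14 * h : ℕ)) : ℚ) + (1 / 3081078000) * V.eval (((19 * h : ℕ)) : ℚ) + (-1 / 3166732800) * V.eval (((25 * h : ℕ)) : ℚ) + (1 / 3069360000) * V.eval (((29 * h : ℕ)) : ℚ) + (-1 / 3275790336) * V.eval (((32 * h : ℕ)) : ℚ) + (1 / 6516787200) * V.eval (((33 * h : ℕ)) : ℚ) := by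
    rw [e, e, e, e, e, e, e, e, e]
    simp only [sum_range_succ, sum_range_zero, c0]
    push_cast
    ring
  have hi := int_lead hn (by norm_num) hz
  obtain ⟨p1, q1⟩ := hb (1 * h) (by omega)
  obtain ⟨p2, q2⟩ := hb (4 * h) (by omega)
  obtain ⟨p3, q3⟩ := hb (8 * h) (by omega)
  obtain ⟨p4, q4⟩ := hb (14 * h) (by omega)
  obtain ⟨p5, q5⟩ := hb (19 * h) (by omega)
  obtain ⟨p6, q6⟩ := hb (25 * h) (by omega)
  obtain ⟨p7, q7⟩ := hb (29 * h) (by omega)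
  obtain ⟨p8, q8⟩ := hb (32 * h) (by omega)
  obtain ⟨p9, q9⟩ := hb (33 * h) (by omega)
  have hh : (0 : ℚ) ≤ (h : ℚ) ^ 9 := by positivity
  have h1 : |V.coeff 9| * (h : ℚ) ^ 9 ≤ (85199 / 239177727360000) * δ := by
    rw [← abs_of_nonneg hh, ← abs_mul, key, abs_le]
    constructor <;> linarith
  have hf : ((9 + 2).factorial : ℚ) = 39916800 := by norm_num [Nat.factorial]
  rw [hf] at hi
  calc (h : ℚ) ^ 9 = 1 * (h : ℚ) ^ 9 := (one_mul _).symm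
    _ ≤ (|V.coeff 9| * 39916800) * (h : ℚ) ^ 9 := mul_le_mul_of_nonneg_right hi hh
    _ = 39916800 * (|V.coeff 9| * (h : ℚ) ^ 9) := by ring
    _ ≤ 39916800 * ((85199 / 239177727360000) * δ) := mul_le_mul_of_nonneg_left h1 (by norm_num)
    _ = (5367537 / 377490100) * δ := by ring

end Pool.Agent.K9h7.SH
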