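import Pool.Agent.K9h7.SH.Row

/-!
# Quadratic certificates which use the leading coefficient of `V`
-/

set_option autoImplicit false

open Finset Polynomial

namespace Pool.Agent.K9h7.SH

variable {R : ℕ} {ν : ℝ} {δ : ℕ} {M : ℕ → ℕ → ℕ} {V : ℚ[X]}

/-- a lower bound for the total excess -/
theorem Tab.quad (h : Tab R ν δ M V) {X : ℕ} (hX : X + 2 ≤ R) (w : ℕ → ℚ) :
    2 * ∑ x ∈ Icc 1 X, w x * V.eval (x : ℚ) - 2 * δ * ∑ x ∈ Icc 1 X, w x * uu x -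
      ∑ x ∈ Icc 1 X, (w x) ^ 2 * wt x ≤ ∑ k ∈ Icc 1 R, ex M δ k := by
  have e1 : ∑ x ∈ Icc 1 X, ex M δ (x + 2) ≤ ∑ k ∈ Icc 1 R, ex M δ k := by
    have e3 : ∑ x ∈ Icc 1 X, ex M δ (x + 2) = ∑ k ∈ (Icc 1 X).image (fun x => x + 2), ex M δ k := by
      rw [Finset.sum_image]
      intro i _ j _ hij
      simpa using hij
    rw [e3]
    refine Finset.sum_le_sum_of_subset_of_nonneg ?_ ?_
    · intro k hk
      rw [mem_image] at hk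
      obtain ⟨x, hx, rfl⟩ := hk
      rw [mem_Icc] at hx ⊢
      omega
    · intro k hk _
      rw [mem_Icc] at hk
      exact h.ex_nonneg hk.1 hk.2
  refine le_trans ?_ e1
  rw [Finset.mul_sum, Finset.mul_sum, ← Finset.sum_sub_distrib, ← Finset.sum_sub_distrib]
  refine Finset.sum_le_sum fun x hx => ?_
  rw [mem_Icc] at hx
  have h1 := h.row (x := x) (by omega)
  have hx0 : (0 : ℚ) < x := by exact_mod_cast hx.1
  have hw : 0 < wt x := by unfold wt; positivity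
  set g := V.eval (x : ℚ) - δ * uu x with hg
  have h2 : 2 * (w x * V.eval (x : ℚ)) - 2 * δ * (w x * uu x) - (w x) ^ 2 * wt x =
      2 * w x * g - (w x) ^ 2 * wt x := by rw [hg]; ring
  rw [h2]
  by_contra hcon
  push Not at hcon
  have h3 : wt x * ex M δ (x + 2) < wt x * (2 * w x * g - (w x) ^ 2 * wt x) :=
    mul_lt_mul_of_pos_left hcon hw
  nlinarith [sq_nonneg (g - w x * wt x)]

/-- the values of a functional at `V` -/
theorem eval_moment {V : ℚ[X]} {n j X : ℕ} (hn : V.natDegree ≤ n) (h0 : V.eval 0 = 0) (hj : 1 ≤ j)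
    (hjn : j ≤ n) (w : ℕ → ℚ)
    (hw : ∀ i ∈ Ico 1 j, ∑ x ∈ Icc 1 X, w x * (x : ℚ) ^ i = 0) :
    ∑ x ∈ Icc 1 X, w x * V.eval (x : ℚ) =
      ∑ i ∈ Ico j (n + 1), V.coeff i * ∑ x ∈ Icc 1 X, w x * (x : ℚ) ^ i := by
  have e1 : ∀ x : ℚ, V.eval x = ∑ i ∈ range (n + 1), V.coeff i * x ^ i := fun x =>
    eval_eq_sum_range' (by omega) x
  have c0 : V.coeff 0 = 0 := by rw [coeff_zero_eq_eval_zero, h0]
  have e2 : ∑ x ∈ Icc 1 X, w x * V.eval (x : ℚ) =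
      ∑ i ∈ range (n + 1), V.coeff i * ∑ x ∈ Icc 1 X, w x * (x : ℚ) ^ i := by
    simp only [e1, Finset.mul_sum]
    rw [Finset.sum_comm]
    refine Finset.sum_congr rfl fun i _ => Finset.sum_congr rfl fun x _ => ?_
    ring
  rw [e2, Finset.range_eq_Ico, ← Finset.sum_Ico_consecutive _ (Nat.zero_le j) (by omega)]
  have e3 : ∑ i ∈ Ico 0 j, V.coeff i * ∑ x ∈ Icc 1 X, w x * (x : ℚ) ^ i = 0 := by
    refine Finset.sum_eq_zero fun i hi => ?_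
    rw [mem_Ico] at hi
    rcases Nat.eq_zero_or_pos i with rfl | hi0
    · rw [c0, zero_mul]
    · rw [hw i (mem_Ico.2 ⟨hi0, hi.2⟩), mul_zero]
  rw [e3, zero_add]

/-- the upper bound for the total excess -/
theorem Tab.ex_upper (h : Tab R ν δ M V) (hν : ν ≤ ((harmonic R : ℚ) : ℝ)) {s : ℚ}
    (hs : (R : ℚ) - harmonic R ≤ s) : ∑ k ∈ Icc 1 R, ex M δ k ≤ s * δ := by
  have h1 := h.ex_le
  have hδ : (1 : ℝ) ≤ δ := by exact_mod_cast h.pos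
  have hs' : (R : ℝ) - ((harmonic R : ℚ) : ℝ) ≤ s := by
    have := (Rat.cast_le (K := ℝ)).2 hs
    push_cast at this ⊢
    exact this
  have h2 : ((∑ k ∈ Icc 1 R, ex M δ k : ℚ) : ℝ) ≤ ((s * δ : ℚ) : ℝ) := by
    refine h1.trans ?_
    push_cast
    have h3 : (((harmonic R : ℚ) : ℝ) - ν) * δ ≤ (((harmonic R : ℚ) : ℝ) - ν) * (δ : ℝ) ^ 2 := by
      refine mul_le_mul_of_nonneg_left ?_ (by linarith)
      nlinarith
    have h4 : ((R : ℝ) - ((harmonic R : ℚ) : ℝ)) * δ ≤ s * δ :=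
      mul_le_mul_of_nonneg_right hs' (by linarith)
    nlinarith
  exact_mod_cast h2

/-- **The first certificate.** -/
theorem Tab.lead (h : Tab R ν δ M V) (hν : ν ≤ ((harmonic R : ℚ) : ℝ)) {n X : ℕ} (hn1 : 1 ≤ n)
    (hn : V.natDegree = n) (hX : X + 2 ≤ R) (a b : ℕ → ℚ)
    (ha : ∀ i ∈ Ico 1 n, ∑ x ∈ Icc 1 X, a x * (x : ℚ) ^ i = 0)
    (hb : ∀ i ∈ Ico 1 n, ∑ x ∈ Icc 1 X, b x * (x : ℚ) ^ i = 0) {P Q E κ N s : ℚ}
    (hP0 : 0 < P) (hP : P ≤ 2 * ∑ x ∈ Icc 1 X, a x * (x : ℚ) ^ n - ∑ x ∈ Icc 1 X, (a x) ^ 2 * wt x)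
    (hQ1 : -Q ≤ ∑ x ∈ Icc 1 X, b x * (x : ℚ) ^ n - ∑ x ∈ Icc 1 X, a x * uu x -
      ∑ x ∈ Icc 1 X, a x * b x * wt x)
    (hQ2 : ∑ x ∈ Icc 1 X, b x * (x : ℚ) ^ n - ∑ x ∈ Icc 1 X, a x * uu x -
      ∑ x ∈ Icc 1 X, a x * b x * wt x ≤ Q)
    (hE : E ≤ -2 * ∑ x ∈ Icc 1 X, b x * uu x - ∑ x ∈ Icc 1 X, (b x) ^ 2 * wt x)
    (hκ : κ ^ 2 ≤ P * E) (hN0 : 0 ≤ N) (hN : 1 ≤ |V.coeff n| * N)
    (hs : (R : ℚ) - harmonic R ≤ s) (hs0 : 0 ≤ s) (hfin : s * N < 2 * (κ - Q)) : False := by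
  set v := V.coeff n with hv
  have hδ : (1 : ℚ) ≤ δ := by exact_mod_cast h.pos
  have h1 := h.quad hX (fun x => v * a x + δ * b x)
  have h2 := h.ex_upper hν hs
  have hm : ∑ x ∈ Icc 1 X, (v * a x + δ * b x) * V.eval (x : ℚ) =
      v * ∑ x ∈ Icc 1 X, (v * a x + δ * b x) * (x : ℚ) ^ n := by
    rw [eval_moment (V := V) (n := n) (j := n) hn.le h.zero hn1 le_rfl
      (fun x => v * a x + δ * b x) ?_]
    · rw [Nat.Ico_succ_singleton, sum_singleton]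
    · intro i hi
      have e : ∀ x ∈ Icc 1 X, (v * a x + δ * b x) * (x : ℚ) ^ i =
          v * (a x * (x : ℚ) ^ i) + δ * (b x * (x : ℚ) ^ i) := by
        intro x _; ring
      rw [Finset.sum_congr rfl e, Finset.sum_add_distrib, ← Finset.mul_sum, ← Finset.mul_sum,
        ha i hi, hb i hi]
      ring
  have s1 : ∑ x ∈ Icc 1 X, (v * a x + δ * b x) * (x : ℚ) ^ n =
      v * ∑ x ∈ Icc 1 X, a x * (x : ℚ) ^ n + δ * ∑ x ∈ Icc 1 X, b x * (x : ℚ) ^ n := by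
    rw [Finset.mul_sum, Finset.mul_sum, ← Finset.sum_add_distrib]
    exact Finset.sum_congr rfl fun x _ => by ring
  have s2 : ∑ x ∈ Icc 1 X, (v * a x + δ * b x) * uu x =
      v * ∑ x ∈ Icc 1 X, a x * uu x + δ * ∑ x ∈ Icc 1 X, b x * uu x := by
    rw [Finset.mul_sum, Finset.mul_sum, ← Finset.sum_add_distrib]
    exact Finset.sum_congr rfl fun x _ => by ring
  have s3 : ∑ x ∈ Icc 1 X, (v * a x + δ * b x) ^ 2 * wt x =
      v ^ 2 * ∑ x ∈ Icc 1 X, (a x) ^ 2 * wt x + 2 * v * δ * ∑ x ∈ Icc 1 X, a x * b x * wt x +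
        δ ^ 2 * ∑ x ∈ Icc 1 X, (b x) ^ 2 * wt x := by
    rw [Finset.mul_sum, Finset.mul_sum, Finset.mul_sum, ← Finset.sum_add_distrib,
      ← Finset.sum_add_distrib]
    exact Finset.sum_congr rfl fun x _ => by ring
  rw [hm, s1, s2, s3] at h1
  generalize ∑ x ∈ Icc 1 X, a x * (x : ℚ) ^ n = A1 at *
  generalize ∑ x ∈ Icc 1 X, b x * (x : ℚ) ^ n = B1 at *
  generalize ∑ x ∈ Icc 1 X, a x * uu x = Au at *
  generalize ∑ x ∈ Icc 1 X, b x * uu x = Bu at *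
  generalize ∑ x ∈ Icc 1 X, (a x) ^ 2 * wt x = Gaa at *
  generalize ∑ x ∈ Icc 1 X, a x * b x * wt x = Gab at *
  generalize ∑ x ∈ Icc 1 X, (b x) ^ 2 * wt x = Gbb at *
  generalize ∑ k ∈ Icc 1 R, ex M δ k = T at *
  have k1 : P * v ^ 2 + 2 * (B1 - Au - Gab) * v * δ + E * δ ^ 2 ≤ s * δ := by
    have e1 : P * v ^ 2 ≤ (2 * A1 - Gaa) * v ^ 2 := mul_le_mul_of_nonneg_right hP (sq_nonneg _)
    have e2 : E * (δ : ℚ) ^ 2 ≤ (-2 * Bu - Gbb) * (δ : ℚ) ^ 2 :=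
      mul_le_mul_of_nonneg_right hE (sq_nonneg _)
    nlinarith
  have k2 : -(Q * |v| * δ) ≤ (B1 - Au - Gab) * v * δ := by
    have e1 : |(B1 - Au - Gab) * v| ≤ Q * |v| := by
      rw [abs_mul]
      exact mul_le_mul_of_nonneg_right (abs_le.2 ⟨hQ1, hQ2⟩) (abs_nonneg _)
    have e2 := (abs_le.1 e1).1
    nlinarith
  have hv2 : v ^ 2 = |v| ^ 2 := (sq_abs v).symm
  rw [hv2] at k1
  generalize |v| = u at *
  have k3 : 2 * κ * u * δ ≤ P * u ^ 2 + E * δ ^ 2 := by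
    have e1 : 0 ≤ P * (P * u ^ 2 + E * δ ^ 2 - 2 * κ * u * δ) := by
      have e2 : P * (P * u ^ 2 + E * δ ^ 2 - 2 * κ * u * δ) =
          (P * u - κ * δ) ^ 2 + (P * E - κ ^ 2) * δ ^ 2 := by ring
      rw [e2]
      have e3 : 0 ≤ (P * E - κ ^ 2) * (δ : ℚ) ^ 2 := mul_nonneg (by linarith) (sq_nonneg _)
      have e4 : 0 ≤ (P * u - κ * δ) ^ 2 := sq_nonneg _
      linarith
    have e2 := nonneg_of_mul_nonneg_right e1 hP0
    linarith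
  have k4 : 2 * (κ - Q) * u * δ ≤ s * δ := by nlinarith
  have k5 : 2 * (κ - Q) * u ≤ s := le_of_mul_le_mul_right k4 (by linarith)
  have k6 : 0 ≤ 2 * (κ - Q) := by
    have : 0 ≤ s * N := mul_nonneg hs0 hN0
    linarith
  have k7 : 2 * (κ - Q) * 1 ≤ 2 * (κ - Q) * (u * N) := mul_le_mul_of_nonneg_left hN k6
  have k8 : (2 * (κ - Q) * u) * N ≤ s * N := mul_le_mul_of_nonneg_right k5 hN0
  linarith

/-- **The certificate for the good sign of the leading coefficient.** -/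
theorem Tab.lead_sign (h : Tab R ν δ M V) (hν : ν ≤ ((harmonic R : ℚ) : ℝ)) {n X : ℕ} (hn1 : 1 ≤ n)
    (hn : V.natDegree = n) (hX : X + 2 ≤ R) (a b : ℕ → ℚ)
    (ha : ∀ i ∈ Ico 1 n, ∑ x ∈ Icc 1 X, a x * (x : ℚ) ^ i = 0)
    (hb : ∀ i ∈ Ico 1 n, ∑ x ∈ Icc 1 X, b x * (x : ℚ) ^ i = 0) {P E κ N s : ℚ}
    (hP0 : 0 < P) (hP : P ≤ 2 * ∑ x ∈ Icc 1 X, a x * (x : ℚ) ^ n - ∑ x ∈ Icc 1 X, (a x) ^ 2 * wt x)
    (hQ : 0 ≤ ∑ x ∈ Icc 1 X, b x * (x : ℚ) ^ n - ∑ x ∈ Icc 1 X, a x * uu x -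
      ∑ x ∈ Icc 1 X, a x * b x * wt x)
    (hE : E ≤ -2 * ∑ x ∈ Icc 1 X, b x * uu x - ∑ x ∈ Icc 1 X, (b x) ^ 2 * wt x)
    (hκ : κ ^ 2 ≤ P * E) (hκ0 : 0 ≤ κ) (hN0 : 0 ≤ N) (hv0 : 0 ≤ V.coeff n)
    (hN : 1 ≤ V.coeff n * N)
    (hs : (R : ℚ) - harmonic R ≤ s) (hfin : s * N < 2 * κ) : False := by
  set v := V.coeff n with hv
  have hδ : (1 : ℚ) ≤ δ := by exact_mod_cast h.pos
  have h1 := h.quad hX (fun x => v * a x + δ * b x)
  have h2 := h.ex_upper hν hs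
  have hm : ∑ x ∈ Icc 1 X, (v * a x + δ * b x) * V.eval (x : ℚ) =
      v * ∑ x ∈ Icc 1 X, (v * a x + δ * b x) * (x : ℚ) ^ n := by
    rw [eval_moment (V := V) (n := n) (j := n) hn.le h.zero hn1 le_rfl
      (fun x => v * a x + δ * b x) ?_]
    · rw [Nat.Ico_succ_singleton, sum_singleton]
    · intro i hi
      have e : ∀ x ∈ Icc 1 X, (v * a x + δ * b x) * (x : ℚ) ^ i =
          v * (a x * (x : ℚ) ^ i) + δ * (b x * (x : ℚ) ^ i) := by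
        intro x _; ring
      rw [Finset.sum_congr rfl e, Finset.sum_add_distrib, ← Finset.mul_sum, ← Finset.mul_sum,
        ha i hi, hb i hi]
      ring
  have s1 : ∑ x ∈ Icc 1 X, (v * a x + δ * b x) * (x : ℚ) ^ n =
      v * ∑ x ∈ Icc 1 X, a x * (x : ℚ) ^ n + δ * ∑ x ∈ Icc 1 X, b x * (x : ℚ) ^ n := by
    rw [Finset.mul_sum, Finset.mul_sum, ← Finset.sum_add_distrib]
    exact Finset.sum_congr rfl fun x _ => by ring
  have s2 : ∑ x ∈ Icc 1 X, (v * a x + δ * b x) * uu x =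
      v * ∑ x ∈ Icc 1 X, a x * uu x + δ * ∑ x ∈ Icc 1 X, b x * uu x := by
    rw [Finset.mul_sum, Finset.mul_sum, ← Finset.sum_add_distrib]
    exact Finset.sum_congr rfl fun x _ => by ring
  have s3 : ∑ x ∈ Icc 1 X, (v * a x + δ * b x) ^ 2 * wt x =
      v ^ 2 * ∑ x ∈ Icc 1 X, (a x) ^ 2 * wt x + 2 * v * δ * ∑ x ∈ Icc 1 X, a x * b x * wt x +
        δ ^ 2 * ∑ x ∈ Icc 1 X, (b x) ^ 2 * wt x := by
    rw [Finset.mul_sum, Finset.mul_sum, Finset.mul_sum, ← Finset.sum_add_distrib,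
      ← Finset.sum_add_distrib]
    exact Finset.sum_congr rfl fun x _ => by ring
  rw [hm, s1, s2, s3] at h1
  generalize ∑ x ∈ Icc 1 X, a x * (x : ℚ) ^ n = A1 at *
  generalize ∑ x ∈ Icc 1 X, b x * (x : ℚ) ^ n = B1 at *
  generalize ∑ x ∈ Icc 1 X, a x * uu x = Au at *
  generalize ∑ x ∈ Icc 1 X, b x * uu x = Bu at *
  generalize ∑ x ∈ Icc 1 X, (a x) ^ 2 * wt x = Gaa at *
  generalize ∑ x ∈ Icc 1 X, a x * b x * wt x = Gab at *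
  generalize ∑ x ∈ Icc 1 X, (b x) ^ 2 * wt x = Gbb at *
  generalize ∑ k ∈ Icc 1 R, ex M δ k = T at *
  have k2 : 0 ≤ (B1 - Au - Gab) * v * δ := by positivity
  have k1 : P * v ^ 2 + E * δ ^ 2 ≤ s * δ := by
    have e1 : P * v ^ 2 ≤ (2 * A1 - Gaa) * v ^ 2 := mul_le_mul_of_nonneg_right hP (sq_nonneg _)
    have e2 : E * (δ : ℚ) ^ 2 ≤ (-2 * Bu - Gbb) * (δ : ℚ) ^ 2 :=
      mul_le_mul_of_nonneg_right hE (sq_nonneg _)
    nlinarith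
  have k3 : 2 * κ * v * δ ≤ P * v ^ 2 + E * δ ^ 2 := by
    have e1 : 0 ≤ P * (P * v ^ 2 + E * δ ^ 2 - 2 * κ * v * δ) := by
      have e2 : P * (P * v ^ 2 + E * δ ^ 2 - 2 * κ * v * δ) =
          (P * v - κ * δ) ^ 2 + (P * E - κ ^ 2) * δ ^ 2 := by ring
      rw [e2]
      have e3 : 0 ≤ (P * E - κ ^ 2) * (δ : ℚ) ^ 2 := mul_nonneg (by linarith) (sq_nonneg _)
      have e4 : 0 ≤ (P * v - κ * δ) ^ 2 := sq_nonneg _
      linarith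
    have e2 := nonneg_of_mul_nonneg_right e1 hP0
    linarith
  have k4 : 2 * κ * v * δ ≤ s * δ := by nlinarith
  have k5 : 2 * κ * v ≤ s := le_of_mul_le_mul_right k4 (by linarith)
  have k7 : 2 * κ * 1 ≤ 2 * κ * (v * N) := mul_le_mul_of_nonneg_left hN (by linarith)
  have k8 : (2 * κ * v) * N ≤ s * N := mul_le_mul_of_nonneg_right k5 hN0
  linarith

/-- **The second certificate.** The coefficients of degree `n` and `n - 1` are given. -/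
theorem Tab.lead2 (h : Tab R ν δ M V) (hν : ν ≤ ((harmonic R : ℚ) : ℝ)) {m X : ℕ} (hm1 : 1 ≤ m)
    (hn : V.natDegree = m + 1) (hX : X + 2 ≤ R) (a b c : ℕ → ℚ)
    (ha : ∀ i ∈ Ico 1 m, ∑ x ∈ Icc 1 X, a x * (x : ℚ) ^ i = 0)
    (hb : ∀ i ∈ Ico 1 m, ∑ x ∈ Icc 1 X, b x * (x : ℚ) ^ i = 0)
    (hc : ∀ i ∈ Ico 1 m, ∑ x ∈ Icc 1 X, c x * (x : ℚ) ^ i = 0)
    {v v0 τ t : ℚ} (hv : V.coeff (m + 1) = v) (hv' : V.coeff m = v0 + τ * t) (ht : 0 ≤ t)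
    {f0 f1 f2 f3 f4 f5 s : ℚ}
    (h0 : f0 ≤ 2 * (v * ∑ x ∈ Icc 1 X, a x * (x : ℚ) ^ (m + 1) +
      v0 * ∑ x ∈ Icc 1 X, a x * (x : ℚ) ^ m) - ∑ x ∈ Icc 1 X, (a x) ^ 2 * wt x)
    (h1 : f1 ≤ 2 * (v * ∑ x ∈ Icc 1 X, c x * (x : ℚ) ^ (m + 1) +
      v0 * ∑ x ∈ Icc 1 X, c x * (x : ℚ) ^ m + τ * ∑ x ∈ Icc 1 X, a x * (x : ℚ) ^ m) -
      2 * ∑ x ∈ Icc 1 X, a x * c x * wt x)
    (h2 : f2 ≤ 2 * (τ * ∑ x ∈ Icc 1 X, c x * (x : ℚ) ^ m) - ∑ x ∈ Icc 1 X, (c x) ^ 2 * wt x)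
    (h3 : f3 ≤ 2 * (v * ∑ x ∈ Icc 1 X, b x * (x : ℚ) ^ (m + 1) +
      v0 * ∑ x ∈ Icc 1 X, b x * (x : ℚ) ^ m - ∑ x ∈ Icc 1 X, a x * uu x) -
      2 * ∑ x ∈ Icc 1 X, a x * b x * wt x)
    (h4 : f4 ≤ 2 * (τ * ∑ x ∈ Icc 1 X, b x * (x : ℚ) ^ m - ∑ x ∈ Icc 1 X, c x * uu x) -
      2 * ∑ x ∈ Icc 1 X, b x * c x * wt x)
    (h5 : f5 ≤ -2 * ∑ x ∈ Icc 1 X, b x * uu x - ∑ x ∈ Icc 1 X, (b x) ^ 2 * wt x)
    (hs : (R : ℚ) - harmonic R ≤ s) :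
    f0 + f1 * t + f2 * t ^ 2 + f3 * δ + f4 * (t * δ) + f5 * δ ^ 2 ≤ s * δ := by
  have hδ : (1 : ℚ) ≤ δ := by exact_mod_cast h.pos
  have k1 := h.quad hX (fun x => a x + t * c x + δ * b x)
  have k2 := h.ex_upper hν hs
  have hm : ∑ x ∈ Icc 1 X, (a x + t * c x + δ * b x) * V.eval (x : ℚ) =
      (v0 + τ * t) * ∑ x ∈ Icc 1 X, (a x + t * c x + δ * b x) * (x : ℚ) ^ m +
      v * ∑ x ∈ Icc 1 X, (a x + t * c x + δ * b x) * (x : ℚ) ^ (m + 1) := by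
    rw [eval_moment (V := V) (n := m + 1) (j := m) hn.le h.zero hm1 (by omega)
      (fun x => a x + t * c x + δ * b x) ?_]
    · rw [Finset.sum_Ico_succ_top (by omega), Nat.Ico_succ_singleton, sum_singleton, hv, hv']
    · intro i hi
      have e : ∀ x ∈ Icc 1 X, (a x + t * c x + δ * b x) * (x : ℚ) ^ i =
          a x * (x : ℚ) ^ i + t * (c x * (x : ℚ) ^ i) + δ * (b x * (x : ℚ) ^ i) := by
        intro x _; ring
      rw [Finset.sum_congr rfl e, Finset.sum_add_distrib, Finset.sum_add_distrib, ← Finset.mul_sum,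
        ← Finset.mul_sum, ha i hi, hb i hi, hc i hi]
      ring
  have s1 : ∀ i : ℕ, ∑ x ∈ Icc 1 X, (a x + t * c x + δ * b x) * (x : ℚ) ^ i =
      ∑ x ∈ Icc 1 X, a x * (x : ℚ) ^ i + t * ∑ x ∈ Icc 1 X, c x * (x : ℚ) ^ i +
        δ * ∑ x ∈ Icc 1 X, b x * (x : ℚ) ^ i := by
    intro i
    rw [Finset.mul_sum, Finset.mul_sum, ← Finset.sum_add_distrib, ← Finset.sum_add_distrib]
    exact Finset.sum_congr rfl fun x _ => by ring
  have s2 : ∑ x ∈ Icc 1 X, (a x + t * c x + δ * b x) * uu x =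
      ∑ x ∈ Icc 1 X, a x * uu x + t * ∑ x ∈ Icc 1 X, c x * uu x +
        δ * ∑ x ∈ Icc 1 X, b x * uu x := by
    rw [Finset.mul_sum, Finset.mul_sum, ← Finset.sum_add_distrib, ← Finset.sum_add_distrib]
    exact Finset.sum_congr rfl fun x _ => by ring
  have s3 : ∑ x ∈ Icc 1 X, (a x + t * c x + δ * b x) ^ 2 * wt x =
      ∑ x ∈ Icc 1 X, (a x) ^ 2 * wt x + 2 * t * ∑ x ∈ Icc 1 X, a x * c x * wt x +
        t ^ 2 * ∑ x ∈ Icc 1 X, (c x) ^ 2 * wt x + 2 * δ * ∑ x ∈ Icc 1 X, a x * b x * wt x +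
        2 * t * δ * ∑ x ∈ Icc 1 X, b x * c x * wt x +
        δ ^ 2 * ∑ x ∈ Icc 1 X, (b x) ^ 2 * wt x := by
    rw [Finset.mul_sum, Finset.mul_sum, Finset.mul_sum, Finset.mul_sum, Finset.mul_sum,
      ← Finset.sum_add_distrib, ← Finset.sum_add_distrib, ← Finset.sum_add_distrib,
      ← Finset.sum_add_distrib, ← Finset.sum_add_distrib]
    exact Finset.sum_congr rfl fun x _ => by ring
  rw [hm, s1, s1, s2, s3] at k1
  generalize ∑ x ∈ Icc 1 X, a x * (x : ℚ) ^ (m + 1) = An at *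
  generalize ∑ x ∈ Icc 1 X, b x * (x : ℚ) ^ (m + 1) = Bn at *
  generalize ∑ x ∈ Icc 1 X, c x * (x : ℚ) ^ (m + 1) = Cn at *
  generalize ∑ x ∈ Icc 1 X, a x * (x : ℚ) ^ m = Am at *
  generalize ∑ x ∈ Icc 1 X, b x * (x : ℚ) ^ m = Bm at *
  generalize ∑ x ∈ Icc 1 X, c x * (x : ℚ) ^ m = Cm at *
  generalize ∑ x ∈ Icc 1 X, a x * uu x = Au at *
  generalize ∑ x ∈ Icc 1 X, b x * uu x = Bu at *
  generalize ∑ x ∈ Icc 1 X, c x * uu x = Cu at *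
  generalize ∑ x ∈ Icc 1 X, (a x) ^ 2 * wt x = Gaa at *
  generalize ∑ x ∈ Icc 1 X, (b x) ^ 2 * wt x = Gbb at *
  generalize ∑ x ∈ Icc 1 X, (c x) ^ 2 * wt x = Gcc at *
  generalize ∑ x ∈ Icc 1 X, a x * b x * wt x = Gab at *
  generalize ∑ x ∈ Icc 1 X, a x * c x * wt x = Gac at *
  generalize ∑ x ∈ Icc 1 X, b x * c x * wt x = Gbc at *
  generalize ∑ k ∈ Icc 1 R, ex M δ k = T at *
  have g1 := mul_le_mul_of_nonneg_right h1 ht
  have g2 := mul_le_mul_of_nonneg_right h2 (sq_nonneg t)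
  have g3 := mul_le_mul_of_nonneg_right h3 (by linarith : (0 : ℚ) ≤ δ)
  have g4 := mul_le_mul_of_nonneg_right h4 (mul_nonneg ht (by linarith : (0 : ℚ) ≤ δ))
  have g5 := mul_le_mul_of_nonneg_right h5 (sq_nonneg (δ : ℚ))
  refine le_trans ?_ k2
  refine le_trans ?_ k1
  refine (add_le_add (add_le_add (add_le_add (add_le_add (add_le_add h0 g1) g2) g3) g4) g5).trans
    (le_of_eq ?_)
  ring

theorem sub_harmonic_mono {R S : ℕ} (h : R ≤ S) : (R : ℚ) - harmonic R ≤ (S : ℚ) - harmonic S := by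
  induction S, h using Nat.le_induction with
  | base => exact le_rfl
  | succ S _ ih =>
    refine ih.trans ?_
    rw [harmonic_succ]
    have h1 : (((S + 1 : ℕ) : ℚ))⁻¹ ≤ 1 := by
      refine inv_le_one_of_one_le₀ ?_
      push_cast
      have : (0 : ℚ) ≤ S := Nat.cast_nonneg _
      linarith
    push_cast at h1 ⊢
    linarith

/-- the integrality of the values of `V` -/
theorem Tab.int1 (h : Tab R ν δ M V) {T : ℕ} (hT : T + 2 ≤ R) :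
    ∀ t : ℕ, t ≤ T → ∃ z : ℤ, ((t : ℚ) + 1) ^ 2 * V.eval (t : ℚ) = z :=
  fun t ht => ⟨Zt M t, by rw [h.val t (by omega)]; push_cast; rfl⟩

/-- the parity of the values of `V` -/
theorem Tab.int2 (h : Tab R ν δ M V) {T : ℕ} (hT : T + 2 ≤ R) :
    ∀ t : ℕ, t ≤ T → Even t → ∃ z : ℤ, ((t : ℚ) + 1) ^ 2 * V.eval (t : ℚ) = 2 * z := by
  intro t ht he
  have h1 : Even (Zt M t) := by
    unfold Zt
    refine Finset.even_sum _ fun i hi => ?_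
    rw [mem_range] at hi
    refine Even.mul_left ?_ _
    rw [Nat.even_mul]
    rcases Nat.even_or_odd i with h2 | h2
    · exact Or.inl h2
    · right
      rw [Nat.even_iff] at he ⊢
      rw [Nat.odd_iff] at h2
      omega
  obtain ⟨z, hz⟩ := h1
  refine ⟨z, ?_⟩
  rw [h.val t (by omega), hz]
  push_cast
  ring

end Pool.Agent.K9h7.SH
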