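import Pool.Agent.K9h7.SH.Lead

/-!
# The quadratic certificates for exponents which are a little smaller
-/

set_option autoImplicit false

open Finset Polynomial

namespace Pool.Agent.K9h7.SH

variable {R : ℕ} {ν : ℝ} {δ : ℕ} {M : ℕ → ℕ → ℕ} {V : ℚ[X]}

/-- the upper bound for the total excess -/
theorem Tab.ex_upper_c (h : Tab R ν δ M V) {g : ℚ} (_hg : 0 ≤ g)
    (hν : ν ≤ ((harmonic R : ℚ) : ℝ) - g) {s : ℚ} (hs : (R : ℚ) - harmonic R + g ≤ s) :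
    ∑ k ∈ Icc 1 R, ex M δ k ≤ s * δ - g * δ ^ 2 := by
  have h1 := h.ex_le
  have hδ : (1 : ℝ) ≤ δ := by exact_mod_cast h.pos
  have hs' : (R : ℝ) - ((harmonic R : ℚ) : ℝ) + g ≤ s := by
    have := (Rat.cast_le (K := ℝ)).2 hs
    push_cast at this ⊢
    exact this
  have h2 : ((∑ k ∈ Icc 1 R, ex M δ k : ℚ) : ℝ) ≤ ((s * δ - g * δ ^ 2 : ℚ) : ℝ) := by
    refine h1.trans ?_
    push_cast
    generalize ((harmonic R : ℚ) : ℝ) = H at *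
    have h3 : (0 : ℝ) ≤ (H - g - ν) * ((δ : ℝ) ^ 2 - δ) :=
      mul_nonneg (by linarith) (by nlinarith)
    have h4 : ((R : ℝ) - H + g) * δ ≤ s * δ := mul_le_mul_of_nonneg_right hs' (by linarith)
    nlinarith
  exact_mod_cast h2

/-- **The first certificate.** -/
theorem Tab.leadc (h : Tab R ν δ M V) {g : ℚ} (hg : 0 ≤ g) (hν : ν ≤ ((harmonic R : ℚ) : ℝ) - g) {n X : ℕ} (hn1 : 1 ≤ n)
    (hn : V.natDegree = n) (hX : X + 2 ≤ R) (a b : ℕ → ℚ)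
    (ha : ∀ i ∈ Ico 1 n, ∑ x ∈ Icc 1 X, a x * (x : ℚ) ^ i = 0)
    (hb : ∀ i ∈ Ico 1 n, ∑ x ∈ Icc 1 X, b x * (x : ℚ) ^ i = 0) {P Q E κ N s : ℚ}
    (hP0 : 0 < P) (hP : P ≤ 2 * ∑ x ∈ Icc 1 X, a x * (x : ℚ) ^ n - ∑ x ∈ Icc 1 X, (a x) ^ 2 * wt x)
    (hQ1 : -Q ≤ ∑ x ∈ Icc 1 X, b x * (x : ℚ) ^ n - ∑ x ∈ Icc 1 X, a x * uu x -
      ∑ x ∈ Icc 1 X, a x * b x * wt x)
    (hQ2 : ∑ x ∈ Icc 1 X, b x * (x : ℚ) ^ n - ∑ x ∈ Icc 1 X, a x * uu x -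
      ∑ x ∈ Icc 1 X, a x * b x * wt x ≤ Q)
    (hE : E ≤ -2 * ∑ x ∈ Icc 1 X, b x * uu x - ∑ x ∈ Icc 1 X, (b x) ^ 2 * wt x + g)
    (hκ : κ ^ 2 ≤ P * E) (hN0 : 0 ≤ N) (hN : 1 ≤ |V.coeff n| * N)
    (hs : (R : ℚ) - harmonic R + g ≤ s) (hs0 : 0 ≤ s) (hfin : s * N < 2 * (κ - Q)) : False := by
  set v := V.coeff n with hv
  have hδ : (1 : ℚ) ≤ δ := by exact_mod_cast h.pos
  have h1 := h.quad hX (fun x => v * a x + δ * b x)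
  have h2 := h.ex_upper_c hg hν hs
  have hm : ∑ x ∈ Icc 1 X, (v * a x + δ * b x) * V.eval (x : ℚ) =
      v * ∑ x ∈ Icc 1 X, (v * a x + δ * b x) * (x : ℚ) ^ n := by
    rw [eval_moment (V := V) (n := n) (j := n) hn.le h.zero hn1 le_rfl
      (fun x => v * a x + δ * b x) ?_]
    · rw [Nat.Ico_succ_singleton, sum_singleton]
    · intro i hi
      have e : ∀ x ∈ Icc 1 X, (v * a x + δ * b x) * (x : ℚ) ^ i =
          v * (a x * (x : ℚ) ^ i) + δ * (b x * (x : ℚ) ^ i) := by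
        intro x _; ring
      rw [Finset.sum_congr rfl e, Finset.sum_add_distrib, ← Finset.mul_sum, ← Finset.mul_sum,
        ha i hi, hb i hi]
      ring
  have s1 : ∑ x ∈ Icc 1 X, (v * a x + δ * b x) * (x : ℚ) ^ n =
      v * ∑ x ∈ Icc 1 X, a x * (x : ℚ) ^ n + δ * ∑ x ∈ Icc 1 X, b x * (x : ℚ) ^ n := by
    rw [Finset.mul_sum, Finset.mul_sum, ← Finset.sum_add_distrib]
    exact Finset.sum_congr rfl fun x _ => by ring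
  have s2 : ∑ x ∈ Icc 1 X, (v * a x + δ * b x) * uu x =
      v * ∑ x ∈ Icc 1 X, a x * uu x + δ * ∑ x ∈ Icc 1 X, b x * uu x := by
    rw [Finset.mul_sum, Finset.mul_sum, ← Finset.sum_add_distrib]
    exact Finset.sum_congr rfl fun x _ => by ring
  have s3 : ∑ x ∈ Icc 1 X, (v * a x + δ * b x) ^ 2 * wt x =
      v ^ 2 * ∑ x ∈ Icc 1 X, (a x) ^ 2 * wt x + 2 * v * δ * ∑ x ∈ Icc 1 X, a x * b x * wt x +
        δ ^ 2 * ∑ x ∈ Icc 1 X, (b x) ^ 2 * wt x := by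
    rw [Finset.mul_sum, Finset.mul_sum, Finset.mul_sum, ← Finset.sum_add_distrib,
      ← Finset.sum_add_distrib]
    exact Finset.sum_congr rfl fun x _ => by ring
  rw [hm, s1, s2, s3] at h1
  generalize ∑ x ∈ Icc 1 X, a x * (x : ℚ) ^ n = A1 at *
  generalize ∑ x ∈ Icc 1 X, b x * (x : ℚ) ^ n = B1 at *
  generalize ∑ x ∈ Icc 1 X, a x * uu x = Au at *
  generalize ∑ x ∈ Icc 1 X, b x * uu x = Bu at *
  generalize ∑ x ∈ Icc 1 X, (a x) ^ 2 * wt x = Gaa at *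
  generalize ∑ x ∈ Icc 1 X, a x * b x * wt x = Gab at *
  generalize ∑ x ∈ Icc 1 X, (b x) ^ 2 * wt x = Gbb at *
  generalize ∑ k ∈ Icc 1 R, ex M δ k = T at *
  have k1 : P * v ^ 2 + 2 * (B1 - Au - Gab) * v * δ + E * δ ^ 2 ≤ s * δ := by
    have e1 : P * v ^ 2 ≤ (2 * A1 - Gaa) * v ^ 2 := mul_le_mul_of_nonneg_right hP (sq_nonneg _)
    have e2 : E * (δ : ℚ) ^ 2 ≤ (-2 * Bu - Gbb + g) * (δ : ℚ) ^ 2 :=
      mul_le_mul_of_nonneg_right hE (sq_nonneg _)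
    nlinarith
  have k2 : -(Q * |v| * δ) ≤ (B1 - Au - Gab) * v * δ := by
    have e1 : |(B1 - Au - Gab) * v| ≤ Q * |v| := by
      rw [abs_mul]
      exact mul_le_mul_of_nonneg_right (abs_le.2 ⟨hQ1, hQ2⟩) (abs_nonneg _)
    have e2 := (abs_le.1 e1).1
    nlinarith
  have hv2 : v ^ 2 = |v| ^ 2 := (sq_abs v).symm
  rw [hv2] at k1
  generalize |v| = u at *
  have k3 : 2 * κ * u * δ ≤ P * u ^ 2 + E * δ ^ 2 := by
    have e1 : 0 ≤ P * (P * u ^ 2 + E * δ ^ 2 - 2 * κ * u * δ) := by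
      have e2 : P * (P * u ^ 2 + E * δ ^ 2 - 2 * κ * u * δ) =
          (P * u - κ * δ) ^ 2 + (P * E - κ ^ 2) * δ ^ 2 := by ring
      rw [e2]
      have e3 : 0 ≤ (P * E - κ ^ 2) * (δ : ℚ) ^ 2 := mul_nonneg (by linarith) (sq_nonneg _)
      have e4 : 0 ≤ (P * u - κ * δ) ^ 2 := sq_nonneg _
      linarith
    have e2 := nonneg_of_mul_nonneg_right e1 hP0
    linarith
  have k4 : 2 * (κ - Q) * u * δ ≤ s * δ := by nlinarith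
  have k5 : 2 * (κ - Q) * u ≤ s := le_of_mul_le_mul_right k4 (by linarith)
  have k6 : 0 ≤ 2 * (κ - Q) := by
    have : 0 ≤ s * N := mul_nonneg hs0 hN0
    linarith
  have k7 : 2 * (κ - Q) * 1 ≤ 2 * (κ - Q) * (u * N) := mul_le_mul_of_nonneg_left hN k6
  have k8 : (2 * (κ - Q) * u) * N ≤ s * N := mul_le_mul_of_nonneg_right k5 hN0
  linarith

/-- **The certificate for the good sign of the leading coefficient.** -/
theorem Tab.lead_signc (h : Tab R ν δ M V) {g : ℚ} (hg : 0 ≤ g) (hν : ν ≤ ((harmonic R : ℚ) : ℝ) - g) {n X : ℕ} (hn1 : 1 ≤ n)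
    (hn : V.natDegree = n) (hX : X + 2 ≤ R) (a b : ℕ → ℚ)
    (ha : ∀ i ∈ Ico 1 n, ∑ x ∈ Icc 1 X, a x * (x : ℚ) ^ i = 0)
    (hb : ∀ i ∈ Ico 1 n, ∑ x ∈ Icc 1 X, b x * (x : ℚ) ^ i = 0) {P E κ N s : ℚ}
    (hP0 : 0 < P) (hP : P ≤ 2 * ∑ x ∈ Icc 1 X, a x * (x : ℚ) ^ n - ∑ x ∈ Icc 1 X, (a x) ^ 2 * wt x)
    (hQ : 0 ≤ ∑ x ∈ Icc 1 X, b x * (x : ℚ) ^ n - ∑ x ∈ Icc 1 X, a x * uu x -
      ∑ x ∈ Icc 1 X, a x * b x * wt x)
    (hE : E ≤ -2 * ∑ x ∈ Icc 1 X, b x * uu x - ∑ x ∈ Icc 1 X, (b x) ^ 2 * wt x + g)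
    (hκ : κ ^ 2 ≤ P * E) (hκ0 : 0 ≤ κ) (hN0 : 0 ≤ N) (hv0 : 0 ≤ V.coeff n)
    (hN : 1 ≤ V.coeff n * N)
    (hs : (R : ℚ) - harmonic R + g ≤ s) (hfin : s * N < 2 * κ) : False := by
  set v := V.coeff n with hv
  have hδ : (1 : ℚ) ≤ δ := by exact_mod_cast h.pos
  have h1 := h.quad hX (fun x => v * a x + δ * b x)
  have h2 := h.ex_upper_c hg hν hs
  have hm : ∑ x ∈ Icc 1 X, (v * a x + δ * b x) * V.eval (x : ℚ) =
      v * ∑ x ∈ Icc 1 X, (v * a x + δ * b x) * (x : ℚ) ^ n := by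
    rw [eval_moment (V := V) (n := n) (j := n) hn.le h.zero hn1 le_rfl
      (fun x => v * a x + δ * b x) ?_]
    · rw [Nat.Ico_succ_singleton, sum_singleton]
    · intro i hi
      have e : ∀ x ∈ Icc 1 X, (v * a x + δ * b x) * (x : ℚ) ^ i =
          v * (a x * (x : ℚ) ^ i) + δ * (b x * (x : ℚ) ^ i) := by
        intro x _; ring
      rw [Finset.sum_congr rfl e, Finset.sum_add_distrib, ← Finset.mul_sum, ← Finset.mul_sum,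
        ha i hi, hb i hi]
      ring
  have s1 : ∑ x ∈ Icc 1 X, (v * a x + δ * b x) * (x : ℚ) ^ n =
      v * ∑ x ∈ Icc 1 X, a x * (x : ℚ) ^ n + δ * ∑ x ∈ Icc 1 X, b x * (x : ℚ) ^ n := by
    rw [Finset.mul_sum, Finset.mul_sum, ← Finset.sum_add_distrib]
    exact Finset.sum_congr rfl fun x _ => by ring
  have s2 : ∑ x ∈ Icc 1 X, (v * a x + δ * b x) * uu x =
      v * ∑ x ∈ Icc 1 X, a x * uu x + δ * ∑ x ∈ Icc 1 X, b x * uu x := by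
    rw [Finset.mul_sum, Finset.mul_sum, ← Finset.sum_add_distrib]
    exact Finset.sum_congr rfl fun x _ => by ring
  have s3 : ∑ x ∈ Icc 1 X, (v * a x + δ * b x) ^ 2 * wt x =
      v ^ 2 * ∑ x ∈ Icc 1 X, (a x) ^ 2 * wt x + 2 * v * δ * ∑ x ∈ Icc 1 X, a x * b x * wt x +
        δ ^ 2 * ∑ x ∈ Icc 1 X, (b x) ^ 2 * wt x := by
    rw [Finset.mul_sum, Finset.mul_sum, Finset.mul_sum, ← Finset.sum_add_distrib,
      ← Finset.sum_add_distrib]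
    exact Finset.sum_congr rfl fun x _ => by ring
  rw [hm, s1, s2, s3] at h1
  generalize ∑ x ∈ Icc 1 X, a x * (x : ℚ) ^ n = A1 at *
  generalize ∑ x ∈ Icc 1 X, b x * (x : ℚ) ^ n = B1 at *
  generalize ∑ x ∈ Icc 1 X, a x * uu x = Au at *
  generalize ∑ x ∈ Icc 1 X, b x * uu x = Bu at *
  generalize ∑ x ∈ Icc 1 X, (a x) ^ 2 * wt x = Gaa at *
  generalize ∑ x ∈ Icc 1 X, a x * b x * wt x = Gab at *
  generalize ∑ x ∈ Icc 1 X, (b x) ^ 2 * wt x = Gbb at *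
  generalize ∑ k ∈ Icc 1 R, ex M δ k = T at *
  have k2 : 0 ≤ (B1 - Au - Gab) * v * δ := by positivity
  have k1 : P * v ^ 2 + E * δ ^ 2 ≤ s * δ := by
    have e1 : P * v ^ 2 ≤ (2 * A1 - Gaa) * v ^ 2 := mul_le_mul_of_nonneg_right hP (sq_nonneg _)
    have e2 : E * (δ : ℚ) ^ 2 ≤ (-2 * Bu - Gbb + g) * (δ : ℚ) ^ 2 :=
      mul_le_mul_of_nonneg_right hE (sq_nonneg _)
    nlinarith
  have k3 : 2 * κ * v * δ ≤ P * v ^ 2 + E * δ ^ 2 := by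
    have e1 : 0 ≤ P * (P * v ^ 2 + E * δ ^ 2 - 2 * κ * v * δ) := by
      have e2 : P * (P * v ^ 2 + E * δ ^ 2 - 2 * κ * v * δ) =
          (P * v - κ * δ) ^ 2 + (P * E - κ ^ 2) * δ ^ 2 := by ring
      rw [e2]
      have e3 : 0 ≤ (P * E - κ ^ 2) * (δ : ℚ) ^ 2 := mul_nonneg (by linarith) (sq_nonneg _)
      have e4 : 0 ≤ (P * v - κ * δ) ^ 2 := sq_nonneg _
      linarith
    have e2 := nonneg_of_mul_nonneg_right e1 hP0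
    linarith
  have k4 : 2 * κ * v * δ ≤ s * δ := by nlinarith
  have k5 : 2 * κ * v ≤ s := le_of_mul_le_mul_right k4 (by linarith)
  have k7 : 2 * κ * 1 ≤ 2 * κ * (v * N) := mul_le_mul_of_nonneg_left hN (by linarith)
  have k8 : (2 * κ * v) * N ≤ s * N := mul_le_mul_of_nonneg_right k5 hN0
  linarith

/-- **The second certificate.** The coefficients of degree `n` and `n - 1` are given. -/
theorem Tab.lead2c (h : Tab R ν δ M V) {g : ℚ} (hg : 0 ≤ g) (hν : ν ≤ ((harmonic R : ℚ) : ℝ) - g) {m X : ℕ} (hm1 : 1 ≤ m)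
    (hn : V.natDegree = m + 1) (hX : X + 2 ≤ R) (a b c : ℕ → ℚ)
    (ha : ∀ i ∈ Ico 1 m, ∑ x ∈ Icc 1 X, a x * (x : ℚ) ^ i = 0)
    (hb : ∀ i ∈ Ico 1 m, ∑ x ∈ Icc 1 X, b x * (x : ℚ) ^ i = 0)
    (hc : ∀ i ∈ Ico 1 m, ∑ x ∈ Icc 1 X, c x * (x : ℚ) ^ i = 0)
    {v v0 τ t : ℚ} (hv : V.coeff (m + 1) = v) (hv' : V.coeff m = v0 + τ * t) (ht : 0 ≤ t)
    {f0 f1 f2 f3 f4 f5 s : ℚ}
    (h0 : f0 ≤ 2 * (v * ∑ x ∈ Icc 1 X, a x * (x : ℚ) ^ (m + 1) +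
      v0 * ∑ x ∈ Icc 1 X, a x * (x : ℚ) ^ m) - ∑ x ∈ Icc 1 X, (a x) ^ 2 * wt x)
    (h1 : f1 ≤ 2 * (v * ∑ x ∈ Icc 1 X, c x * (x : ℚ) ^ (m + 1) +
      v0 * ∑ x ∈ Icc 1 X, c x * (x : ℚ) ^ m + τ * ∑ x ∈ Icc 1 X, a x * (x : ℚ) ^ m) -
      2 * ∑ x ∈ Icc 1 X, a x * c x * wt x)
    (h2 : f2 ≤ 2 * (τ * ∑ x ∈ Icc 1 X, c x * (x : ℚ) ^ m) - ∑ x ∈ Icc 1 X, (c x) ^ 2 * wt x)
    (h3 : f3 ≤ 2 * (v * ∑ x ∈ Icc 1 X, b x * (x : ℚ) ^ (m + 1) +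
      v0 * ∑ x ∈ Icc 1 X, b x * (x : ℚ) ^ m - ∑ x ∈ Icc 1 X, a x * uu x) -
      2 * ∑ x ∈ Icc 1 X, a x * b x * wt x)
    (h4 : f4 ≤ 2 * (τ * ∑ x ∈ Icc 1 X, b x * (x : ℚ) ^ m - ∑ x ∈ Icc 1 X, c x * uu x) -
      2 * ∑ x ∈ Icc 1 X, b x * c x * wt x)
    (h5 : f5 ≤ -2 * ∑ x ∈ Icc 1 X, b x * uu x - ∑ x ∈ Icc 1 X, (b x) ^ 2 * wt x + g)
    (hs : (R : ℚ) - harmonic R + g ≤ s) :
    f0 + f1 * t + f2 * t ^ 2 + f3 * δ + f4 * (t * δ) + f5 * δ ^ 2 ≤ s * δ := by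
  have hδ : (1 : ℚ) ≤ δ := by exact_mod_cast h.pos
  have k1 := h.quad hX (fun x => a x + t * c x + δ * b x)
  have k2 := h.ex_upper_c hg hν hs
  have hm : ∑ x ∈ Icc 1 X, (a x + t * c x + δ * b x) * V.eval (x : ℚ) =
      (v0 + τ * t) * ∑ x ∈ Icc 1 X, (a x + t * c x + δ * b x) * (x : ℚ) ^ m +
      v * ∑ x ∈ Icc 1 X, (a x + t * c x + δ * b x) * (x : ℚ) ^ (m + 1) := by
    rw [eval_moment (V := V) (n := m + 1) (j := m) hn.le h.zero hm1 (by omega)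
      (fun x => a x + t * c x + δ * b x) ?_]
    · rw [Finset.sum_Ico_succ_top (by omega), Nat.Ico_succ_singleton, sum_singleton, hv, hv']
    · intro i hi
      have e : ∀ x ∈ Icc 1 X, (a x + t * c x + δ * b x) * (x : ℚ) ^ i =
          a x * (x : ℚ) ^ i + t * (c x * (x : ℚ) ^ i) + δ * (b x * (x : ℚ) ^ i) := by
        intro x _; ring
      rw [Finset.sum_congr rfl e, Finset.sum_add_distrib, Finset.sum_add_distrib, ← Finset.mul_sum,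
        ← Finset.mul_sum, ha i hi, hb i hi, hc i hi]
      ring
  have s1 : ∀ i : ℕ, ∑ x ∈ Icc 1 X, (a x + t * c x + δ * b x) * (x : ℚ) ^ i =
      ∑ x ∈ Icc 1 X, a x * (x : ℚ) ^ i + t * ∑ x ∈ Icc 1 X, c x * (x : ℚ) ^ i +
        δ * ∑ x ∈ Icc 1 X, b x * (x : ℚ) ^ i := by
    intro i
    rw [Finset.mul_sum, Finset.mul_sum, ← Finset.sum_add_distrib, ← Finset.sum_add_distrib]
    exact Finset.sum_congr rfl fun x _ => by ring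
  have s2 : ∑ x ∈ Icc 1 X, (a x + t * c x + δ * b x) * uu x =
      ∑ x ∈ Icc 1 X, a x * uu x + t * ∑ x ∈ Icc 1 X, c x * uu x +
        δ * ∑ x ∈ Icc 1 X, b x * uu x := by
    rw [Finset.mul_sum, Finset.mul_sum, ← Finset.sum_add_distrib, ← Finset.sum_add_distrib]
    exact Finset.sum_congr rfl fun x _ => by ring
  have s3 : ∑ x ∈ Icc 1 X, (a x + t * c x + δ * b x) ^ 2 * wt x =
      ∑ x ∈ Icc 1 X, (a x) ^ 2 * wt x + 2 * t * ∑ x ∈ Icc 1 X, a x * c x * wt x +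
        t ^ 2 * ∑ x ∈ Icc 1 X, (c x) ^ 2 * wt x + 2 * δ * ∑ x ∈ Icc 1 X, a x * b x * wt x +
        2 * t * δ * ∑ x ∈ Icc 1 X, b x * c x * wt x +
        δ ^ 2 * ∑ x ∈ Icc 1 X, (b x) ^ 2 * wt x := by
    rw [Finset.mul_sum, Finset.mul_sum, Finset.mul_sum, Finset.mul_sum, Finset.mul_sum,
      ← Finset.sum_add_distrib, ← Finset.sum_add_distrib, ← Finset.sum_add_distrib,
      ← Finset.sum_add_distrib, ← Finset.sum_add_distrib]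
    exact Finset.sum_congr rfl fun x _ => by ring
  rw [hm, s1, s1, s2, s3] at k1
  generalize ∑ x ∈ Icc 1 X, a x * (x : ℚ) ^ (m + 1) = An at *
  generalize ∑ x ∈ Icc 1 X, b x * (x : ℚ) ^ (m + 1) = Bn at *
  generalize ∑ x ∈ Icc 1 X, c x * (x : ℚ) ^ (m + 1) = Cn at *
  generalize ∑ x ∈ Icc 1 X, a x * (x : ℚ) ^ m = Am at *
  generalize ∑ x ∈ Icc 1 X, b x * (x : ℚ) ^ m = Bm at *
  generalize ∑ x ∈ Icc 1 X, c x * (x : ℚ) ^ m = Cm at *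
  generalize ∑ x ∈ Icc 1 X, a x * uu x = Au at *
  generalize ∑ x ∈ Icc 1 X, b x * uu x = Bu at *
  generalize ∑ x ∈ Icc 1 X, c x * uu x = Cu at *
  generalize ∑ x ∈ Icc 1 X, (a x) ^ 2 * wt x = Gaa at *
  generalize ∑ x ∈ Icc 1 X, (b x) ^ 2 * wt x = Gbb at *
  generalize ∑ x ∈ Icc 1 X, (c x) ^ 2 * wt x = Gcc at *
  generalize ∑ x ∈ Icc 1 X, a x * b x * wt x = Gab at *
  generalize ∑ x ∈ Icc 1 X, a x * c x * wt x = Gac at *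
  generalize ∑ x ∈ Icc 1 X, b x * c x * wt x = Gbc at *
  generalize ∑ k ∈ Icc 1 R, ex M δ k = T at *
  have g1 := mul_le_mul_of_nonneg_right h1 ht
  have g2 := mul_le_mul_of_nonneg_right h2 (sq_nonneg t)
  have g3 := mul_le_mul_of_nonneg_right h3 (by linarith : (0 : ℚ) ≤ δ)
  have g4 := mul_le_mul_of_nonneg_right h4 (mul_nonneg ht (by linarith : (0 : ℚ) ≤ δ))
  have g5 := mul_le_mul_of_nonneg_right h5 (sq_nonneg (δ : ℚ))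
  have k3 := k1.trans k2
  have k4 := add_le_add (add_le_add (add_le_add (add_le_add (add_le_add h0 g1) g2) g3) g4) g5
  refine k4.trans ?_
  have k5 : (s * (δ : ℚ) - g * (δ : ℚ) ^ 2) + g * (δ : ℚ) ^ 2 = s * δ := by ring
  rw [← k5]
  refine le_trans (le_of_eq ?_) (add_le_add k3 (le_refl (g * (δ : ℚ) ^ 2)))
  ring

end Pool.Agent.K9h7.SH
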