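import Pool.Agent.K9h7.SH.Mid
import Pool.Agent.K9h7.SG.Harm9

/-!
# From the tables to Steiner systems
-/

set_option autoImplicit false

open Finset Polynomial Polynomial.Bivariate

namespace Pool.Agent.K9h7.SH

open Pool.Agent.K9h7.SG Pool.Agent.R60.Steiner

/-- A fixed irreducible polynomial does not vanish at `(a, b)` if `a` is large and if there is
no table. -/
theorem kill_of {G : ℤ[X][Y]} (hG : Irreducible G) {ν : ℝ} (hν : 1 ≤ ν) {R : ℕ}
    (hR : 2 ≤ R) (hT : ∀ (δ : ℕ) (M : ℕ → ℕ → ℕ) (V : ℚ[X]), ¬ Tab R ν δ M V) :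
    ∃ N : ℕ, ∀ a b r : ℕ, N ≤ a → R ≤ r → NoCarry a b r → 0 < b →
      (b : ℝ) ≤ (a : ℝ) ^ ν → evalEval (a : ℤ) (b : ℤ) G ≠ 0 := by
  by_cases h0 : G.natDegree = 0
  · have h1 : G = C (G.coeff 0) := eq_C_of_natDegree_eq_zero h0
    have h2 : G.coeff 0 ≠ 0 := by
      intro h
      rw [h, C_0] at h1
      exact hG.ne_zero h1
    obtain ⟨x0, hx0⟩ := eventually_abs_lt (S := 0) (A := G.coeff 0) (by
      rw [degree_zero]
      exact bot_lt_iff_ne_bot.2 (by rwa [Ne, degree_eq_bot]))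
    refine ⟨x0, fun a b r ha _ _ _ _ h => ?_⟩
    rw [h1, evalEval_C] at h
    have h4 := hx0 (a : ℤ) (by rw [Nat.abs_cast]; exact_mod_cast ha)
    rw [h] at h4
    simp at h4
  · have h1 : ¬ Rich R ν G := by
      intro hr
      obtain ⟨δ, M, V, h⟩ := tab_of_rich hG h0 hν hR hr
      exact hT δ M V h
    unfold Rich at h1
    push Not at h1
    obtain ⟨N, hN⟩ := h1
    exact ⟨N, fun a b r ha hr hnc hb hb' => hN a b r ha hr hnc hb hb'⟩

/-- If there is no table then `n > (q - r) ^ ν` for large `q - r`. -/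
theorem main_of (R : ℕ) (ν : ℝ) (hν : ν < harmonic R) (hR : 2 ≤ R)
    (hT : 1 < ν → ∀ (δ : ℕ) (M : ℕ → ℕ → ℕ) (V : ℚ[X]), ¬ Tab R ν δ M V) :
    ∃ A : ℕ, ∀ n q r : ℕ, R ≤ r → r + A ≤ q → q < n → DivCond n q r →
      ((q - r : ℕ) : ℝ) ^ ν < n := by
  rcases le_or_gt ν 1 with h1 | h1
  · refine ⟨1, fun n q r _ hq hqn _ => ?_⟩
    have e1 : (1 : ℝ) ≤ ((q - r : ℕ) : ℝ) := by exact_mod_cast (by omega : 1 ≤ q - r)
    calc ((q - r : ℕ) : ℝ) ^ ν ≤ ((q - r : ℕ) : ℝ) ^ (1 : ℝ) :=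
          Real.rpow_le_rpow_of_exponent_le e1 h1
      _ = ((q - r : ℕ) : ℝ) := Real.rpow_one _
      _ < n := by exact_mod_cast (by omega : q - r < n)
  · obtain ⟨𝓖, a0, hG, hcore⟩ := core R ν (harmonic R - ν) (by linarith) (by linarith) (by linarith)
    have hk : ∀ G : ℤ[X][Y], ∃ N : ℕ, G ∈ 𝓖 → ∀ a b r : ℕ, N ≤ a → R ≤ r →
        NoCarry a b r → 0 < b → (b : ℝ) ≤ (a : ℝ) ^ ν → evalEval (a : ℤ) (b : ℤ) G ≠ 0 := by
      intro G
      by_cases h : G ∈ 𝓖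
      · obtain ⟨N, hN⟩ := kill_of (hG G h) h1.le hR (hT h1)
        exact ⟨N, fun _ => hN⟩
      · exact ⟨0, fun h' => absurd h' h⟩
    choose Nf hNf using hk
    refine ⟨max a0 (max 1 (𝓖.sup Nf)), ?_⟩
    intro n q r hr hq hqn hS
    by_contra hcon
    push Not at hcon
    have hnc := noCarry_of_div (by omega) hqn.le hS
    have e1 : a0 ≤ q - r := by
      have : a0 ≤ max a0 (max 1 (𝓖.sup Nf)) := le_max_left _ _
      omega
    have hb : ((n - q : ℕ) : ℝ) ≤ ((q - r : ℕ) : ℝ) ^ ν := by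
      refine le_trans ?_ hcon
      exact_mod_cast Nat.sub_le _ _
    obtain ⟨G, hGm, hG0⟩ := hcore (q - r) (n - q) r e1 hr hnc hb
    have e4 : Nf G ≤ 𝓖.sup Nf := Finset.le_sup hGm
    have e5 : 𝓖.sup Nf ≤ max a0 (max 1 (𝓖.sup Nf)) :=
      (le_max_right _ _).trans (le_max_right _ _)
    exact hNf G hGm (q - r) (n - q) r (by omega) hr hnc (by omega) hb hG0

/-- **Main theorem.** -/
theorem harmonic_strength (R : ℕ) (ν : ℝ)
    (h : (80 ≤ R ∧ ν < harmonic R) ∨ (30 ≤ R ∧ ν ≤ harmonic R - 30 / R)) :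
    ∃ A : ℕ, ∀ n q r : ℕ, R ≤ r → r + A ≤ q → q < n → DivCond n q r →
      ((q - r : ℕ) : ℝ) ^ ν < n := by
  have hR : 30 ≤ R := by rcases h with h | h <;> omega
  have hR0 : (0 : ℝ) < 30 / (R : ℝ) := by
    have : (0 : ℝ) < R := by exact_mod_cast (by omega : 0 < R)
    positivity
  have hν : ν < harmonic R := by
    rcases h with h | h
    · exact h.2
    · linarith [h.2]
  refine main_of R ν hν (by omega) fun _ δ M V hT => ?_
  rcases h with h | h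
  · exact hT.false_mid h.1 hν
  · refine hT.elim hR (Or.inl ?_)
    push_cast
    exact h.2

end Pool.Agent.K9h7.SH
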