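import Pool.Agent.K9h7.SH.Tab

/-!
# The excess of a table
-/

set_option autoImplicit false

open Finset Polynomial

namespace Pool.Agent.K9h7.SH

theorem pow1_sum (k : ℕ) : ∑ i ∈ range k, (i : ℚ) = k * (k - 1) / 2 := by
  induction k with
  | zero => simp
  | succ k ih => rw [sum_range_succ, ih]; push_cast; ring

theorem pow2_sum (k : ℕ) : ∑ i ∈ range k, (i : ℚ) ^ 2 = k * (k - 1) * (2 * k - 1) / 6 := by
  induction k with
  | zero => simp
  | succ k ih => rw [sum_range_succ, ih]; push_cast; ring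

theorem pow3_sum (k : ℕ) : ∑ i ∈ range k, (i : ℚ) ^ 3 = (k * (k - 1) / 2) ^ 2 := by
  induction k with
  | zero => simp
  | succ k ih => rw [sum_range_succ, ih]; push_cast; ring

theorem pow4_sum (k : ℕ) : ∑ i ∈ range k, (i : ℚ) ^ 4 =
    k * (k - 1) * (2 * k - 1) * (3 * k ^ 2 - 3 * k - 1) / 30 := by
  induction k with
  | zero => simp
  | succ k ih => rw [sum_range_succ, ih]; push_cast; ring

theorem f_sum (k : ℕ) : ∑ i ∈ range k, ((i : ℚ) * (k - 1 - i)) = k * (k - 1) * (k - 2) / 6 := by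
  have h : ∀ i ∈ range k, ((i : ℚ) * (k - 1 - i)) = ((k : ℚ) - 1) * i - (i : ℚ) ^ 2 := by
    intro i _; ring
  rw [Finset.sum_congr rfl h, Finset.sum_sub_distrib, ← Finset.mul_sum, pow1_sum, pow2_sum]
  ring

theorem f2_sum (k : ℕ) : ∑ i ∈ range k, ((i : ℚ) * (k - 1 - i)) ^ 2 =
    (k : ℚ) * (k - 1) * (k - 2) * ((k : ℚ) ^ 2 - 2 * k + 2) / 30 := by
  have h : ∀ i ∈ range k, ((i : ℚ) * (k - 1 - i)) ^ 2 =
      ((k : ℚ) - 1) ^ 2 * (i : ℚ) ^ 2 - 2 * ((k : ℚ) - 1) * (i : ℚ) ^ 3 + (i : ℚ) ^ 4 := by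
    intro i _; ring
  rw [Finset.sum_congr rfl h, Finset.sum_add_distrib, Finset.sum_sub_distrib, ← Finset.mul_sum,
    ← Finset.mul_sum, pow2_sum, pow3_sum, pow4_sum]
  ring

/-- the excess of row `k` -/
def ex (M : ℕ → ℕ → ℕ) (δ k : ℕ) : ℚ := ∑ i ∈ range k, (M k i : ℚ) ^ 2 - (δ : ℚ) ^ 2 / k

/-- the weight of row `x + 2` -/
def wt (x : ℕ) : ℚ := (x + 2) * (x + 3) * x * (x + 4) / (180 * (x + 1) ^ 3)

/-- the value of `V / δ` for equidistributed rows -/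
def uu (x : ℕ) : ℚ := x / (6 * (x + 1))

variable {R : ℕ} {ν : ℝ} {δ : ℕ} {M : ℕ → ℕ → ℕ} {V : ℚ[X]}

theorem Tab.ex_nonneg (h : Tab R ν δ M V) {k : ℕ} (hk : 1 ≤ k) (hkR : k ≤ R) : 0 ≤ ex M δ k := by
  unfold ex
  have h1 := sq_sum_le_card_mul_sum_sq (s := range k) (f := fun i => (M k i : ℚ))
  rw [card_range] at h1
  have h2 : ∑ i ∈ range k, (M k i : ℚ) = δ := by exact_mod_cast h.sum k hk hkR
  rw [h2] at h1
  have h3 : (0 : ℚ) < k := by exact_mod_cast hk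
  rw [sub_nonneg, div_le_iff₀ h3]
  linarith

theorem Tab.row (h : Tab R ν δ M V) {x : ℕ} (hx : x + 2 ≤ R) :
    (V.eval (x : ℚ) - δ * uu x) ^ 2 ≤ wt x * ex M δ (x + 2) := by
  set k : ℕ := x + 2 with hk
  have hkq : (k : ℚ) = x + 2 := by rw [hk]; push_cast; ring
  have hk0 : (0 : ℚ) < k := by rw [hkq]; positivity
  set a : ℚ := ((k : ℚ) - 1) * (k - 2) / 6 with ha
  have hM : ∑ i ∈ range k, (M k i : ℚ) = δ := by exact_mod_cast h.sum k (by omega) hx
  have hZ : ∑ i ∈ range k, (M k i : ℚ) * (i * ((k : ℚ) - 1 - i)) = Zt M x := by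
    rw [zt_cast]
  have hcs := Finset.sum_mul_sq_le_sq_mul_sq (range k) (fun i => ((i : ℚ) * (k - 1 - i)) - a)
    (fun i => (M k i : ℚ) - δ / k)
  have e1 : ∑ i ∈ range k, (((i : ℚ) * (k - 1 - i)) - a) * ((M k i : ℚ) - δ / k) =
      Zt M x - δ * a := by
    have h1 : ∀ i ∈ range k, (((i : ℚ) * (k - 1 - i)) - a) * ((M k i : ℚ) - δ / k) =
        (M k i : ℚ) * (i * ((k : ℚ) - 1 - i)) - a * (M k i : ℚ) -
          (δ / k) * ((i : ℚ) * (k - 1 - i)) + a * (δ / k) := by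
      intro i _; ring
    rw [Finset.sum_congr rfl h1, Finset.sum_add_distrib, Finset.sum_sub_distrib,
      Finset.sum_sub_distrib, ← Finset.mul_sum, ← Finset.mul_sum, hZ, hM, f_sum, Finset.sum_const,
      card_range, nsmul_eq_mul, ha]
    field_simp
    ring
  have e2 : ∑ i ∈ range k, (((i : ℚ) * (k - 1 - i)) - a) ^ 2 =
      k * ((k : ℚ) ^ 2 - 1) * ((k : ℚ) ^ 2 - 4) / 180 := by
    have h1 : ∀ i ∈ range k, (((i : ℚ) * (k - 1 - i)) - a) ^ 2 =
        ((i : ℚ) * (k - 1 - i)) ^ 2 - 2 * a * ((i : ℚ) * (k - 1 - i)) + a ^ 2 := by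
      intro i _; ring
    rw [Finset.sum_congr rfl h1, Finset.sum_add_distrib, Finset.sum_sub_distrib, ← Finset.mul_sum,
      f2_sum, f_sum, Finset.sum_const, card_range, nsmul_eq_mul, ha]
    ring
  have e3 : ∑ i ∈ range k, ((M k i : ℚ) - δ / k) ^ 2 = ex M δ k := by
    have h1 : ∀ i ∈ range k, ((M k i : ℚ) - δ / k) ^ 2 =
        (M k i : ℚ) ^ 2 - 2 * (δ / k) * (M k i : ℚ) + (δ / k) ^ 2 := by
      intro i _; ring
    rw [Finset.sum_congr rfl h1, Finset.sum_add_distrib, Finset.sum_sub_distrib, ← Finset.mul_sum,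
      hM, Finset.sum_const, card_range, nsmul_eq_mul, ex]
    field_simp
    ring
  rw [e1, e2, e3] at hcs
  have hval := h.val x hx
  have hx1 : (0 : ℚ) < (x : ℚ) + 1 := by positivity
  have e4 : V.eval (x : ℚ) - δ * uu x = (Zt M x - δ * a) / ((x : ℚ) + 1) ^ 2 := by
    rw [eq_div_iff (by positivity), ← hval, ha, hkq, uu]
    field_simp
    ring
  rw [e4, div_pow, div_le_iff₀ (by positivity)]
  refine hcs.trans (le_of_eq ?_)
  rw [wt, hkq]
  field_simp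
  ring

/-- **A certificate for the excess.** -/
theorem Tab.cert (h : Tab R ν δ M V) {n m X : ℕ} (hn : V.natDegree ≤ n) (xs : ℕ → ℕ) (c : ℕ → ℚ)
    (e : ℚ) (hX : X + 2 ≤ R) (h1 : ∀ j ∈ range m, 1 ≤ xs j ∧ xs j ≤ X)
    (hinj : ∀ i ∈ range m, ∀ j ∈ range m, xs i = xs j → i = j)
    (h2 : ∀ i ∈ Icc 1 n, ∑ j ∈ range m, c j * (xs j : ℚ) ^ i = 0)
    (h3 : e * ∑ j ∈ range m, (c j) ^ 2 * wt (xs j) ≤ (∑ j ∈ range m, c j * uu (xs j)) ^ 2)
    (h4 : 0 < ∑ j ∈ range m, (c j) ^ 2 * wt (xs j)) :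
    e * (δ : ℚ) ^ 2 ≤ ∑ k ∈ Icc 1 R, ex M δ k := by
  classical
  have hV : ∑ j ∈ range m, c j * V.eval (xs j : ℚ) = 0 := by
    have e1 : ∀ x : ℚ, V.eval x = ∑ i ∈ range (n + 1), V.coeff i * x ^ i := fun x =>
      eval_eq_sum_range' (by omega) x
    have c0 : V.coeff 0 = 0 := by rw [coeff_zero_eq_eval_zero, h.zero]
    have e2 : ∑ j ∈ range m, c j * V.eval (xs j : ℚ) =
        ∑ i ∈ range (n + 1), V.coeff i * ∑ j ∈ range m, c j * (xs j : ℚ) ^ i := by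
      simp only [e1, Finset.mul_sum]
      rw [Finset.sum_comm]
      refine Finset.sum_congr rfl fun i _ => Finset.sum_congr rfl fun j _ => ?_
      ring
    rw [e2]
    refine Finset.sum_eq_zero fun i hi => ?_
    rw [mem_range] at hi
    rcases Nat.eq_zero_or_pos i with rfl | hi0
    · rw [c0, zero_mul]
    · rw [h2 i (mem_Icc.2 ⟨hi0, by omega⟩), mul_zero]
  have hcs := Finset.sum_sq_le_sum_mul_sum_of_sq_le_mul (range m)
    (r := fun j => c j * (V.eval (xs j : ℚ) - δ * uu (xs j)))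
    (f := fun j => (c j) ^ 2 * wt (xs j)) (g := fun j => ex M δ (xs j + 2))
    (fun j _ => by unfold wt; positivity)
    (fun j hj => h.ex_nonneg (by omega) (by have := (h1 j hj).2; omega))
    (fun j hj => by
      have := h.row (x := xs j) (by have := (h1 j hj).2; omega)
      calc (c j * (V.eval (xs j : ℚ) - δ * uu (xs j))) ^ 2 =
            (c j) ^ 2 * (V.eval (xs j : ℚ) - δ * uu (xs j)) ^ 2 := by ring
        _ ≤ (c j) ^ 2 * (wt (xs j) * ex M δ (xs j + 2)) :=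
            mul_le_mul_of_nonneg_left this (sq_nonneg _)
        _ = _ := by ring)
  have e1 : ∑ j ∈ range m, c j * (V.eval (xs j : ℚ) - δ * uu (xs j)) =
      -(δ * ∑ j ∈ range m, c j * uu (xs j)) := by
    have : ∀ j ∈ range m, c j * (V.eval (xs j : ℚ) - δ * uu (xs j)) =
        c j * V.eval (xs j : ℚ) - δ * (c j * uu (xs j)) := by
      intro j _; ring
    rw [Finset.sum_congr rfl this, Finset.sum_sub_distrib, hV, ← Finset.mul_sum, zero_sub]
  rw [e1] at hcs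
  set A := ∑ j ∈ range m, c j * uu (xs j)
  set B := ∑ j ∈ range m, (c j) ^ 2 * wt (xs j)
  have e2 : ∑ j ∈ range m, ex M δ (xs j + 2) ≤ ∑ k ∈ Icc 1 R, ex M δ k := by
    have e3 : ∑ j ∈ range m, ex M δ (xs j + 2) = ∑ k ∈ (range m).image (fun j => xs j + 2), ex M δ k := by
      rw [Finset.sum_image]
      intro i hi j hj hij
      exact hinj i hi j hj (by simpa using hij)
    rw [e3]
    refine Finset.sum_le_sum_of_subset_of_nonneg ?_ ?_
    · intro k hk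
      rw [mem_image] at hk
      obtain ⟨j, hj, rfl⟩ := hk
      rw [mem_Icc]
      have := (h1 j hj).2
      omega
    · intro k hk _
      rw [mem_Icc] at hk
      exact h.ex_nonneg hk.1 hk.2
  have e3 : e * (δ : ℚ) ^ 2 * B ≤ (∑ k ∈ Icc 1 R, ex M δ k) * B := by
    calc e * (δ : ℚ) ^ 2 * B = (δ : ℚ) ^ 2 * (e * B) := by ring
      _ ≤ (δ : ℚ) ^ 2 * A ^ 2 := mul_le_mul_of_nonneg_left h3 (by positivity)
      _ = (-(δ * A)) ^ 2 := by ring
      _ ≤ B * ∑ j ∈ range m, ex M δ (xs j + 2) := hcs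
      _ ≤ B * ∑ k ∈ Icc 1 R, ex M δ k := mul_le_mul_of_nonneg_left e2 h4.le
      _ = _ := by ring
  exact le_of_mul_le_mul_right e3 h4

/-- the adjunction inequality in terms of the excess -/
theorem Tab.ex_le (h : Tab R ν δ M V) : ((∑ k ∈ Icc 1 R, ex M δ k : ℚ) : ℝ) ≤
    (R - ν) * δ - ((harmonic R : ℚ) - ν) * (δ : ℝ) ^ 2 := by
  have h1 := h.adj
  have h2 : ((∑ k ∈ Icc 1 R, ex M δ k : ℚ) : ℝ) =
      ∑ k ∈ Icc 1 R, ∑ i ∈ range k, (M k i : ℝ) ^ 2 - (δ : ℝ) ^ 2 * ((harmonic R : ℚ) : ℝ) := by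
    unfold ex
    rw [Finset.sum_sub_distrib, harmonic_eq_sum_Icc, Rat.cast_sub]
    push_cast
    congr 1
    rw [Finset.mul_sum]
    exact Finset.sum_congr rfl fun k _ => by rw [div_eq_mul_inv]
  rw [h2]
  nlinarith

end Pool.Agent.K9h7.SH
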