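import Pool.Agent.K9h7.SH.Tab
import Pool.Agent.K9h7.SH.Coef2

/-!
# The polynomial `V` is linear if `δ` is not too large
-/

set_option autoImplicit false

open Finset Polynomial

namespace Pool.Agent.K9h7.SH

theorem harmonic_mono {R S : ℕ} (h : R ≤ S) : harmonic R ≤ harmonic S := by
  unfold harmonic
  refine Finset.sum_le_sum_of_subset_of_nonneg ?_ fun i _ _ => by positivity
  intro i hi
  rw [mem_range] at hi ⊢
  omega

/-- the condition for `R` and `ν` -/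
def Cond (R : ℕ) (ν : ℝ) : Prop :=
  ν ≤ ((harmonic R - 30 / R : ℚ) : ℝ) ∨ 4900 ≤ R ∧ ν < ((harmonic R : ℚ) : ℝ)

theorem Cond.le {R : ℕ} {ν : ℝ} (h : Cond R ν) : ν ≤ ((harmonic R : ℚ) : ℝ) := by
  rcases h with h | ⟨-, h⟩
  · refine h.trans ?_
    have : (harmonic R - 30 / R : ℚ) ≤ harmonic R := by
      have : (0 : ℚ) ≤ 30 / R := by positivity
      linarith
    exact_mod_cast this
  · exact h.le

theorem Cond.gap {R S : ℕ} {ν : ℝ} (h : Cond R ν) (hR : 1 ≤ R) (hRS : R ≤ S) (hS : S < 4900) :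
    ν ≤ ((harmonic S - 30 / S : ℚ) : ℝ) := by
  rcases h with h | ⟨h, -⟩
  · refine h.trans ?_
    have h1 : (30 / S : ℚ) ≤ 30 / R := by
      have : (0 : ℚ) < R := by exact_mod_cast hR
      exact div_le_div_of_nonneg_left (by norm_num) this (by exact_mod_cast hRS)
    have h2 := harmonic_mono hRS
    have : (harmonic R - 30 / R : ℚ) ≤ harmonic S - 30 / S := by linarith
    exact_mod_cast this
  · omega

theorem concl {n : ℕ} (hn : 2 ≤ n) {y y0 a b C : ℝ} (hy0 : 0 < y0) (hy : y0 ≤ y) (ha : 0 ≤ a)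
    (hb : 0 ≤ b) (hC : 0 ≤ C) (h1 : 30 * y ^ n ≤ C * ((y + a) * (y + b)))
    (h2 : C * ((y0 + a) * (y0 + b)) < 30 * y0 ^ n) : False := by
  obtain ⟨m, rfl⟩ : ∃ m, n = m + 2 := ⟨n - 2, by omega⟩
  have hy1 : 0 < y := by linarith
  have e1 : (y + a) * y0 ≤ (y0 + a) * y := by nlinarith
  have e2 : (y + b) * y0 ≤ (y0 + b) * y := by nlinarith
  have e3 : ((y + a) * y0) * ((y + b) * y0) ≤ ((y0 + a) * y) * ((y0 + b) * y) :=
    mul_le_mul e1 e2 (by positivity) (by positivity)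
  have e4 : 30 * y ^ (m + 2) * y0 ^ 2 ≤ C * ((y0 + a) * (y0 + b)) * y ^ 2 := by
    calc 30 * y ^ (m + 2) * y0 ^ 2 ≤ C * ((y + a) * (y + b)) * y0 ^ 2 :=
          mul_le_mul_of_nonneg_right h1 (by positivity)
      _ = C * (((y + a) * y0) * ((y + b) * y0)) := by ring
      _ ≤ C * (((y0 + a) * y) * ((y0 + b) * y)) := mul_le_mul_of_nonneg_left e3 hC
      _ = _ := by ring
  have e5 : C * ((y0 + a) * (y0 + b)) * y ^ 2 < 30 * y0 ^ (m + 2) * y ^ 2 :=
    mul_lt_mul_of_pos_right h2 (by positivity)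
  have e6 : y0 ^ m ≤ y ^ m := pow_le_pow_left₀ hy0.le hy m
  have e7 : 30 * y0 ^ (m + 2) * y ^ 2 ≤ 30 * y ^ (m + 2) * y0 ^ 2 := by
    have : 30 * y0 ^ (m + 2) * y ^ 2 = 30 * (y0 ^ 2 * y ^ 2) * y0 ^ m := by ring
    rw [this]
    have : 30 * y ^ (m + 2) * y0 ^ 2 = 30 * (y0 ^ 2 * y ^ 2) * y ^ m := by ring
    rw [this]
    exact mul_le_mul_of_nonneg_left e6 (by positivity)
  linarith

theorem g30 : harmonic 30 - 30 / ((30 : ℕ) : ℚ) < 3 := by
  decide +kernel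

theorem g38 : harmonic 38 - 30 / ((38 : ℕ) : ℚ) < 7 / 2 := by
  decide +kernel

theorem g39 : harmonic 39 - 30 / ((39 : ℕ) : ℚ) < 7 / 2 := by
  decide +kernel

theorem g47 : harmonic 47 - 30 / ((47 : ℕ) : ℚ) < 4 := by
  decide +kernel

theorem g52 : harmonic 52 - 30 / ((52 : ℕ) : ℚ) < 9 / 2 := by
  decide +kernel

theorem g61 : harmonic 61 - 30 / ((61 : ℕ) : ℚ) < 5 := by
  decide +kernel

theorem g63 : harmonic 63 - 30 / ((63 : ℕ) : ℚ) < 43 / 10 := by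
  decide +kernel

theorem g70 : harmonic 70 - 30 / ((70 : ℕ) : ℚ) < 11 / 2 := by
  decide +kernel

theorem g127 : harmonic 127 - 30 / ((127 : ℕ) : ℚ) < 52 / 10 := by
  decide +kernel

variable {R : ℕ} {ν : ℝ} {δ : ℕ} {M : ℕ → ℕ → ℕ} {V : ℚ[X]}

theorem Tab.bd (h : Tab R ν δ M V) {T : ℕ} (hT : T + 2 ≤ R) :
    ∀ t : ℕ, t ≤ T → 0 ≤ V.eval (t : ℚ) ∧ V.eval (t : ℚ) ≤ δ / 4 := fun t ht =>
  ⟨h.nonneg (by omega), h.le (by omega)⟩

theorem Tab.int (h : Tab R ν δ M V) {T : ℕ} (hT : T + 2 ≤ R) :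
    ∀ t : ℕ, t ≤ T → ∃ z : ℤ, ((t : ℚ) + 1) ^ 2 * V.eval (t : ℚ) = z := fun t ht =>
  ⟨(Zt M t : ℤ), by rw [h.val t (by omega)]; simp⟩

theorem Tab.no2 (h : Tab R ν δ M V) (hR : 30 ≤ R) (hc : Cond R ν)
    (hδ : 30 * (δ : ℝ) ≤ R * (R - ν)) : V.natDegree ≠ 2 := by
  intro hn
  have hdeg := h.deg
  rw [hn] at hdeg
  push_cast at hdeg
  have hk := kill2 (V := V) (δ := δ) (h := (R - 2) / 2) hn h.zero
    (h.bd (by
      have := Nat.mul_div_le (R - 2) 2
      omega)) (h.int (by omega))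
  have hk' : ((((R - 2) / 2 : ℕ) : ℝ)) ^ 2 ≤ (6) * δ := by
    have h1 := (Rat.cast_le (K := ℝ)).2 hk
    push_cast at h1
    exact h1
  have hh : R - 1 - 2 ≤ 2 * ((R - 2) / 2) := by omega
  have hh' : (R : ℝ) - 1 - 2 ≤ 2 * ((((R - 2) / 2 : ℕ) : ℝ)) := by
    have h1 : ((R - 1 - 2 : ℕ) : ℝ) ≤ ((2 * ((R - 2) / 2) : ℕ) : ℝ) := by
      exact_mod_cast hh
    rw [Nat.cast_sub (by omega), Nat.cast_sub (by omega)] at h1
    push_cast at h1
    push_cast
    linarith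
  have hRr : (30 : ℝ) ≤ R := by exact_mod_cast (by omega : 30 ≤ R)
  generalize (((R - 2) / 2 : ℕ) : ℝ) = z at hk' hh'
  have hy : ((R : ℝ) - 1 - 2) ^ 2 ≤ (2 * z) ^ 2 :=
    pow_le_pow_left₀ (by linarith) hh' 2
  refine concl (n := 2) (y := (R : ℝ) - 1 - 2) (y0 := 27) (a := 3) (b := 1)
    (C := 24) (by norm_num) (by norm_num) (by linarith) (by norm_num) (by norm_num)
    (by norm_num) ?_ (by norm_num)
  have h2 : (R : ℝ) * (R - ν) ≤ R * (R - 2) :=
    mul_le_mul_of_nonneg_left (by linarith) (by linarith)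
  have h3 : (2 * z) ^ 2 = 4 * z ^ 2 := by ring
  rw [h3] at hy
  nlinarith [hk', hδ, h2, hy]

theorem Tab.no3 (h : Tab R ν δ M V) (hR : 30 ≤ R) (hc : Cond R ν)
    (hδ : 30 * (δ : ℝ) ≤ R * (R - ν)) : V.natDegree ≠ 3 := by
  intro hn
  have hdeg := h.deg
  rw [hn] at hdeg
  push_cast at hdeg
  have hk := kill3 (V := V) (δ := δ) (h := (R - 2) / 4) hn h.zero
    (h.bd (by
      have := Nat.mul_div_le (R - 2) 4
      omega)) (h.int (by omega))
  have hk' : ((((R - 2) / 4 : ℕ) : ℝ)) ^ 3 ≤ (15 / 2) * δ := by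
    have h1 := (Rat.cast_le (K := ℝ)).2 hk
    push_cast at h1
    exact h1
  have hh : R - 1 - 4 ≤ 4 * ((R - 2) / 4) := by omega
  have hh' : (R : ℝ) - 1 - 4 ≤ 4 * ((((R - 2) / 4 : ℕ) : ℝ)) := by
    have h1 : ((R - 1 - 4 : ℕ) : ℝ) ≤ ((4 * ((R - 2) / 4) : ℕ) : ℝ) := by
      exact_mod_cast hh
    rw [Nat.cast_sub (by omega), Nat.cast_sub (by omega)] at h1
    push_cast at h1
    push_cast
    linarith
  have hRr : (30 : ℝ) ≤ R := by exact_mod_cast (by omega : 30 ≤ R)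
  generalize (((R - 2) / 4 : ℕ) : ℝ) = z at hk' hh'
  have hy : ((R : ℝ) - 1 - 4) ^ 3 ≤ (4 * z) ^ 3 :=
    pow_le_pow_left₀ (by linarith) hh' 3
  refine concl (n := 3) (y := (R : ℝ) - 1 - 4) (y0 := 25) (a := 5) (b := 5 / 2)
    (C := 480) (by norm_num) (by norm_num) (by linarith) (by norm_num) (by norm_num)
    (by norm_num) ?_ (by norm_num)
  have h2 : (R : ℝ) * (R - ν) ≤ R * (R - 5 / 2) :=
    mul_le_mul_of_nonneg_left (by linarith) (by linarith)
  have h3 : (4 * z) ^ 3 = 64 * z ^ 3 := by ring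
  rw [h3] at hy
  nlinarith [hk', hδ, h2, hy]

theorem Tab.no4 (h : Tab R ν δ M V) (hR : 30 ≤ R) (hc : Cond R ν)
    (hδ : 30 * (δ : ℝ) ≤ R * (R - ν)) : V.natDegree ≠ 4 := by
  intro hn
  have hdeg := h.deg
  rw [hn] at hdeg
  push_cast at hdeg
  have hRS : 30 < R := by
    by_contra hcon
    have h1 := hc.gap (by omega) (by omega : R ≤ 30) (by norm_num)
    have h2 : ((harmonic 30 - 30 / ((30 : ℕ) : ℚ) : ℚ) : ℝ) < ((3 : ℚ) : ℝ) := by
      exact_mod_cast g30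
    push_cast at h1 h2
    linarith
  have hk := kill4 (V := V) (δ := δ) (h := (R - 2) / 6) hn h.zero
    (h.bd (by
      have := Nat.mul_div_le (R - 2) 6
      omega)) (h.int (by omega))
  have hk' : ((((R - 2) / 6 : ℕ) : ℝ)) ^ 4 ≤ (9) * δ := by
    have h1 := (Rat.cast_le (K := ℝ)).2 hk
    push_cast at h1
    exact h1
  rcases Nat.lt_or_ge R 32 with h32 | h32
  · have h31 : R = 31 := by omega
    subst h31
    norm_num at hk' hδ
    have h1 : (δ : ℝ) < 29 := by linarith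
    have h2 : δ < 29 := by exact_mod_cast h1
    have h3 : (δ : ℝ) ≤ 28 := by exact_mod_cast (by omega : δ ≤ 28)
    linarith
  have hh : R - 1 - 6 ≤ 6 * ((R - 2) / 6) := by omega
  have hh' : (R : ℝ) - 1 - 6 ≤ 6 * ((((R - 2) / 6 : ℕ) : ℝ)) := by
    have h1 : ((R - 1 - 6 : ℕ) : ℝ) ≤ ((6 * ((R - 2) / 6) : ℕ) : ℝ) := by
      exact_mod_cast hh
    rw [Nat.cast_sub (by omega), Nat.cast_sub (by omega)] at h1
    push_cast at h1
    push_cast
    linarith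
  have hRr : (32 : ℝ) ≤ R := by exact_mod_cast (by omega : 32 ≤ R)
  generalize (((R - 2) / 6 : ℕ) : ℝ) = z at hk' hh'
  have hy : ((R : ℝ) - 1 - 6) ^ 4 ≤ (6 * z) ^ 4 :=
    pow_le_pow_left₀ (by linarith) hh' 4
  refine concl (n := 4) (y := (R : ℝ) - 1 - 6) (y0 := 25) (a := 7) (b := 4)
    (C := 11664) (by norm_num) (by norm_num) (by linarith) (by norm_num) (by norm_num)
    (by norm_num) ?_ (by norm_num)
  have h2 : (R : ℝ) * (R - ν) ≤ R * (R - 3) :=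
    mul_le_mul_of_nonneg_left (by linarith) (by linarith)
  have h3 : (6 * z) ^ 4 = 1296 * z ^ 4 := by ring
  rw [h3] at hy
  nlinarith [hk', hδ, h2, hy]

theorem Tab.no5 (h : Tab R ν δ M V) (hR : 30 ≤ R) (hc : Cond R ν)
    (hδ : 30 * (δ : ℝ) ≤ R * (R - ν)) : V.natDegree ≠ 5 := by
  intro hn
  have hdeg := h.deg
  rw [hn] at hdeg
  push_cast at hdeg
  have hRS : 38 < R := by
    by_contra hcon
    have h1 := hc.gap (by omega) (by omega : R ≤ 38) (by norm_num)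
    have h2 : ((harmonic 38 - 30 / ((38 : ℕ) : ℚ) : ℚ) : ℝ) < ((7 / 2 : ℚ) : ℝ) := by
      exact_mod_cast g38
    push_cast at h1 h2
    linarith
  have hk := kill5 (V := V) (δ := δ) (h := (R - 2) / 10) hn h.zero
    (h.bd (by
      have := Nat.mul_div_le (R - 2) 10
      omega)) (h.int (by omega))
  have hk' : ((((R - 2) / 10 : ℕ) : ℝ)) ^ 5 ≤ (7 / 2) * δ := by
    have h1 := (Rat.cast_le (K := ℝ)).2 hk
    push_cast at h1
    exact h1
  have hh : R - 1 - 10 ≤ 10 * ((R - 2) / 10) := by omega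
  have hh' : (R : ℝ) - 1 - 10 ≤ 10 * ((((R - 2) / 10 : ℕ) : ℝ)) := by
    have h1 : ((R - 1 - 10 : ℕ) : ℝ) ≤ ((10 * ((R - 2) / 10) : ℕ) : ℝ) := by
      exact_mod_cast hh
    rw [Nat.cast_sub (by omega), Nat.cast_sub (by omega)] at h1
    push_cast at h1
    push_cast
    linarith
  have hRr : (39 : ℝ) ≤ R := by exact_mod_cast (by omega : 39 ≤ R)
  generalize (((R - 2) / 10 : ℕ) : ℝ) = z at hk' hh'
  have hy : ((R : ℝ) - 1 - 10) ^ 5 ≤ (10 * z) ^ 5 :=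
    pow_le_pow_left₀ (by linarith) hh' 5
  refine concl (n := 5) (y := (R : ℝ) - 1 - 10) (y0 := 28) (a := 11) (b := 15 / 2)
    (C := 350000) (by norm_num) (by norm_num) (by linarith) (by norm_num) (by norm_num)
    (by norm_num) ?_ (by norm_num)
  have h2 : (R : ℝ) * (R - ν) ≤ R * (R - 7 / 2) :=
    mul_le_mul_of_nonneg_left (by linarith) (by linarith)
  have h3 : (10 * z) ^ 5 = 100000 * z ^ 5 := by ring
  rw [h3] at hy
  nlinarith [hk', hδ, h2, hy]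

theorem Tab.no6 (h : Tab R ν δ M V) (hR : 30 ≤ R) (hc : Cond R ν)
    (hδ : 30 * (δ : ℝ) ≤ R * (R - ν)) : V.natDegree ≠ 6 := by
  intro hn
  have hdeg := h.deg
  rw [hn] at hdeg
  push_cast at hdeg
  have hRS : 47 < R := by
    by_contra hcon
    have h1 := hc.gap (by omega) (by omega : R ≤ 47) (by norm_num)
    have h2 : ((harmonic 47 - 30 / ((47 : ℕ) : ℚ) : ℚ) : ℝ) < ((4 : ℚ) : ℝ) := by
      exact_mod_cast g47
    push_cast at h1 h2
    linarith
  have hk := kill6 (V := V) (δ := δ) (h := (R - 2) / 16) hn h.zero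
    (h.bd (by
      have := Nat.mul_div_le (R - 2) 16
      omega)) (h.int (by omega))
  have hk' : ((((R - 2) / 16 : ℕ) : ℝ)) ^ 6 ≤ (217 / 352) * δ := by
    have h1 := (Rat.cast_le (K := ℝ)).2 hk
    push_cast at h1
    exact h1
  have hh : R - 1 - 16 ≤ 16 * ((R - 2) / 16) := by omega
  have hh' : (R : ℝ) - 1 - 16 ≤ 16 * ((((R - 2) / 16 : ℕ) : ℝ)) := by
    have h1 : ((R - 1 - 16 : ℕ) : ℝ) ≤ ((16 * ((R - 2) / 16) : ℕ) : ℝ) := by
      exact_mod_cast hh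
    rw [Nat.cast_sub (by omega), Nat.cast_sub (by omega)] at h1
    push_cast at h1
    push_cast
    linarith
  have hRr : (48 : ℝ) ≤ R := by exact_mod_cast (by omega : 48 ≤ R)
  generalize (((R - 2) / 16 : ℕ) : ℝ) = z at hk' hh'
  have hy : ((R : ℝ) - 1 - 16) ^ 6 ≤ (16 * z) ^ 6 :=
    pow_le_pow_left₀ (by linarith) hh' 6
  refine concl (n := 6) (y := (R : ℝ) - 1 - 16) (y0 := 31) (a := 17) (b := 13)
    (C := 113770496 / 11) (by norm_num) (by norm_num) (by linarith) (by norm_num) (by norm_num)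
    (by norm_num) ?_ (by norm_num)
  have h2 : (R : ℝ) * (R - ν) ≤ R * (R - 4) :=
    mul_le_mul_of_nonneg_left (by linarith) (by linarith)
  have h3 : (16 * z) ^ 6 = 16777216 * z ^ 6 := by ring
  rw [h3] at hy
  nlinarith [hk', hδ, h2, hy]

theorem Tab.no7 (h : Tab R ν δ M V) (hR : 30 ≤ R) (hc : Cond R ν)
    (hδ : 30 * (δ : ℝ) ≤ R * (R - ν)) : V.natDegree ≠ 7 := by
  intro hn
  have hdeg := h.deg
  rw [hn] at hdeg
  push_cast at hdeg
  have hRS : 52 < R := by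
    by_contra hcon
    have h1 := hc.gap (by omega) (by omega : R ≤ 52) (by norm_num)
    have h2 : ((harmonic 52 - 30 / ((52 : ℕ) : ℚ) : ℚ) : ℝ) < ((9 / 2 : ℚ) : ℝ) := by
      exact_mod_cast g52
    push_cast at h1 h2
    linarith
  have hk := kill7 (V := V) (δ := δ) (h := (R - 2) / 20) hn h.zero
    (h.bd (by
      have := Nat.mul_div_le (R - 2) 20
      omega)) (h.int (by omega))
  have hk' : ((((R - 2) / 20 : ℕ) : ℝ)) ^ 7 ≤ (413 / 1408) * δ := by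
    have h1 := (Rat.cast_le (K := ℝ)).2 hk
    push_cast at h1
    exact h1
  have hh : R - 1 - 20 ≤ 20 * ((R - 2) / 20) := by omega
  have hh' : (R : ℝ) - 1 - 20 ≤ 20 * ((((R - 2) / 20 : ℕ) : ℝ)) := by
    have h1 : ((R - 1 - 20 : ℕ) : ℝ) ≤ ((20 * ((R - 2) / 20) : ℕ) : ℝ) := by
      exact_mod_cast hh
    rw [Nat.cast_sub (by omega), Nat.cast_sub (by omega)] at h1
    push_cast at h1
    push_cast
    linarith
  have hRr : (53 : ℝ) ≤ R := by exact_mod_cast (by omega : 53 ≤ R)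
  generalize (((R - 2) / 20 : ℕ) : ℝ) = z at hk' hh'
  have hy : ((R : ℝ) - 1 - 20) ^ 7 ≤ (20 * z) ^ 7 :=
    pow_le_pow_left₀ (by linarith) hh' 7
  refine concl (n := 7) (y := (R : ℝ) - 1 - 20) (y0 := 32) (a := 21) (b := 33 / 2)
    (C := 4130000000 / 11) (by norm_num) (by norm_num) (by linarith) (by norm_num) (by norm_num)
    (by norm_num) ?_ (by norm_num)
  have h2 : (R : ℝ) * (R - ν) ≤ R * (R - 9 / 2) :=
    mul_le_mul_of_nonneg_left (by linarith) (by linarith)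
  have h3 : (20 * z) ^ 7 = 1280000000 * z ^ 7 := by ring
  rw [h3] at hy
  nlinarith [hk', hδ, h2, hy]

theorem Tab.no8 (h : Tab R ν δ M V) (hR : 30 ≤ R) (hc : Cond R ν)
    (hδ : 30 * (δ : ℝ) ≤ R * (R - ν)) : V.natDegree ≠ 8 := by
  intro hn
  have hdeg := h.deg
  rw [hn] at hdeg
  push_cast at hdeg
  have hRS : 61 < R := by
    by_contra hcon
    have h1 := hc.gap (by omega) (by omega : R ≤ 61) (by norm_num)
    have h2 : ((harmonic 61 - 30 / ((61 : ℕ) : ℚ) : ℚ) : ℝ) < ((5 : ℚ) : ℝ) := by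
      exact_mod_cast g61
    push_cast at h1 h2
    linarith
  have hk := kill8 (V := V) (δ := δ) (h := (R - 2) / 26) hn h.zero
    (h.bd (by
      have := Nat.mul_div_le (R - 2) 26
      omega)) (h.int (by omega))
  have hk' : ((((R - 2) / 26 : ℕ) : ℝ)) ^ 8 ≤ (1 / 14) * δ := by
    have h1 := (Rat.cast_le (K := ℝ)).2 hk
    push_cast at h1
    exact h1
  have hh : R - 1 - 26 ≤ 26 * ((R - 2) / 26) := by omega
  have hh' : (R : ℝ) - 1 - 26 ≤ 26 * ((((R - 2) / 26 : ℕ) : ℝ)) := by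
    have h1 : ((R - 1 - 26 : ℕ) : ℝ) ≤ ((26 * ((R - 2) / 26) : ℕ) : ℝ) := by
      exact_mod_cast hh
    rw [Nat.cast_sub (by omega), Nat.cast_sub (by omega)] at h1
    push_cast at h1
    push_cast
    linarith
  have hRr : (62 : ℝ) ≤ R := by exact_mod_cast (by omega : 62 ≤ R)
  generalize (((R - 2) / 26 : ℕ) : ℝ) = z at hk' hh'
  have hy : ((R : ℝ) - 1 - 26) ^ 8 ≤ (26 * z) ^ 8 :=
    pow_le_pow_left₀ (by linarith) hh' 8
  refine concl (n := 8) (y := (R : ℝ) - 1 - 26) (y0 := 35) (a := 27) (b := 22)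
    (C := 104413532288 / 7) (by norm_num) (by norm_num) (by linarith) (by norm_num) (by norm_num)
    (by norm_num) ?_ (by norm_num)
  have h2 : (R : ℝ) * (R - ν) ≤ R * (R - 5) :=
    mul_le_mul_of_nonneg_left (by linarith) (by linarith)
  have h3 : (26 * z) ^ 8 = 208827064576 * z ^ 8 := by ring
  rw [h3] at hy
  nlinarith [hk', hδ, h2, hy]

theorem Tab.no9 (h : Tab R ν δ M V) (hR : 30 ≤ R) (hc : Cond R ν)
    (hδ : 30 * (δ : ℝ) ≤ R * (R - ν)) : V.natDegree ≠ 9 := by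
  intro hn
  have hdeg := h.deg
  rw [hn] at hdeg
  push_cast at hdeg
  have hRS : 70 < R := by
    by_contra hcon
    have h1 := hc.gap (by omega) (by omega : R ≤ 70) (by norm_num)
    have h2 : ((harmonic 70 - 30 / ((70 : ℕ) : ℚ) : ℚ) : ℝ) < ((11 / 2 : ℚ) : ℝ) := by
      exact_mod_cast g70
    push_cast at h1 h2
    linarith
  have hk := kill9 (V := V) (δ := δ) (h := (R - 2) / 33) hn h.zero
    (h.bd (by
      have := Nat.mul_div_le (R - 2) 33
      omega)) (h.int (by omega))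
  have hk' : ((((R - 2) / 33 : ℕ) : ℝ)) ^ 9 ≤ (5367537 / 377490100) * δ := by
    have h1 := (Rat.cast_le (K := ℝ)).2 hk
    push_cast at h1
    exact h1
  have hh : R - 1 - 33 ≤ 33 * ((R - 2) / 33) := by omega
  have hh' : (R : ℝ) - 1 - 33 ≤ 33 * ((((R - 2) / 33 : ℕ) : ℝ)) := by
    have h1 : ((R - 1 - 33 : ℕ) : ℝ) ≤ ((33 * ((R - 2) / 33) : ℕ) : ℝ) := by
      exact_mod_cast hh
    rw [Nat.cast_sub (by omega), Nat.cast_sub (by omega)] at h1
    push_cast at h1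
    push_cast
    linarith
  have hRr : (71 : ℝ) ≤ R := by exact_mod_cast (by omega : 71 ≤ R)
  generalize (((R - 2) / 33 : ℕ) : ℝ) = z at hk' hh'
  have hy : ((R : ℝ) - 1 - 33) ^ 9 ≤ (33 * z) ^ 9 :=
    pow_le_pow_left₀ (by linarith) hh' 9
  refine concl (n := 9) (y := (R : ℝ) - 1 - 33) (y0 := 37) (a := 34) (b := 57 / 2)
    (C := 249115359752405599761 / 377490100) (by norm_num) (by norm_num) (by linarith) (by norm_num) (by norm_num)
    (by norm_num) ?_ (by norm_num)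
  have h2 : (R : ℝ) * (R - ν) ≤ R * (R - 11 / 2) :=
    mul_le_mul_of_nonneg_left (by linarith) (by linarith)
  have h3 : (33 * z) ^ 9 = 46411484401953 * z ^ 9 := by ring
  rw [h3] at hy
  nlinarith [hk', hδ, h2, hy]

end Pool.Agent.K9h7.SH
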