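import Pool.Agent.K9h7.SH.Adj
import Pool.Agent.K9h7.SG.Harm8

/-!
# The table of the multiplicities of an extremal curve
-/

set_option autoImplicit false

open Finset Polynomial Polynomial.Bivariate

namespace Pool.Agent.K9h7.SH

open Pool.Agent.K9h7.SG Pool.Agent.R60.Steiner

/-- the number `∑ M(k,i) i (k - 1 - i)` for `k = t + 2` -/
def Zt (M : ℕ → ℕ → ℕ) (t : ℕ) : ℕ := ∑ i ∈ range (t + 2), M (t + 2) i * (i * (t + 1 - i))

/-- The properties of the table `M k i` of the multiplicities of an extremal curve of degree `δ`. -/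
structure Tab (R : ℕ) (ν : ℝ) (δ : ℕ) (M : ℕ → ℕ → ℕ) (V : ℚ[X]) : Prop where
  pos : 1 ≤ δ
  sum : ∀ k, 1 ≤ k → k ≤ R → ∑ i ∈ range k, M k i = δ
  deg : (V.natDegree : ℝ) ≤ 2 * ν - 2
  zero : V.eval 0 = 0
  val : ∀ t : ℕ, t + 2 ≤ R → ((t : ℚ) + 1) ^ 2 * V.eval (t : ℚ) = (Zt M t : ℚ)
  lines : ∑ k ∈ Icc 1 R, ((M k 0 : ℝ) + M k (k - 1)) ≤ 2 * ν * δ
  adj : ∑ k ∈ Icc 1 R, ∑ i ∈ range k, (M k i : ℝ) ^ 2 ≤ ν * δ ^ 2 + (R - ν) * δ

theorem zt_cast (M : ℕ → ℕ → ℕ) (t : ℕ) : (Zt M t : ℚ) =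
    ∑ i ∈ range (t + 2), (M (t + 2) i : ℚ) * (i * (((t + 2 : ℕ) : ℚ) - 1 - i)) := by
  unfold Zt
  push_cast
  refine Finset.sum_congr rfl fun i hi => ?_
  rw [mem_range] at hi
  rw [Nat.cast_sub (by omega)]
  push_cast
  ring

theorem tab_of_rich {G : ℤ[X][Y]} (hG : Irreducible G) (h0 : G.natDegree ≠ 0) {ν : ℝ}
    (hν : 1 ≤ ν) {R : ℕ} (hR : 2 ≤ R) (hr : Rich R ν G) :
    ∃ (δ : ℕ) (M : ℕ → ℕ → ℕ) (V : ℚ[X]), Tab R ν δ M V := by
  have hν0 : 0 < ν := by linarith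
  have hR1 : 1 ≤ R := by omega
  obtain ⟨hw, hsum, -⟩ := rich_structure hG h0 hν0 hR1 hr
  obtain ⟨W, D, hWd, hD, hWk⟩ := exists_W hG h0 hν hw hR1 hsum
  have l0 := line_zero hG h0 hν0 hR1 hr
  have l1 := line_one hG h0 hν hR1 hr
  have hval : ∀ t : ℕ, t + 2 ≤ R → ((t : ℚ) + 1) ^ 2 * (W.comp (C (-2) - X)).eval (t : ℚ) =
      (Zt (fun k i => mult (-(k : ℤ)) i G) t : ℚ) := by
    intro t ht
    rw [zt_cast, eval_comp, eval_sub, eval_C, eval_X]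
    have h1 := hWk (t + 2) (by omega) ht
    have e1 : (-2 : ℚ) - t = -(((t + 2 : ℕ)) : ℚ) := by push_cast; ring
    have e2 : (t : ℚ) + 1 = ((t + 2 : ℕ) : ℚ) - 1 := by push_cast; ring
    rw [e1, e2]
    exact h1
  refine ⟨G.natDegree, fun k i => mult (-(k : ℤ)) i G, W.comp (C (-2) - X), ?_, hsum, ?_, ?_,
    hval, ?_, ?_⟩
  · exact Nat.pos_of_ne_zero h0
  · have h1 : (W.comp (C (-2) - X)).natDegree ≤ D := by
      refine natDegree_comp_le.trans ?_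
      have h2 : (C (-2 : ℚ) - X).natDegree ≤ 1 := by
        refine (natDegree_sub_le _ _).trans (max_le ?_ ?_)
        · rw [natDegree_C]; omega
        · exact natDegree_X_le
      calc W.natDegree * (C (-2 : ℚ) - X).natDegree ≤ W.natDegree * 1 :=
            Nat.mul_le_mul_left _ h2
        _ ≤ D := by omega
    have h2 : ((W.comp (C (-2) - X)).natDegree : ℝ) ≤ D := by exact_mod_cast h1
    linarith
  · have h1 := hval 0 (by omega)
    have h2 : Zt (fun k i => mult (-(k : ℤ)) i G) 0 = 0 := by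
      unfold Zt
      rw [sum_range_succ, sum_range_succ, sum_range_zero]
      simp
    rw [h2] at h1
    simpa using h1
  · rw [Finset.sum_add_distrib]
    have : 2 * ν * (G.natDegree : ℝ) = ν * G.natDegree + ν * G.natDegree := by ring
    rw [this]
    exact add_le_add (by simpa using l0) (by simpa using l1)
  · exact adjunction hG h0 hν0 hR1 hr

variable {R : ℕ} {ν : ℝ} {δ : ℕ} {M : ℕ → ℕ → ℕ} {V : ℚ[X]}

theorem Tab.nonneg (h : Tab R ν δ M V) {t : ℕ} (ht : t + 2 ≤ R) : 0 ≤ V.eval (t : ℚ) := by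
  have h1 := h.val t ht
  have h2 : (0 : ℚ) ≤ (Zt M t : ℚ) := Nat.cast_nonneg _
  have h3 : (0 : ℚ) < ((t : ℚ) + 1) ^ 2 := by positivity
  rw [← h1] at h2
  exact nonneg_of_mul_nonneg_right h2 h3

theorem Tab.le (h : Tab R ν δ M V) {t : ℕ} (ht : t + 2 ≤ R) : V.eval (t : ℚ) ≤ δ / 4 := by
  have h1 := h.val t ht
  have h3 : (0 : ℚ) < ((t : ℚ) + 1) ^ 2 := by positivity
  have h4 : (Zt M t : ℚ) ≤ ((t : ℚ) + 1) ^ 2 * (δ / 4) := by
    rw [zt_cast, ← h.sum (t + 2) (by omega) ht]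
    push_cast
    rw [Finset.sum_div, Finset.mul_sum]
    refine Finset.sum_le_sum fun i _ => ?_
    have h5 : (0 : ℚ) ≤ M (t + 2) i := Nat.cast_nonneg _
    have h6 : (i : ℚ) * ((t : ℚ) + 2 - 1 - i) ≤ ((t : ℚ) + 1) ^ 2 / 4 := by
      nlinarith [sq_nonneg ((t : ℚ) + 1 - 2 * i)]
    calc (M (t + 2) i : ℚ) * (i * ((t : ℚ) + 2 - 1 - i)) ≤ (M (t + 2) i : ℚ) * (((t : ℚ) + 1) ^ 2 / 4) :=
          mul_le_mul_of_nonneg_left h6 h5
      _ = _ := by ring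
  rw [← h1] at h4
  exact le_of_mul_le_mul_left h4 h3

/-- The table for fewer rows. -/
theorem Tab.mem_one (h : Tab R ν δ M V) (hR : 1 ≤ R) : M 1 0 = δ := by
  have h1 := h.sum 1 le_rfl hR
  rw [sum_range_succ, sum_range_zero, zero_add] at h1
  exact h1

/-- the mass at the two ends -/
theorem Tab.ends (h : Tab R ν δ M V) {t : ℕ} (ht : t + 2 ≤ R) :
    (δ : ℚ) * t - Zt M t ≤ t * ((M (t + 2) 0 : ℚ) + M (t + 2) (t + 1)) := by
  have hsplit : ∀ f : ℕ → ℚ, ∑ i ∈ range (t + 2), f i = f 0 + ∑ i ∈ Ico 1 (t + 1), f i + f (t + 1) := by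
    intro f
    rw [sum_range_succ, Finset.range_eq_Ico, Finset.sum_eq_sum_Ico_succ_bot (by omega)]
  have h1 : (∑ i ∈ Ico 1 (t + 1), (M (t + 2) i : ℚ)) * t ≤ Zt M t := by
    rw [zt_cast, hsplit, Finset.sum_mul]
    have h2 : ∑ i ∈ Ico 1 (t + 1), (M (t + 2) i : ℚ) * t ≤
        ∑ i ∈ Ico 1 (t + 1), (M (t + 2) i : ℚ) * (i * (((t + 2 : ℕ) : ℚ) - 1 - i)) := by
      refine Finset.sum_le_sum fun i hi => ?_
      rw [mem_Ico] at hi
      refine mul_le_mul_of_nonneg_left ?_ (Nat.cast_nonneg _)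
      have a1 : (1 : ℚ) ≤ i := by exact_mod_cast hi.1
      have a2 : (i : ℚ) ≤ t := by exact_mod_cast (by omega : i ≤ t)
      push_cast
      nlinarith
    have h3 : (M (t + 2) 0 : ℚ) * (((0 : ℕ) : ℚ) * (((t + 2 : ℕ) : ℚ) - 1 - ((0 : ℕ) : ℚ))) = 0 := by
      push_cast; ring
    have h4 : (M (t + 2) (t + 1) : ℚ) * (((t + 1 : ℕ) : ℚ) * (((t + 2 : ℕ) : ℚ) - 1 -
        ((t + 1 : ℕ) : ℚ))) = 0 := by
      push_cast; ring
    rw [h3, h4]
    linarith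
  have h5 : (∑ i ∈ range (t + 2), (M (t + 2) i : ℚ)) = δ := by
    exact_mod_cast h.sum (t + 2) (by omega) ht
  rw [hsplit] at h5
  rw [← h5]
  linarith

end Pool.Agent.K9h7.SH
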